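import Pool.Agent.HMS.Spec

/-!
# HMS, module Alr: alternating words
-/

set_option autoImplicit false

namespace Pool.Agent.HMS

open Polynomial Matrix Pool.Agent.HMA Pool.Agent.HMT

namespace AlrAux

theorem app (l m : List Ltr) : ∀ c : Bool, altB c (l ++ m) ↔ altB c l ∧ altB (if Even l.length then c else !c) m := by
  induction l with
  | nil =>
    intro c
    simp [altB]
  | cons x l ih =>
    intro c
    rw [List.cons_append]
    change (x.1 = c ∧ altB (!c) (l ++ m)) ↔ (x.1 = c ∧ altB (!c) l) ∧ _
    rw [ih, List.length_cons]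
    by_cases h : Even l.length
    · have h1 : ¬ Even (l.length + 1) := by
        rw [Nat.even_add_one]
        exact not_not.2 h
      rw [if_pos h, if_neg h1]
      tauto
    · have h1 : Even (l.length + 1) := Nat.even_add_one.2 h
      rw [if_neg h, if_pos h1, Bool.not_not]
      tauto

end AlrAux

theorem tAlr : S_Alr := by
  refine ⟨fun l₁ x l₂ h he => ?_, fun c L h hL => ?_⟩
  · obtain ⟨h1, h2⟩ := (AlrAux.app l₁ (x :: l₂) true).1 h
    have h3 : x.1 = (if Even l₁.length then true else !true) ∧
        altB (!(if Even l₁.length then true else !true)) l₂ := h2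
    obtain ⟨h4, h5⟩ := h3
    have hodd : Odd (l₂ ++ l₁).length := by
      rw [List.length_append] at he ⊢
      rw [List.length_cons] at he
      rcases he with ⟨k, hk⟩
      exact ⟨k - 1, by omega⟩
    refine ⟨?_, hodd⟩
    rw [AlrAux.app, h4]
    refine ⟨h5, ?_⟩
    rw [List.length_append] at hodd
    by_cases h6 : Even l₁.length
    · have h7 : ¬ Even l₂.length := by
        intro h8
        have := h8.add h6
        exact (Nat.not_even_iff_odd.2 hodd) this
      rw [if_pos h6, if_neg h7, Bool.not_not]
      exact h1
    · have h7 : Even l₂.length := by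
        by_contra h8
        have := (Nat.not_even_iff_odd.1 h8).add_odd (Nat.not_even_iff_odd.1 h6)
        exact (Nat.not_even_iff_odd.2 hodd) this
      rw [if_neg h6, if_pos h7]
      simpa using h1
  · match L, h, hL with
    | x :: y :: L, h, _ =>
      obtain ⟨h1, h2, -⟩ := h
      cases c
      · exact ⟨⟨y, by simp, by simpa using h2⟩, ⟨x, by simp, h1⟩⟩
      · exact ⟨⟨x, by simp, h1⟩, ⟨y, by simp, by simpa using h2⟩⟩

end Pool.Agent.HMS
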