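import Pool.Agent.HMS.Spec

/-!
# HMS, module BaseS: determinant and colourings of the base word
-/

set_option autoImplicit false

namespace Pool.Agent.HMS

open Polynomial Matrix Pool.Agent.HMA Pool.Agent.HMT

private theorem BaseSAux.prod (m a b m' a' b' : ℝ) :
    (rg false m' a' b').1 * (rg true m a b).1 =
      !![a' * m, a' * (-a), 0;
        (a' - b') * (m - b), (a' - b') * (b - a), b' * (m - a);
        (a' - m') * (m - b), (a' - m') * (b - a), m' * (m - a)] := by
  ext i j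
  fin_cases i <;> fin_cases j <;> simp [rg, Matrix.mul_apply, Fin.sum_univ_three]

private theorem BaseSAux.vec (m a b m' a' b' : ℝ) (x : Fin 3 → ℝ) :
    ((rg false m' a' b').1 * (rg true m a b).1).mulVec x 0 = a' * (m * x 0 - a * x 1) ∧
    ((rg false m' a' b').1 * (rg true m a b).1).mulVec x 1 =
      (a' - b') * ((m - b) * x 0 + (b - a) * x 1) + b' * ((m - a) * x 2) ∧
    ((rg false m' a' b').1 * (rg true m a b).1).mulVec x 2 =
      m' * ((m - a) * x 2) - (m' - a') * ((m - b) * x 0 + (b - a) * x 1) := by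
  rw [BaseSAux.prod]
  refine ⟨?_, ?_, ?_⟩
  · simp [Matrix.mulVec, dotProduct, Fin.sum_univ_three]
    ring
  · simp [Matrix.mulVec, dotProduct, Fin.sum_univ_three]
    ring
  · simp [Matrix.mulVec, dotProduct, Fin.sum_univ_three]
    ring

private theorem BaseSAux.dl (m a b m' a' b' : ℝ) :
    Dl ((rg false m' a' b').1 * (rg true m a b).1) = a' * m * (m' * (m - a)) := by
  rw [BaseSAux.prod]
  unfold Dl
  simp

private theorem BaseSAux.block {m n : Type} [Fintype m] [DecidableEq m] [Fintype n]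
    [DecidableEq n] (F : Matrix m m ℝ) (G : Matrix n n ℝ) (nw ne sw se : m) (nw' ne' sw' se' : n)
    (wne wsw wne' wsw' M a b M' a' b' : ℝ)
    (hF : F.det = M)
    (hFc : ∀ y₁ y₂ : ℝ, ∃ h : m → ℝ,
      F.mulVec h = Pi.single ne (-wne * ((M - a) * y₂)) +
        Pi.single sw (-wsw * (M * y₁ - a * y₂)) ∧
      h nw = (M - a) * y₁ ∧ h se = (M - b) * y₁ + (b - a) * y₂)
    (hG : G.det = M')
    (hGc : ∀ y₂ y₃ : ℝ, ∃ h : n → ℝ,
      G.mulVec h = Pi.single ne' (-wne' * (M' * y₃ - (M' - a') * y₂)) +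
        Pi.single sw' (-wsw' * (a' * y₂)) ∧
      h nw' = a' * y₃ ∧ h se' = (a' - b') * y₂ + b' * y₃) :
    a' * (M - a) * (fromBlocks F 0 (single sw' se wsw') G).det =
      Dl ((rg false M' a' b').1 * (rg true M a b).1) ∧
    ∀ x : Fin 3 → ℝ, ∃ h : m ⊕ n → ℝ,
      (fromBlocks F 0 (single sw' se wsw') G).mulVec h =
        Pi.single (Sum.inl sw) (-wsw * ((rg false M' a' b').1 * (rg true M a b).1).mulVec x 0) +
        Pi.single (Sum.inl ne) (-wne * (a' * (M - a) * x 1)) +
        Pi.single (Sum.inr ne') (-wne' * ((rg false M' a' b').1 * (rg true M a b).1).mulVec x 2) ∧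
      h (Sum.inl nw) = a' * (M - a) * x 0 ∧
      h (Sum.inr se') = ((rg false M' a' b').1 * (rg true M a b).1).mulVec x 1 ∧
      h (Sum.inr nw') = a' * (M - a) * x 2 := by
  constructor
  · rw [BaseSAux.dl, det_fromBlocks_zero₁₂, hF, hG]
    ring
  · intro x
    obtain ⟨v0, v1, v2⟩ := BaseSAux.vec M a b M' a' b' x
    obtain ⟨f, hf, hf1, hf2⟩ := hFc (a' * x 0) (a' * x 1)
    obtain ⟨g, hg, hg1, hg2⟩ := hGc ((M - b) * x 0 + (b - a) * x 1) ((M - a) * x 2)
    refine ⟨Sum.elim f g, ?_, ?_, ?_, ?_⟩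
    · rw [fromBlocks_mulVec]
      simp only [Sum.elim_comp_inl, Sum.elim_comp_inr, single_mulVec, zero_mulVec, add_zero]
      rw [hf, hg, v0, v2, hf2]
      ext z
      rcases z with z | z
      · have z1 : ∀ (i : m) (a : ℝ), (Pi.single (Sum.inl i) a : m ⊕ n → ℝ) (Sum.inl z) =
            (Pi.single i a : m → ℝ) z := by
          intro i a
          simp only [Pi.single_apply, Sum.inl.injEq]
        have z2 : ∀ (i : n) (a : ℝ), (Pi.single (Sum.inr i) a : m ⊕ n → ℝ) (Sum.inl z) = 0 := by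
          intro i a
          simp
        simp only [Sum.elim_inl, Pi.add_apply, z1, z2]
        simp only [Pi.single_apply]
        split_ifs <;> ring
      · have z1 : ∀ (i : m) (a : ℝ), (Pi.single (Sum.inl i) a : m ⊕ n → ℝ) (Sum.inr z) = 0 := by
          intro i a
          simp
        have z2 : ∀ (i : n) (a : ℝ), (Pi.single (Sum.inr i) a : m ⊕ n → ℝ) (Sum.inr z) =
            (Pi.single i a : n → ℝ) z := by
          intro i a
          simp only [Pi.single_apply, Sum.inr.injEq]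
        simp only [Sum.elim_inr, Pi.add_apply, z1, z2]
        simp only [Pi.single_apply, Function.update_apply, Pi.zero_apply]
        split_ifs <;> ring
    · simp only [Sum.elim_inl]
      rw [hf1]; ring
    · simp only [Sum.elim_inr]
      rw [hg2, v1]
    · simp only [Sum.elim_inr]
      rw [hg1]; ring

/-- **BaseS** (determinant and colourings of the base word) -/
theorem tBaseS : S_TanG → S_BaseS := by
  intro hTan S T ξ hξ hS hT
  obtain ⟨-, hFc, -⟩ := hTan S ξ hS hξ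
  obtain ⟨-, -, hGc⟩ := hTan T ξ hT hξ
  obtain ⟨h1, h2⟩ := BaseSAux.block (fox (-(ξ ^ 2)) S) (fox (-(ξ ^ 2)) T)
    S.nw S.ne S.sw S.se T.nw T.ne T.sw T.se (wNE (-(ξ ^ 2)) (S.ovr S.ne))
    (wSW (-(ξ ^ 2)) (S.ovr S.sw)) (wNE (-(ξ ^ 2)) (T.ovr T.ne)) (wSW (-(ξ ^ 2)) (T.ovr T.sw))
    (mT S ξ) (aT S ξ) (bT S ξ) (mT T ξ) (aT T ξ) (bT T ξ) rfl hFc rfl hGc
  exact ⟨h1, h2⟩

end Pool.Agent.HMS
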