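import Pool.Agent.HMS.Spec

/-!
# HMS, CG: a letter of pattern c at the end
-/

set_option autoImplicit false

namespace Pool.Agent.HMS

open Polynomial Matrix Pool.Agent.HMA Pool.Agent.HMT

namespace CGAux

theorem ev_inv (ξ : ℝ) (F : ℤ[X]) : ev ξ⁻¹ F = ev ξ F := by
  unfold ev
  rw [inv_inv, add_comm]

theorem ev_add (ξ : ℝ) (F G : ℤ[X]) : ev ξ (F + G) = ev ξ F + ev ξ G := by
  unfold ev
  exact map_add _ _ _

theorem ev_mul (ξ : ℝ) (F G : ℤ[X]) : ev ξ (F * G) = ev ξ F * ev ξ G := by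
  unfold ev
  exact map_mul _ _ _

/-- The exponent of `kap`. -/
def eps (o : Bool) : ℤ := if o then 1 else -1

theorem kap_zpow (o : Bool) (ξ : ℝ) : kap o ξ = ξ ^ eps o := by
  cases o
  · unfold kap eps
    rw [if_neg Bool.false_ne_true, if_neg Bool.false_ne_true, _root_.zpow_neg_one]
  · unfold kap eps
    rw [if_pos rfl, if_pos rfl, zpow_one]

theorem kap_inv (o : Bool) (ξ : ℝ) : kap o ξ⁻¹ = (kap o ξ)⁻¹ := by
  rw [kap_zpow, kap_zpow, _root_.inv_zpow]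

/-- The exponent is determined by the symmetry. -/
theorem expo (hP : HMA.S_Pos) (f : ℝ → ℝ) (F : ℤ[X]) (p q : ℕ) (K KL : ℤ) (hF : Full p q F)
    (h1 : ∀ ξ : ℝ, 0 < ξ → f ξ = ξ ^ K * ev ξ F)
    (h2 : ∀ ξ : ℝ, 0 < ξ → ξ ^ (2 * KL) * f ξ⁻¹ = f ξ) : K = KL := by
  have h := h2 2 (by norm_num)
  rw [h1 2 (by norm_num), h1 2⁻¹ (by norm_num), ev_inv, _root_.inv_zpow', ← mul_assoc,
    ← zpow_add₀ (by norm_num)] at h
  have h3 := mul_right_cancel₀ (hP.2 p q F hF 2 (by norm_num)).ne' h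
  have h4 := zpow_right_injective₀ (by norm_num : (0 : ℝ) < 2) (by norm_num) h3
  omega

theorem good1 (hFM : HMA.S_FullM) (L : List Ltr) (A F : ℤ[X]) (a b a' b' : ℕ) (K : ℤ)
    (hA : Full a b A) (hF : Full a' b' F) (e1 : (a : ℤ) + a' - b - b' = sigL L)
    (h : ∀ ξ : ℝ, 0 < ξ → gg (tr3 ξ L) = ξ ^ K * (ev ξ A * ev ξ F)) : Good L := by
  refine ⟨A * F, a + a', b + b', K, hFM.2.2.2 _ _ _ _ _ _ hA hF, ?_, fun ξ hξ => ?_⟩
  · rw [← e1]
    push_cast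
    ring
  · rw [h ξ hξ, ev_mul]

theorem good2 (hFA : S_FullAdd) (hFM : HMA.S_FullM) (L : List Ltr) (A B F G : ℤ[X])
    (a b a' b' c d c' d' : ℕ) (K : ℤ)
    (hA : Full a b A) (hF : Full a' b' F) (hB : Full c d B) (hG : Full c' d' G)
    (e1 : (a : ℤ) + a' - b - b' = sigL L) (e2 : (c : ℤ) + c' - d - d' = sigL L)
    (h : ∀ ξ : ℝ, 0 < ξ → gg (tr3 ξ L) = ξ ^ K * (ev ξ A * ev ξ F + ev ξ B * ev ξ G)) :
    Good L := by
  obtain ⟨p, q, h1, h2⟩ := hFA _ _ _ _ _ _ (hFM.2.2.2 _ _ _ _ _ _ hA hF)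
    (hFM.2.2.2 _ _ _ _ _ _ hB hG) (by push_cast; omega)
  refine ⟨A * F + B * G, p, q, K, h1, ?_, fun ξ hξ => ?_⟩
  · rw [h2, ← e1]
    push_cast
    ring
  · rw [h ξ hξ, ev_add, ev_mul, ev_mul]

theorem sig_app (L : List Ltr) (x : Ltr) : sigL (L ++ [x]) =
    sigL L + ((faces x.2 : ℤ) - positive x.2 + (if x.1 then 1 else 0)) := by
  unfold sigL
  rw [List.map_append, List.sum_append, List.map_singleton, List.sum_singleton]

theorem gg_one (ξ : ℝ) (y : Ltr) : gg (tr3 ξ [y]) = 0 := by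
  have e : tr3 ξ [y] = lt3 ξ y := one_mul _
  rw [e]
  obtain ⟨c, T⟩ := y
  unfold gg lt3 rg
  cases c
  · simp only [Bool.false_eq_true, if_false, Matrix.trace_fin_three]
    simp
    ring
  · simp only [if_true, Matrix.trace_fin_three]
    simp
    ring

theorem datT (h : S_Lt) (x : Ltr) (s : St) (hx : x.1 = true) (hs : Stp x s s)
    (hd : s.1 ≠ s.2.1) : DC x.2 s.1 := by
  rcases ((h x s s hs).1 hx).2 hd with h1 | h1
  · exfalso
    apply hd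
    exact congrArg Prod.fst h1.1
  · exact h1.2

theorem datF (h : S_Lt) (x : Ltr) (s : St) (hx : x.1 = false) (hs : Stp x s s)
    (hd : s.2.1 ≠ s.2.2) : DC x.2 s.2.2 := by
  rcases ((h x s s hs).2 hx).2 hd with h1 | h1
  · exfalso
    apply hd
    exact congrArg (fun t : St => t.2.1) h1.1
  · exact h1.2

end CGAux

open CGAux

theorem tCG : S_Lt → S_FullAdd → S_FullM → S_Pos → S_SymL → S_CRem → S_Ce → S_CG := by
  intro hLt hFA hFM hP hSym hRem hCe L x y L' s hL hy hpath hst hdif hG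
  obtain ⟨c, T⟩ := x
  cases c
  · have hd : s.2.1 ≠ s.2.2 := hdif
    have hu : ¬ Unif s := fun h => hd h.2
    have hy1 : y.1 = true := hy
    obtain ⟨n, d, p, q, p', q', K, hn, hdd, hpq, hsg, hdat⟩ := datF hLt (false, T) s rfl hst hd
    have hp1 := hpath
    rw [hL] at hp1
    obtain ⟨F₂, p₂, q₂, K₂, hF₂, hs₂, hr⟩ := (hCe y L' s hp1).2 hy1 hd
    rw [← hL] at hs₂
    have hr' : ∀ ξ : ℝ, 0 < ξ → rho (tr3 ξ L).1 0 1 = ξ ^ K₂ * ev ξ F₂ := by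
      rw [hL]
      exact hr
    have hrem : ∀ ξ : ℝ, 0 < ξ → gg (tr3 ξ (L ++ [(false, T)])) =
        ξ ^ K * (kap s.2.2 ξ * ev ξ d * gg (tr3 ξ L) + ev ξ n * rho (tr3 ξ L).1 0 1) :=
      fun ξ hξ => (hRem L T ξ (ξ ^ K) (ev ξ n) (kap s.2.2 ξ * ev ξ d) (hdat ξ hξ).1 (hdat ξ hξ).2.1
        (hdat ξ hξ).2.2).2
    have hsig : sigL (L ++ [(false, T)]) = sigL L + ((faces T : ℤ) - positive T) := by
      rw [sig_app]
      simp
    rcases hG with hG | ⟨F₁, p₁, q₁, K₁, hF₁, hs₁, hg⟩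
    · refine good1 hFM _ n F₂ p q p₂ q₂ (K + K₂) hn hF₂ ?_ fun ξ hξ => ?_
      · rw [hsig]
        have hsg' : (p' : ℤ) - q' = (faces T : ℤ) - positive T := hsg
        rcases hpq with ⟨h1, h2⟩ | ⟨h1, h2⟩ <;> subst h1 <;> subst h2 <;> push_cast at * <;> linarith
      · have h0 : gg (tr3 ξ L) = 0 := by
          rw [hL] at hG ⊢
          have hL' : L' = [] := by
            simpa using hG
          rw [hL']
          exact gg_one ξ y
        rw [hrem ξ hξ, h0, hr' ξ hξ, zpow_add₀ hξ.ne']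
        ring
    · obtain ⟨KL, hKL⟩ := hSym L s hpath hu
      have e1 : K₁ = KL := expo hP (fun ξ => gg (tr3 ξ L)) F₁ p₁ q₁ K₁ KL hF₁ hg
        fun ξ hξ => (hKL ξ hξ).1
      have e2 : K₂ + -eps s.2.2 = KL := by
        refine expo hP (fun ξ => (kap s.2.2 ξ)⁻¹ * rho (tr3 ξ L).1 0 1) F₂ p₂ q₂ _ KL hF₂
          (fun ξ hξ => ?_) fun ξ hξ => ?_
        · rw [hr' ξ hξ, kap_zpow, ← _root_.zpow_neg, zpow_add₀ hξ.ne']
          ring
        · rw [← (hKL ξ hξ).2.2 hd, kap_inv, inv_inv]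
      refine good2 hFA hFM _ d n F₁ F₂ p' q' p₁ q₁ p q p₂ q₂ (K + eps s.2.2 + KL) hdd hF₁ hn hF₂
        ?_ ?_ fun ξ hξ => ?_
      · rw [hsig]
        have hsg' : (p' : ℤ) - q' = (faces T : ℤ) - positive T := hsg
        linarith
      · rw [hsig]
        have hsg' : (p' : ℤ) - q' = (faces T : ℤ) - positive T := hsg
        rcases hpq with ⟨h1, h2⟩ | ⟨h1, h2⟩ <;> subst h1 <;> subst h2 <;> push_cast at * <;> linarith
      · have e3 : K₂ = eps s.2.2 + KL := by omega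
        rw [hrem ξ hξ, hg ξ hξ, hr' ξ hξ, kap_zpow, e3, e1, zpow_add₀ hξ.ne', zpow_add₀ hξ.ne',
          zpow_add₀ hξ.ne']
        ring
  · have hd : s.1 ≠ s.2.1 := hdif
    have hu : ¬ Unif s := fun h => hd h.1
    have hy1 : y.1 = false := hy
    obtain ⟨n, d, p, q, p', q', K, hn, hdd, hpq, hsg, hdat⟩ := datT hLt (true, T) s rfl hst hd
    have hp1 := hpath
    rw [hL] at hp1
    obtain ⟨F₂, p₂, q₂, K₂, hF₂, hs₂, hr⟩ := (hCe y L' s hp1).1 hy1 hd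
    rw [← hL] at hs₂
    have hr' : ∀ ξ : ℝ, 0 < ξ → rho (tr3 ξ L).1 1 0 = ξ ^ K₂ * ev ξ F₂ := by
      rw [hL]
      exact hr
    have hrem : ∀ ξ : ℝ, 0 < ξ → gg (tr3 ξ (L ++ [(true, T)])) =
        ξ ^ K * (ev ξ n * gg (tr3 ξ L) + kap s.1 ξ * ev ξ d * rho (tr3 ξ L).1 1 0) :=
      fun ξ hξ => (hRem L T ξ (ξ ^ K) (ev ξ n) (kap s.1 ξ * ev ξ d) (hdat ξ hξ).1 (hdat ξ hξ).2.1
        (hdat ξ hξ).2.2).1
    have hsig : sigL (L ++ [(true, T)]) = sigL L + ((faces T : ℤ) - positive T + 1) := by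
      rw [sig_app]
      simp
    rcases hG with hG | ⟨F₁, p₁, q₁, K₁, hF₁, hs₁, hg⟩
    · refine good1 hFM _ d F₂ p' q' p₂ q₂ (K + eps s.1 + K₂) hdd hF₂ ?_ fun ξ hξ => ?_
      · rw [hsig]
        have hsg' : (p' : ℤ) - q' = (faces T : ℤ) - positive T := hsg
        linarith
      · have h0 : gg (tr3 ξ L) = 0 := by
          rw [hL] at hG ⊢
          have hL' : L' = [] := by
            simpa using hG
          rw [hL']
          exact gg_one ξ y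
        rw [hrem ξ hξ, h0, hr' ξ hξ, kap_zpow, zpow_add₀ hξ.ne', zpow_add₀ hξ.ne']
        ring
    · obtain ⟨KL, hKL⟩ := hSym L s hpath hu
      have e1 : K₁ = KL := expo hP (fun ξ => gg (tr3 ξ L)) F₁ p₁ q₁ K₁ KL hF₁ hg
        fun ξ hξ => (hKL ξ hξ).1
      have e2 : eps s.1 + K₂ = KL := by
        refine expo hP (fun ξ => kap s.1 ξ * rho (tr3 ξ L).1 1 0) F₂ p₂ q₂ _ KL hF₂
          (fun ξ hξ => ?_) fun ξ hξ => ?_
        · rw [hr' ξ hξ, kap_zpow, zpow_add₀ hξ.ne']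
          ring
        · rw [← (hKL ξ hξ).2.1 hd, kap_inv]
      refine good2 hFA hFM _ n d F₁ F₂ p q p₁ q₁ p' q' p₂ q₂ (K + KL) hn hF₁ hdd hF₂
        ?_ ?_ fun ξ hξ => ?_
      · rw [hsig]
        have hsg' : (p' : ℤ) - q' = (faces T : ℤ) - positive T := hsg
        rcases hpq with ⟨h1, h2⟩ | ⟨h1, h2⟩ <;> subst h1 <;> subst h2 <;> push_cast at * <;> linarith
      · rw [hsig]
        have hsg' : (p' : ℤ) - q' = (faces T : ℤ) - positive T := hsg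
        linarith
      · have e4 : ξ ^ KL = ξ ^ eps s.1 * ξ ^ K₂ := by rw [← e2, zpow_add₀ hξ.ne']
        rw [hrem ξ hξ, hg ξ hξ, hr' ξ hξ, kap_zpow, e1, zpow_add₀ hξ.ne', e4]
        ring

end Pool.Agent.HMS
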