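import Pool.Agent.HMS.Spec

/-!
# HMS, module CRem: removing a letter of pattern c
-/

set_option autoImplicit false

namespace Pool.Agent.HMS

open Polynomial Matrix Pool.Agent.HMA Pool.Agent.HMT

namespace CRemAux

theorem trT (m a b : ℝ) (M : Matrix (Fin 3) (Fin 3) ℝ) : ((rg true m a b).1 * M).trace =
    m * M 0 0 - a * M 1 0 + (m - b) * M 0 1 + (b - a) * M 1 1 + (m - a) * M 2 2 := by
  simp only [rg, if_true, Matrix.trace_fin_three, Matrix.mul_apply, Fin.sum_univ_three]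
  simp
  ring

theorem trF (m a b : ℝ) (M : Matrix (Fin 3) (Fin 3) ℝ) : ((rg false m a b).1 * M).trace =
    a * M 0 0 + (a - b) * M 1 1 + b * M 2 1 + (a - m) * M 1 2 + m * M 2 2 := by
  simp only [rg, Bool.false_eq_true, if_false, Matrix.trace_fin_three, Matrix.mul_apply,
    Fin.sum_univ_three]
  simp
  ring

theorem last (h : S_Tt) (L : List Ltr) (x : Ltr) (ξ : ℝ) :
    tr3 ξ (L ++ [x]) = lt3 ξ x * tr3 ξ L := by
  rw [h.1 ξ L [x]]
  have e : tr3 ξ [x] = 1 * lt3 ξ x := rfl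
  rw [e, one_mul]

end CRemAux

theorem tCRem (hT : S_Tt) : S_CRem := by
  intro L S ξ c n e hm ha hb
  have hr := hT.2.2.1 ξ L
  have r0 := hr 0
  have r1 := hr 1
  have r2 := hr 2
  have tr : (tr3 ξ L).1.trace = (tr3 ξ L).1 0 0 + (tr3 ξ L).1 1 1 + (tr3 ξ L).1 2 2 :=
    Matrix.trace_fin_three _
  constructor
  · rw [CRemAux.last hT]
    have e1 : (lt3 ξ (true, S) * tr3 ξ L).1 = (rg true (mT S ξ) (aT S ξ) (bT S ξ)).1 * (tr3 ξ L).1 := rfl
    have e2 : (lt3 ξ (true, S) * tr3 ξ L).2.1 = (mT S ξ - aT S ξ) * (tr3 ξ L).2.1 := rfl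
    have e3 : (lt3 ξ (true, S) * tr3 ξ L).2.2 = bT S ξ * (tr3 ξ L).2.2 := rfl
    have e4 : rho (tr3 ξ L).1 1 0 = (tr3 ξ L).1 1 2 - (tr3 ξ L).1 0 2 := rfl
    unfold gg
    rw [e1, e2, e3, e4, CRemAux.trT, tr, hm, ha, hb]
    linear_combination (c * e) * r0 - (c * e) * r1
  · rw [CRemAux.last hT]
    have e1 : (lt3 ξ (false, S) * tr3 ξ L).1 = (rg false (mT S ξ) (aT S ξ) (bT S ξ)).1 * (tr3 ξ L).1 :=
      rfl
    have e2 : (lt3 ξ (false, S) * tr3 ξ L).2.1 = aT S ξ * (tr3 ξ L).2.1 := rfl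
    have e3 : (lt3 ξ (false, S) * tr3 ξ L).2.2 = (mT S ξ - bT S ξ) * (tr3 ξ L).2.2 := rfl
    have e4 : rho (tr3 ξ L).1 0 1 = (tr3 ξ L).1 1 0 - (tr3 ξ L).1 2 0 := rfl
    unfold gg
    rw [e1, e2, e3, e4, CRemAux.trF, tr, hm, ha, hb]
    linear_combination (c * n) * r2 - (c * n) * r1

end Pool.Agent.HMS
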