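import Pool.Agent.HMS.Spec

/-!
# HMS, CV: the closures of a tangle (helper30)
-/

set_option autoImplicit false

namespace Pool.Agent.HMS

open Polynomial Matrix Pool.Agent.HMA Pool.Agent.HMT

namespace CVAux

theorem kap_mul (d : Bool) (ξ : ℝ) (hξ : 0 < ξ) (K : ℤ) (y : ℝ) :
    ξ ^ K * (kap d ξ * y) = ξ ^ (K + (if d then 1 else -1)) * y := by
  have h : kap d ξ = ξ ^ (if d then (1 : ℤ) else -1) := by
    cases d
    · simp [kap]
    · simp [kap]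
  rw [h, zpow_add₀ hξ.ne', mul_assoc]

theorem sub_kap (d : Bool) (ξ : ℝ) : ξ + ξ⁻¹ - kap d ξ = kap (!d) ξ := by
  cases d
  · simp [kap]
  · simp [kap]

theorem full_symm {p q : ℕ} {F : ℤ[X]} (h : Full q p F) : Full p q F := by
  obtain ⟨G, hG, hF⟩ := h
  refine ⟨G, ?_, ?_⟩
  · rw [add_comm p q]; exact hG
  · rw [hF, mul_comm]

theorem bne (d : Bool) : d ≠ !d := by cases d <;> decide

end CVAux

open CVAux in
theorem tCV : S_Dt → S_Cone2 → S_CV := by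
  intro hDt hCone2 T hT
  have hfull := hCone2.2.1
  obtain ⟨hcase, _⟩ := hDt T hT
  refine ⟨fun h1 h2 => ?_, fun h1 h2 => ?_⟩
  · rcases hcase with ⟨d, a1, a2, a3, a4, _⟩ | ⟨d, a1, a2, a3, a4, hA⟩ | ⟨o, a1, a2, a3, a4, hC⟩
    · exfalso
      rw [a1, a2] at h1
      exact bne d h1
    · obtain ⟨x, p, q, K, hx, hpq, hv⟩ := hA
      refine ⟨x.1, p, q, K + (if d then 1 else -1), full_symm (hfull q p x hx), hpq,
        fun ξ hξ => ?_⟩
      rw [(hv ξ hξ).2.2, kap_mul d ξ hξ]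
    · obtain ⟨n, d, p, q, p', q', K, hn, hd, hrel, hpq, hv⟩ := hC
      refine ⟨n, p, q, K, hn, ?_, fun ξ hξ => (hv ξ hξ).2.2⟩
      rcases hrel with ⟨e1, e2⟩ | ⟨e1, e2⟩
      · rw [e1, e2]; push_cast; linarith
      · rw [e1, e2] at hpq; push_cast at hpq; linarith
  · rcases hcase with ⟨d, a1, a2, a3, a4, hB⟩ | ⟨d, a1, a2, a3, a4, _⟩ | ⟨o, a1, a2, a3, a4, hC⟩
    · obtain ⟨x, p, q, K, hx, hpq, hv⟩ := hB
      refine ⟨x.1, p, q, K + (if (!d) then 1 else -1), hfull p q x hx, hpq, fun ξ hξ => ?_⟩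
      rw [(hv ξ hξ).1, (hv ξ hξ).2.2, ← kap_mul (!d) ξ hξ, ← sub_kap]
      ring
    · exfalso
      rw [a1, a3] at h1
      exact bne d h1
    · obtain ⟨n, d, p, q, p', q', K, hn, hd, hrel, hpq, hv⟩ := hC
      refine ⟨d, p', q', K + (if o then 1 else -1), hd, hpq, fun ξ hξ => ?_⟩
      rw [(hv ξ hξ).1, (hv ξ hξ).2.2, ← kap_mul o ξ hξ]
      ring

end Pool.Agent.HMS
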