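import Pool.Agent.HMS.Spec

/-!
# HMS, Calm: words in which the odd strand passes at most once from left to right

If not all strands have the same direction, one of the three strands at a level runs against the two
others. `off s` is `1` if it is the right one, `-1` if it is the left one, `0` if it is the middle one (or if all
directions are equal). `Calm W`: going once around the closed word and looking only at the levels between a
tangle in the columns 1, 2 and a tangle in the columns 2, 3, one does not find the values `a, -a, a, -a`
(`a ≠ 0`) in this order. So the odd strand goes at most once from the left to the right and back.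
-/

set_option autoImplicit false

namespace Pool.Agent.HMS

open Polynomial Matrix Pool.Agent.HMA Pool.Agent.HMT

/-- The strand which runs against the two others is the right one (`1`), the left one (`-1`), the middle
one or does not exist (`0`). -/
def off (s : St) : ℤ := (if s.1 = s.2.1 then 1 else 0) - (if s.2.1 = s.2.2 then 1 else 0)

/-- The last tangle is in the columns 1, 2. -/
def lastA : Wd → Bool
  | .base _ _ => false
  | .addA _ _ => true
  | .addB _ _ => false

/-- The directions of the strands at the levels between two tangles in different columns, from the top to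
the bottom. -/
def chg : Wd → List St
  | .base S T => [(!S.und S.sw, S.ovr S.se, T.ovr T.nw)]
  | .addA W _ => if lastA W then chg W else chg W ++ [botS W]
  | .addB W _ => if lastA W then chg W ++ [botS W] else chg W

/-- The values `a, -a, a, -a` do not occur in this order. -/
def NoZig (l : List ℤ) : Prop := ∀ a : ℤ, a ≠ 0 → ¬ [a, -a, a, -a].Sublist l

/-- The odd strand passes at most once from the left to the right. (The top level, which is also the
bottom level, is between two tangles in different columns if the last tangle is in the columns 2, 3.) -/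
def Calm (W : Wd) : Prop :=
  NoZig (((if lastA W then [] else [topS W]) ++ chg W).map off)

/-! ## Lists -/

theorem NoZig.mono {l l' : List ℤ} (h : NoZig l) (hl : l'.Sublist l) : NoZig l' :=
  fun a ha hs => h a ha (hs.trans hl)

theorem NoZig.rot {l l' : List ℤ} (h : NoZig (l ++ l')) : NoZig (l' ++ l) := by
  intro a ha hs
  rw [List.sublist_append_iff] at hs
  obtain ⟨u, v, huv, hu, hv⟩ := hs
  have h1 : (v ++ u).Sublist (l ++ l') := List.Sublist.append hv hu
  have h2 := h a ha
  have h3 := h (-a) (neg_ne_zero.2 ha)
  rw [neg_neg] at h3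
  rcases u with _ | ⟨u0, _ | ⟨u1, _ | ⟨u2, _ | ⟨u3, _ | ⟨u4, u⟩⟩⟩⟩⟩ <;>
    simp only [List.nil_append, List.cons_append, List.cons.injEq, List.nil_eq, and_false,
      List.cons_ne_nil] at huv
  · subst huv
    exact h2 (by simpa using h1)
  · obtain ⟨rfl, rfl⟩ := huv
    exact h3 h1
  · obtain ⟨rfl, rfl, rfl⟩ := huv
    exact h2 h1
  · obtain ⟨rfl, rfl, rfl, rfl⟩ := huv
    exact h3 h1
  · obtain ⟨rfl, rfl, rfl, rfl, rfl⟩ := huv
    exact h2 h1

theorem NoZig.zero {l : List ℤ} (h : ∀ x ∈ l, x = 0) : NoZig l :=
  fun a ha hs => ha (h a (hs.subset (List.mem_cons_self)))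

/-! ## The states of a path -/

/-- The state below a letter. -/
def nx (x : Ltr) (s : St) : St :=
  if x.1 then (!x.2.und x.2.sw, x.2.ovr x.2.se, s.2.2) else (s.1, x.2.ovr x.2.se, x.2.und x.2.ne)

/-- The states above the letters. -/
def stL : List Ltr → St → List St
  | [], _ => []
  | x :: L, s => s :: stL L (nx x s)

/-- The states above the letters which are in another column than the letter before (`c` is the column of
the letter before the word). -/
def stP : Bool → List Ltr → St → List St
  | _, [], _ => []
  | c, x :: L, s => (if c = x.1 then [] else [s]) ++ stP x.1 L (nx x s)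

/-- The column of the last letter. -/
def lastC : Bool → List Ltr → Bool
  | c, [] => c
  | _, x :: L => lastC x.1 L

theorem Stp.nx {x : Ltr} {s s' : St} (h : Stp x s s') : s' = nx x s := by
  obtain ⟨c, T⟩ := x
  obtain ⟨p, q, r⟩ := s
  obtain ⟨p', q', r'⟩ := s'
  obtain ⟨-, h⟩ := h
  cases c
  · simp only [Bool.false_eq_true, if_false] at h
    obtain ⟨-, -, h1, h2, h3⟩ := h
    simp only [HMS.nx, Bool.false_eq_true, if_false, Prod.mk.injEq]
    exact ⟨h3, h1, h2⟩
  · simp only [if_true] at h
    obtain ⟨-, -, h1, h2, h3⟩ := h
    simp only [HMS.nx, if_true, Prod.mk.injEq]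
    exact ⟨h1, h2, h3⟩

theorem stL_append : ∀ (L L' : List Ltr) (s r : St), Pth L s r →
    stL (L ++ L') s = stL L s ++ stL L' r
  | [], L', s, r, h => by
    have h' : s = r := h
    subst h'
    rfl
  | x :: L, L', s, r, h => by
    obtain ⟨t, hst, hp⟩ := h
    have ht := hst.nx
    subst ht
    have := stL_append L L' _ r hp
    simp only [List.cons_append, stL, this]

theorem stP_append : ∀ (c : Bool) (L L' : List Ltr) (s r : St), Pth L s r →
    stP c (L ++ L') s = stP c L s ++ stP (lastC c L) L' r
  | c, [], L', s, r, h => by
    have h' : s = r := h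
    subst h'
    rfl
  | c, x :: L, L', s, r, h => by
    obtain ⟨t, hst, hp⟩ := h
    have ht := hst.nx
    subst ht
    have := stP_append x.1 L L' _ r hp
    simp only [List.cons_append, stP, lastC, this, List.append_assoc]

theorem lastC_append : ∀ (c : Bool) (L L' : List Ltr), lastC c (L ++ L') = lastC (lastC c L) L'
  | _, [], _ => rfl
  | _, x :: L, L' => lastC_append x.1 L L'

theorem lastC_congr (c c' : Bool) : ∀ L : List Ltr, L ≠ [] → lastC c L = lastC c' L
  | [], h => absurd rfl h
  | _ :: _, _ => rfl

theorem lastC_alt : ∀ (n : ℕ) (c : Bool) (L : List Ltr), L.length = 2 * n → altB c L →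
    lastC (!c) L = !c
  | 0, c, L, hn, _ => by
    rw [Nat.mul_zero] at hn
    rw [List.length_eq_zero_iff.1 hn]
    rfl
  | n + 1, c, L, hn, ha => by
    rcases L with _ | ⟨x, _ | ⟨y, L⟩⟩
    · rfl
    · simp only [List.length_cons, List.length_nil] at hn
      omega
    · obtain ⟨h1, h2, h3⟩ := ha
      rw [Bool.not_not] at h3
      simp only [lastC]
      rw [h2]
      refine lastC_alt n c L ?_ h3
      simp only [List.length_cons] at hn
      omega

theorem stP_sub : ∀ (c : Bool) (L : List Ltr) (s : St), (stP c L s).Sublist (stL L s)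
  | _, [], _ => List.Sublist.refl _
  | c, x :: L, s => by
    simp only [stP, stL]
    split
    · exact (stP_sub x.1 L _).cons _
    · exact (stP_sub x.1 L _).cons_cons _

theorem stP_alt : ∀ (c : Bool) (L : List Ltr) (s : St), altB c L → stP (!c) L s = stL L s
  | _, [], _, _ => rfl
  | c, x :: L, s, h => by
    obtain ⟨h1, h2⟩ := h
    have h3 := stP_alt (!c) L (nx x s) h2
    rw [Bool.not_not] at h3
    subst h1
    simp only [stP, stL, h3]
    rw [if_neg (by simp)]
    rfl

/-- The list version of `Calm`. -/
def CalmL (L : List Ltr) (s : St) : Prop := NoZig ((stP (lastC true L) L s).map off)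

theorem CalmL.rot {L L' : List Ltr} {s r : St} (hp : Pth L s r) (hp' : Pth L' r s)
    (h : CalmL (L ++ L') s) : CalmL (L' ++ L) r := by
  by_cases hL : L = []
  · subst hL
    have h' : s = r := hp
    subst h'
    simpa using h
  by_cases hL' : L' = []
  · subst hL'
    have h' : r = s := hp'
    subst h'
    simpa using h
  unfold CalmL at *
  rw [stP_append _ L L' s r hp, List.map_append, lastC_append, lastC_congr _ true L' hL',
    lastC_congr _ true L hL] at h
  rw [stP_append _ L' L r s hp', List.map_append, lastC_append, lastC_congr _ true L hL,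
    lastC_congr _ true L' hL']
  exact h.rot

theorem CalmL.mrg {L : List Ltr} {c : Bool} {S T U : Tangle} {s r : St} (hp : Pth L s r)
    (h : CalmL (L ++ [(c, S), (c, T)]) s) : CalmL (L ++ [(c, U)]) s := by
  unfold CalmL at *
  rw [stP_append _ L _ s r hp, lastC_append] at h
  rw [stP_append _ L _ s r hp, lastC_append]
  have e : ∀ b : Bool, stP b [(c, S), (c, T)] r = stP b [(c, U)] r := by
    intro b
    cases b <;> cases c <;> rfl
  rw [e] at h
  exact h

/-- Alternating words of even length: all levels count. -/
theorem CalmL.alt {L : List Ltr} {s : St} (ha : altB true L) (he : Even L.length)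
    (h : CalmL L s) : NoZig ((stL L s).map off) := by
  obtain ⟨n, hn⟩ := he
  by_cases hL : L = []
  · subst hL
    exact h
  · unfold CalmL at h
    rw [lastC_congr true (!true) L hL, lastC_alt n true L (by omega) ha, stP_alt true L s ha] at h
    exact h

theorem CalmL.rem {L L' : List Ltr} {x : Ltr} {s q : St} (hp : Pth L s q) (hx : Stp x q q)
    (hp' : Pth L' q s) (ha : altB true (L ++ x :: L')) (he : Even (L ++ x :: L').length)
    (h : CalmL (L ++ x :: L') s) : CalmL (L' ++ L) q := by
  have h1 := h.alt ha he
  have e : stL (x :: L') q = q :: stL L' q := by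
    have := hx.nx
    simp only [stL]
    rw [← this]
  rw [stL_append L _ s q hp, List.map_append, e] at h1
  have h2 : NoZig ((stL (L' ++ L) q).map off) := by
    rw [stL_append L' L q s hp', List.map_append]
    refine NoZig.rot (h1.mono (List.Sublist.append (List.Sublist.refl _) ?_))
    rw [List.map_cons]
    exact List.sublist_cons_self _ _
  exact h2.mono ((stP_sub _ _ _).map off)

/-! ## Parallel letters -/

/-- The states above the first `n` letters of an alternating word of parallel letters. -/
def psts : Bool → St → ℕ → List St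
  | _, _, 0 => []
  | c, s, n + 1 => s :: psts (!c) (swp c s) n

theorem psts_sublist : ∀ (n : ℕ) (L : List Ltr) (c : Bool) (s s' : St), n ≤ L.length →
    altB c L → PPth L s s' → (psts c s n).Sublist (stL L s)
  | 0, L, c, s, s', _, _, _ => List.nil_sublist _
  | n + 1, [], c, s, s', hn, _, _ => by simp at hn
  | n + 1, x :: L, c, s, s', hn, ha, hp => by
    obtain ⟨h1, h2⟩ := ha
    obtain ⟨h3, h4⟩ := hp
    have h5 := h3.nx
    subst h1
    simp only [psts, stL]
    rw [← h5]
    refine List.Sublist.cons_cons _ ?_
    refine psts_sublist n L _ _ s' ?_ h2 h4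
    rw [List.length_cons] at hn
    omega

theorem psts_zig : ∀ s : St, (s.1 = s.2.1 ∧ s.2.1 = s.2.2) ∨
    [(1 : ℤ), -1, 1, -1].Sublist ((psts true s 12).map off) ∨
    [(-1 : ℤ), 1, -1, 1].Sublist ((psts true s 12).map off) := by
  decide

theorem CalmL.length {L : List Ltr} {s s' : St} (ha : altB true L) (he : Even L.length)
    (hp : PPth L s s') (hs : ¬ Unif s) (h : CalmL L s) : L.length ≤ 11 := by
  by_contra hl
  have h1 := (psts_sublist 12 L true s s' (by omega) ha hp).map off
  have h0 := h.alt ha he
  rcases psts_zig s with h2 | h2 | h2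
  · exact hs h2
  · exact h0 1 one_ne_zero (h2.trans h1)
  · exact h0 (-1) (by norm_num) (by rw [neg_neg]; exact h2.trans h1)

/-! ## Words -/

theorem lastC_lst (c : Bool) : ∀ W : Wd, lastC c (lst W) = lastA W
  | .base _ _ => rfl
  | .addA W _ => by
    simp only [lst, lastC_append, lastC, lastA]
  | .addB W _ => by
    simp only [lst, lastC_append, lastC, lastA]

theorem chg_eq (hp : ∀ W : Wd, Ori W → Pth (lst W) (topS W) (botS W)) (c : Bool) :
    ∀ W : Wd, Ori W → stP c (lst W) (topS W) = (if c then [] else [topS W]) ++ chg W
  | .base S T, _ => by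
    cases c <;> rfl
  | .addA W T, hO => by
    have h1 := chg_eq hp c W hO.1
    have h2 := hp W hO.1
    have e : topS (.addA W T) = topS W := rfl
    simp only [chg, lst]
    rw [e, stP_append c (lst W) _ _ _ h2, h1, lastC_lst, List.append_assoc]
    simp only [stP, List.append_nil]
    cases lastA W <;> simp
  | .addB W T, hO => by
    have h1 := chg_eq hp c W hO.1
    have h2 := hp W hO.1
    have e : topS (.addB W T) = topS W := rfl
    simp only [chg, lst]
    rw [e, stP_append c (lst W) _ _ _ h2, h1, lastC_lst, List.append_assoc]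
    simp only [stP, List.append_nil]
    cases lastA W <;> simp

theorem Calm.list (hp : ∀ W : Wd, Ori W → Pth (lst W) (topS W) (botS W)) {W : Wd} (hO : Ori W) :
    Calm W ↔ CalmL (lst W) (topS W) := by
  unfold Calm CalmL
  rw [lastC_lst, chg_eq hp _ W hO]

/-- All strands in the same direction. -/
theorem stL_unif (hU : S_UnifP) : ∀ (L : List Ltr) (s s' : St), Pth L s s' → Unif s →
    ∀ r ∈ stL L s, Unif r
  | [], _, _, _, _, r, hr => absurd hr List.not_mem_nil
  | x :: L, s, s', hp, hs, r, hr => by
    obtain ⟨t, hst, hp'⟩ := hp
    have ht := hst.nx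
    subst ht
    rcases List.mem_cons.1 hr with rfl | hr
    · exact hs
    · exact stL_unif hU L _ s' hp' ((hU [x] s (HMS.nx x s) ⟨_, hst, rfl⟩).1 hs) r hr

theorem off_unif {s : St} (h : Unif s) : off s = 0 := by
  unfold off
  rw [if_pos h.1, if_pos h.2, sub_self]

theorem calm_unif (hU : S_UnifP) (hp : ∀ W : Wd, Ori W → Pth (lst W) (topS W) (botS W)) (W : Wd)
    (hO : Ori W) (h : Unif (topS W)) : Calm W := by
  rw [Calm.list hp hO]
  refine NoZig.zero fun x hx => ?_
  obtain ⟨r, hr, rfl⟩ := List.mem_map.1 hx
  exact off_unif (stL_unif hU _ _ _ (hp W hO) h r ((stP_sub _ _ _).subset hr))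

end Pool.Agent.HMS
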