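import Pool.Agent.HMS.Spec

/-!
# HMS, Spl: splitting a path at a letter of pattern c
-/

set_option autoImplicit false

namespace Pool.Agent.HMS

open Polynomial Matrix Pool.Agent.HMA Pool.Agent.HMT

namespace SplAux

/-- A step is a step to `swp x.1 s` or it does not change the state. -/
theorem step (h : S_Lt) (x : Ltr) (s s' : St) (hs : Stp x s s') :
    s' = swp x.1 s ∨ (s' = s ∧ Dif x.1 s) := by
  obtain ⟨h1, h2⟩ := h x s s' hs
  rcases hx : x.1 with _ | _
  · obtain ⟨h3, h4⟩ := h2 hx
    by_cases he : s.2.1 = s.2.2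
    · left
      rw [(h3 he).1]
      obtain ⟨a, b, c⟩ := s
      have he' : b = c := he
      subst he'
      rfl
    · rcases h4 he with h5 | h5
      · exact Or.inl h5.1
      · exact Or.inr ⟨h5.1, he⟩
  · obtain ⟨h3, h4⟩ := h1 hx
    by_cases he : s.1 = s.2.1
    · left
      rw [(h3 he).1]
      obtain ⟨a, b, c⟩ := s
      have he' : a = b := he
      subst he'
      rfl
    · rcases h4 he with h5 | h5
      · exact Or.inl h5.1
      · exact Or.inr ⟨h5.1, he⟩

end SplAux

open SplAux

theorem tSpl : S_Lt → S_Spl := by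
  intro h L
  induction L with
  | nil => intro s s' hp; exact Or.inl hp
  | cons x L ih =>
    intro s s' hp
    obtain ⟨s'', hst, hp'⟩ := hp
    rcases step h x s s'' hst with h1 | ⟨h1, h2⟩
    · subst h1
      rcases ih _ _ hp' with h3 | ⟨l₁, y, l₂, r, e, h4, h5, h6, h7⟩
      · exact Or.inl ⟨hst, h3⟩
      · exact Or.inr ⟨x :: l₁, y, l₂, r, by rw [e]; rfl, ⟨_, hst, h4⟩, h5, h6, h7⟩
    · subst h1
      exact Or.inr ⟨[], x, L, s'', rfl, rfl, hst, h2, hp'⟩

end Pool.Agent.HMS
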