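import Pool.Agent.HMS.Calm
import Pool.Agent.HMS.Spl

/-!
# HMS, CalmNum: all words with at most 11 tangles are calm
-/

set_option autoImplicit false

namespace Pool.Agent.HMS

open Polynomial Matrix Pool.Agent.HMA Pool.Agent.HMT

namespace CalmNumAux

/-- `± 1`. -/
def sg (t : Bool) : ℤ := if t then 1 else -1

/-- Alternating signs, beginning with `sg t`. -/
def alt : Bool → ℕ → List ℤ
  | _, 0 => []
  | t, k + 1 => sg t :: alt (!t) k

/-- The sign after `k` changes. -/
def flp : Bool → ℕ → Bool
  | t, 0 => t
  | t, k + 1 => flp (!t) k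

/-- The potential: `t` is the next sign, `c` the column of the letter before, `o` the value of `off`. -/
def bet (t c : Bool) (o : ℤ) : ℕ :=
  if c = t then (if o = sg t then 3 else 1) else (if o = -sg t then 0 else 2)

theorem step1 : ∀ (c d t : Bool) (s : St), ¬ (s.1 = s.2.1 ∧ s.2.1 = s.2.2) →
    bet t d (off (swp d s)) ≤ bet t c (off s) + 1 ∧
    bet t d (off s) ≤ bet t c (off s) + 1 ∧
    (c ≠ d → off s = sg t → 3 + bet (!t) d (off (swp d s)) ≤ bet t c (off s) + 1 ∧
      3 + bet (!t) d (off s) ≤ bet t c (off s) + 1) := by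
  decide

theorem step2 (h : S_Lt) {x : Ltr} {s s' : St} (hs : Stp x s s') (hu : ¬ Unif s) (c t : Bool) :
    bet t x.1 (off s') ≤ bet t c (off s) + 1 ∧
    (c ≠ x.1 → off s = sg t → 3 + bet (!t) x.1 (off s') ≤ bet t c (off s) + 1) := by
  obtain ⟨h1, h2, h3⟩ := step1 c x.1 t s hu
  rcases SplAux.step h x s s' hs with h4 | ⟨h4, -⟩
  · rw [h4]
    exact ⟨h1, fun h5 h6 => (h3 h5 h6).1⟩
  · rw [h4]
    exact ⟨h2, fun h5 h6 => (h3 h5 h6).2⟩

theorem main (h : S_Lt) (hU : S_UnifP) : ∀ (L : List Ltr) (k : ℕ) (t c : Bool) (s s' : St),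
    Pth L s s' → ¬ Unif s → (alt t k).Sublist ((stP c L s).map off) →
    3 * k + bet (flp t k) (lastC c L) (off s') ≤ bet t c (off s) + L.length
  | [], k, t, c, s, s', hp, _, hs => by
    have hp' : s = s' := hp
    subst hp'
    rcases k with _ | k
    · simp [flp, lastC]
    · exact absurd hs (by simp [alt, stP])
  | x :: L, k, t, c, s, s', hp, hu, hs => by
    obtain ⟨r, hst, hp'⟩ := hp
    have hr := hst.nx
    have hu' : ¬ Unif r := fun h' => hu ((hU [x] s r ⟨r, hst, rfl⟩).2 h')
    obtain ⟨h1, h2⟩ := step2 h hst hu c t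
    simp only [stP, lastC, List.length_cons] at hs ⊢
    rw [← hr] at hs
    by_cases hc : c = x.1
    · rw [if_pos hc, List.nil_append] at hs
      have := main h hU L k t x.1 r s' hp' hu' hs
      omega
    · rw [if_neg hc, List.singleton_append, List.map_cons] at hs
      rcases k with _ | k
      · have := main h hU L 0 t x.1 r s' hp' hu' (List.nil_sublist _)
        omega
      · simp only [alt] at hs
        rcases List.sublist_cons_iff.1 hs with h3 | ⟨l, h3, h4⟩
        · have := main h hU L (k + 1) t x.1 r s' hp' hu' h3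
          omega
        · obtain ⟨h5, h6⟩ := List.cons.inj h3
          have := main h hU L k (!t) x.1 r s' hp' hu' (by rw [h6]; exact h4)
          have h7 := h2 hc h5.symm
          simp only [flp]
          omega

theorem off_val (s : St) : off s = 0 ∨ off s = sg true ∨ off s = sg false := by
  revert s
  decide

end CalmNumAux

open CalmNumAux

theorem calmL_length (h : S_Lt) (hU : S_UnifP) (L : List Ltr) (s : St) (hp : Pth L s s)
    (hu : ¬ Unif s) (hl : L.length ≤ 11) : CalmL L s := by
  intro a ha hs
  have key : ∀ t : Bool, ¬ (alt t 4).Sublist ((stP (lastC true L) L s).map off) := by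
    intro t h1
    have h2 := main h hU L 4 t (lastC true L) s s hp hu h1
    have h3 : flp t 4 = t := by cases t <;> rfl
    have h4 : lastC (lastC true L) L = lastC true L := by
      rcases L with _ | ⟨x, L⟩ <;> rfl
    rw [h3, h4] at h2
    omega
  have h5 : a ∈ (stP (lastC true L) L s).map off := hs.subset List.mem_cons_self
  obtain ⟨r, -, hr⟩ := List.mem_map.1 h5
  rcases off_val r with h6 | h6 | h6
  · exact ha (hr.symm.trans h6)
  · rw [hr] at h6
    subst h6
    exact key true hs
  · rw [hr] at h6
    subst h6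
    exact key false hs

/-- All words with at most 11 tangles are calm. -/
theorem calm_num (h : S_Lt) (hU : S_UnifP) (hP : S_PW) (W : Wd) (hO : Ori W) (hC : Clo3 W)
    (hn : num W ≤ 11) : Calm W := by
  have hp : ∀ W : Wd, Ori W → Pth (lst W) (topS W) (botS W) := fun W => (hP W).1
  by_cases hu : Unif (topS W)
  · exact calm_unif hU hp W hO hu
  · rw [Calm.list hp hO]
    refine calmL_length h hU _ _ ?_ hu ?_
    · have h1 := hp W hO
      rwa [← (hP W).2.1 hC] at h1
    · rw [(hP W).2.2.2.1]
      exact hn

end Pool.Agent.HMS
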