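import Pool.Agent.HMS.Spec

/-!
# HMS, module Ce: the second term of `S_CRem` is a full polynomial
-/

set_option autoImplicit false

namespace Pool.Agent.HMS

open Polynomial Matrix Pool.Agent.HMA Pool.Agent.HMT

theorem tCe : S_Lt → S_CV → S_QO → S_Qm → S_Ce := by
  intro _ hCV hQO hQm y L' s hP
  obtain ⟨c, T⟩ := y
  refine ⟨fun hc hs => ?_, fun hc hs => ?_⟩
  · simp only at hc
    subst hc
    have hq := ((hQm T L' s s 1 one_pos).1 hP hs).1
    obtain ⟨ho, h1, h2, h3, h4⟩ := hq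
    have e1 : (Qo T L').ovr (Qo T L').nw = (Qo T L').und (Qo T L').ne := by rw [h1, h4]
    have e2 : (Qo T L').und (Qo T L').sw = (Qo T L').ovr (Qo T L').se := by
      rw [h2, h3]
      revert hs
      cases s.1 <;> cases s.2.1 <;> simp
    obtain ⟨F, p, q, K, hF, hpq, hb⟩ := (hCV (Qo T L') ho).1 e1 e2
    refine ⟨F, p, q, K, hF, ?_, fun ξ hξ => ?_⟩
    · rw [hpq, hQO.2 L' T]
      simp [sigL]
    · rw [← hb ξ hξ, ((hQm T L' s s ξ hξ).1 hP hs).2.2.2]
      simp [rho]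
  · simp only at hc
    subst hc
    have hq := ((hQm T L' s s 1 one_pos).2 hP hs).1
    obtain ⟨ho, h1, h2, h3, h4⟩ := hq
    have e1 : (Qo T L').ovr (Qo T L').nw = !(Qo T L').und (Qo T L').sw := by
      rw [h1, h2, Bool.not_not]
    have e2 : (Qo T L').ovr (Qo T L').se = !(Qo T L').und (Qo T L').ne := by
      rw [h3, h4]
      revert hs
      cases s.2.1 <;> cases s.2.2 <;> simp
    obtain ⟨F, p, q, K, hF, hpq, hb⟩ := (hCV (Qo T L') ho).2 e1 e2
    refine ⟨F, p, q, K, hF, ?_, fun ξ hξ => ?_⟩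
    · rw [hpq, hQO.2 L' T]
      simp only [sigL, List.map_cons, List.sum_cons, if_true]
      ring
    · rw [← hb ξ hξ, ((hQm T L' s s ξ hξ).2 hP hs).2.1, ((hQm T L' s s ξ hξ).2 hP hs).2.2.2]
      simp [rho]

end Pool.Agent.HMS
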