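import Pool.Agent.HMS.Spec

/-!
# HMS, ClsG: an identity for 3 x 3 matrices
-/

set_option autoImplicit false

namespace Pool.Agent.HMS

open Polynomial Matrix Pool.Agent.HMA Pool.Agent.HMT

/-- Module `ClsG`. -/
theorem tClsG : S_ClsG := by
  intro M n n' ℓ hn _ hrow hcol hdet
  have h0 := hrow 0
  have h1 := hrow 1
  have h2 := hrow 2
  have e0 := hcol 0
  have e2 := hcol 2
  rw [Fin.sum_univ_three] at e0 e2
  have m01 : M 0 1 = n - M 0 0 - M 0 2 := by linear_combination h0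
  have m11 : M 1 1 = n - M 1 0 - M 1 2 := by linear_combination h1
  have m21 : M 2 1 = n - M 2 0 - M 2 2 := by linear_combination h2
  rw [Matrix.det_fin_three, m01, m11, m21] at hdet
  have kdet : M 0 0 * (M 2 2 - M 1 2) - (M 1 0 * M 2 2 - M 1 2 * M 2 0) + M 0 2 * (M 1 0 - M 2 0) =
      n * n' := by
    apply mul_left_cancel₀ hn
    linear_combination hdet
  have k2 : ℓ 1 * (M 0 0 * (M 2 2 - M 1 2) - (M 1 0 * M 2 2 - M 1 2 * M 2 0) +
      M 0 2 * (M 1 0 - M 2 0)) = (ℓ 0 + ℓ 1 + ℓ 2) * (M 0 0 * M 2 2 - M 0 2 * M 2 0) -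
      n * ℓ 2 * (M 0 0 - M 2 0) - n * ℓ 0 * (M 2 2 - M 0 2) := by
    linear_combination (M 0 2 - M 2 2) * e0 + (M 2 0 - M 0 0) * e2
  have g : (Dl M - n * (M 0 0 + M 2 2) + n ^ 2) * (ℓ 0 + ℓ 1 + ℓ 2) =
      -(ℓ 1) * (n * M.trace - 2 * n ^ 2 - n * n') := by
    rw [Matrix.trace_fin_three]
    unfold Dl
    linear_combination -k2 + ℓ 1 * kdet + n * ℓ 1 * m11 - n * e0 - n * e2
  have g2 : Dl M / n - M 0 0 - M 2 2 + n = (Dl M - n * (M 0 0 + M 2 2) + n ^ 2) / n := by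
    field_simp
    ring
  rw [g2, div_mul_eq_mul_div, g]
  field_simp

end Pool.Agent.HMS
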