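import Pool.Agent.HMS.Spec

/-!
# HMS, ClsS: one minor of the closed diagram
-/

set_option autoImplicit false

namespace Pool.Agent.HMS

open Polynomial Matrix Pool.Agent.HMA Pool.Agent.HMT

namespace ClsSAux

/-- A solution of `F h = e_j w` gives an entry of the adjugate. -/
theorem adj_entry {m : Type*} [Fintype m] [DecidableEq m] (F : Matrix m m ℝ) (i j : m) (w : ℝ)
    (h : m → ℝ) (hF : F.mulVec h = Pi.single j w) : F.adjugate i j * w = F.det * h i := by
  have e1 : F.adjugate.mulVec (F.mulVec h) = F.det • h := by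
    rw [Matrix.mulVec_mulVec, Matrix.adjugate_mul, Matrix.smul_mulVec, Matrix.one_mulVec]
  rw [hF, Matrix.mulVec_single] at e1
  have e2 := congrFun e1 i
  simpa using e2

/-- The entry `i j` of the adjugate does not see the row `j`. -/
theorem adj_single {m : Type*} [Fintype m] [DecidableEq m] (D : Matrix m m ℝ) (i j : m) (w : ℝ) :
    (D + single j i w).adjugate i j = D.adjugate i j := by
  rw [Matrix.adjugate_apply, Matrix.adjugate_apply]
  congr 1
  ext a b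
  by_cases ha : a = j
  · subst ha
    simp
  · rw [Matrix.updateRow_ne ha, Matrix.updateRow_ne ha]
    simp [Ne.symm ha]

theorem single_mulVec_one {m : Type*} [Fintype m] [DecidableEq m] (i j : m) (w : ℝ) :
    (single i j w : Matrix m m ℝ).mulVec (fun _ => 1) = Pi.single i w := by
  ext a
  by_cases ha : a = i
  · subst ha
    simp [Matrix.mulVec, dotProduct, Matrix.single_apply]
  · simp [Matrix.mulVec, dotProduct, ha, Ne.symm ha]

/-- A scaled solution. -/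
theorem scale {m : Type*} [Fintype m] [DecidableEq m] (F : Matrix m m ℝ) (j : m) (w D : ℝ)
    (h : m → ℝ) (hD : D ≠ 0) (hF : F.mulVec h = Pi.single j (w * D)) :
    F.mulVec (D⁻¹ • h) = Pi.single j w := by
  rw [Matrix.mulVec_smul, hF, ← Pi.single_smul]
  congr 1
  simp only [smul_eq_mul]
  field_simp

end ClsSAux

/-- Module `ClsS`: one minor of the closed diagram. -/
theorem tClsS : S_Rk2 → S_Row1W → S_ClsS := by
  intro hRk hRow W ξ M n hI hR
  obtain ⟨hn, -, hD, -, -, -⟩ := hI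
  obtain ⟨hdet, hC⟩ := hR
  have hn0 : n ≠ 0 := hn.ne'
  have hD0 : Dl M ≠ 0 := hD.ne'
  -- the two solutions
  obtain ⟨g1, h1, p11, -, p13⟩ := hC ![M 2 2, 0, -M 2 0]
  obtain ⟨g3, h3, p31, -, p33⟩ := hC ![-M 0 2, 0, M 0 0]
  have x0 : M.mulVec ![M 2 2, 0, -M 2 0] 0 = Dl M := by
    simp [Matrix.mulVec, dotProduct, Fin.sum_univ_three, Dl]
    ring
  have x2 : M.mulVec ![M 2 2, 0, -M 2 0] 2 = 0 := by
    simp [Matrix.mulVec, dotProduct, Fin.sum_univ_three]
    ring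
  have y0 : M.mulVec ![-M 0 2, 0, M 0 0] 0 = 0 := by
    simp [Matrix.mulVec, dotProduct, Fin.sum_univ_three]
    ring
  have y2 : M.mulVec ![-M 0 2, 0, M 0 0] 2 = Dl M := by
    simp [Matrix.mulVec, dotProduct, Fin.sum_univ_three, Dl]
    ring
  rw [x0, x2] at h1
  rw [y0, y2] at h3
  have h1' : (fox3 (-(ξ ^ 2)) W).mulVec g1 =
      Pi.single W.b1 (-(wSW (-(ξ ^ 2)) (W.ovr W.b1)) * Dl M) := by
    rw [h1]
    simp
  have h3' : (fox3 (-(ξ ^ 2)) W).mulVec g3 =
      Pi.single W.b3 (-(wNE (-(ξ ^ 2)) (W.ovr W.b3)) * Dl M) := by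
    rw [h3]
    simp
  have k1 := ClsSAux.scale _ _ _ _ _ hD0 h1'
  have k3 := ClsSAux.scale _ _ _ _ _ hD0 h3'
  have hdetD := hRk W.Cr (fox3 (-(ξ ^ 2)) W) W.b1 W.b3 W.t1 W.t3 (wSW (-(ξ ^ 2)) (W.ovr W.b1))
    (wNE (-(ξ ^ 2)) (W.ovr W.b3)) _ _ k1 k3
  -- the sum of the rows
  have hsum : (fox3 (-(ξ ^ 2)) W + single W.b1 W.t1 (wSW (-(ξ ^ 2)) (W.ovr W.b1)) +
      single W.b3 W.t3 (wNE (-(ξ ^ 2)) (W.ovr W.b3))).mulVec (fun _ => 1) =
      Pi.single W.t2 (-(wNE (-(ξ ^ 2)) (W.ovr W.t2))) := by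
    rw [Matrix.add_mulVec, Matrix.add_mulVec, ClsSAux.single_mulVec_one,
      ClsSAux.single_mulVec_one, hRow ℝ (-(ξ ^ 2)) W, Pi.single_neg, Pi.single_neg, Pi.single_neg]
    abel
  have hadj := ClsSAux.adj_entry _ W.b2 W.t2 _ _ hsum
  have hfox : foxW (-(ξ ^ 2)) W = (fox3 (-(ξ ^ 2)) W +
      single W.b1 W.t1 (wSW (-(ξ ^ 2)) (W.ovr W.b1)) +
      single W.b3 W.t3 (wNE (-(ξ ^ 2)) (W.ovr W.b3))) +
      single W.t2 W.b2 (wNE (-(ξ ^ 2)) (W.ovr W.t2)) := by
    unfold foxW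
    abel
  rw [hfox, ClsSAux.adj_single, hadj, hdetD, mul_one]
  simp only [Pi.smul_apply, smul_eq_mul, p11, p13, p31, p33]
  have hdF : (fox3 (-(ξ ^ 2)) W).det = Dl M / n := by
    field_simp
    linear_combination hdet
  rw [hdF]
  simp only [Matrix.cons_val_zero, Matrix.cons_val]
  field_simp
  unfold Dl
  ring

end Pool.Agent.HMS
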