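import Pool.Agent.HMS.Spec

/-!
# HMS, module Cyc: rotation of the letters
-/

set_option autoImplicit false

namespace Pool.Agent.HMS

open Polynomial Matrix Pool.Agent.HMA Pool.Agent.HMT

theorem tCyc : S_Tt → S_Cyc := by
  intro h L L' hG
  obtain ⟨F, p, q, K, hF, hs, hg⟩ := hG
  refine ⟨F, p, q, K, hF, ?_, fun ξ hξ => ?_⟩
  · rw [hs]
    unfold sigL
    rw [List.map_append, List.map_append, List.sum_append, List.sum_append, add_comm]
  · rw [h.1, h.2.1, ← h.1]
    exact hg ξ hξ

end Pool.Agent.HMS
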