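import Pool.Agent.HMT.Spec

/-!
# HMS, Defs: alternating 3-braids of tangles, all orientations

The Hirasawa-Murasugi inequality (MP_29c64e_gt) for the closures of the words of at most 11 alternating
algebraic tangles (`HMT.Wd`) with an arbitrary orientation. (After merging neighbours in the same column
such a diagram has at most 5 pairs of tangles: Conway's polyhedra 1*, 6*, 8*, 10*.)

A letter is a pair (column, tangle): `true` is the columns 1, 2, `false` the columns 2, 3.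
-/

namespace Pool.Agent.HMS

open Polynomial Matrix Pool.Agent.HMA Pool.Agent.HMT

/-! ## Part 1: orientation of the words -/

/-- Orientation of the under strand of a crossing, `true` is from SW to NE of the tangle. -/
def und3 : (W : Wd) → W.Cr → Bool
  | .base S T => Sum.elim S.und T.und
  | .addA W T => Sum.elim (und3 W) T.und
  | .addB W T => Sum.elim (und3 W) T.und

/-- The orientations of the strands agree wherever two ends are glued inside the word. -/
def Ori : Wd → Prop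
  | .base S T => S.Oriented ∧ T.Oriented ∧ S.ovr S.se = T.und T.sw
  | .addA W T => Ori W ∧ T.Oriented ∧ und3 W W.b1 = !T.ovr T.nw ∧ W.ovr W.b2 = !T.und T.ne
  | .addB W T => Ori W ∧ T.Oriented ∧ W.ovr W.b2 = T.und T.sw ∧ und3 W W.b3 = T.ovr T.nw

/-- The orientations agree in the closure. -/
def Clo3 (W : Wd) : Prop :=
  W.ovr W.t1 = !und3 W W.b1 ∧ W.ovr W.b2 = !und3 W W.t2 ∧ W.ovr W.t3 = und3 W W.b3

/-- The number of tangles. -/
def num : Wd → ℕ
  | .base _ _ => 2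
  | .addA W _ => num W + 1
  | .addB W _ => num W + 1

/-! ## Part 2: the data of a tangle -/

/-- The three numbers of `Rel`. -/
noncomputable def mT (T : Tangle) (ξ : ℝ) : ℝ := (fox (-(ξ ^ 2)) T).det

noncomputable def aT (T : Tangle) (ξ : ℝ) : ℝ :=
  (fox (-(ξ ^ 2)) T).adjugate T.nw T.ne * -(wNE (-(ξ ^ 2)) (T.ovr T.ne))

noncomputable def bT (T : Tangle) (ξ : ℝ) : ℝ :=
  (fox (-(ξ ^ 2)) T).adjugate T.se T.ne * -(wNE (-(ξ ^ 2)) (T.ovr T.ne))

/-- The data of the pattern b (both strands vertical), `d = true`: downwards. -/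
def DB (T : Tangle) (d : Bool) : Prop :=
  ∃ (x : ℤ[X] × ℤ[X]) (p q : ℕ) (K : ℤ), FullK p q x ∧ (p : ℤ) - q = faces T - positive T ∧
    ∀ ξ : ℝ, 0 < ξ → mT T ξ = ξ ^ K * ((ξ + ξ⁻¹) * ev ξ x.1 + ev ξ x.2) ∧
      aT T ξ = ξ ^ K * (kap d ξ * ev ξ x.1) ∧ bT T ξ = ξ ^ K * (kap d ξ * ev ξ x.1 + ev ξ x.2)

/-- The data of the pattern a (both strands horizontal), `d = true`: to the right. -/
def DA (T : Tangle) (d : Bool) : Prop :=
  ∃ (x : ℤ[X] × ℤ[X]) (p q : ℕ) (K : ℤ), FullK q p x ∧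
    (p : ℤ) - q = faces T - positive T + 1 ∧
    ∀ ξ : ℝ, 0 < ξ → mT T ξ = ξ ^ K * ((ξ + ξ⁻¹) * ev ξ x.1 + ev ξ x.2) ∧
      aT T ξ = ξ ^ K * (kap d ξ * ev ξ x.1 + ev ξ x.2) ∧ bT T ξ = ξ ^ K * (kap d ξ * ev ξ x.1)

/-- The data of the pattern c (in and out alternate). -/
def DC (T : Tangle) (o : Bool) : Prop :=
  ∃ (n d : ℤ[X]) (p q p' q' : ℕ) (K : ℤ), Full p q n ∧ Full p' q' d ∧
    (p = p' + 1 ∧ q = q' ∨ p' = p ∧ q' = q + 1) ∧ (p' : ℤ) - q' = faces T - positive T ∧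
    ∀ ξ : ℝ, 0 < ξ → mT T ξ = ξ ^ K * (ev ξ n + kap o ξ * ev ξ d) ∧
      aT T ξ = ξ ^ K * (kap o ξ * ev ξ d) ∧ bT T ξ = ξ ^ K * ev ξ n

/-! ## Part 3: the triples -/

/-- Triples `(M, n, n')` (a ring). -/
abbrev T3 : Type := Matrix (Fin 3) (Fin 3) ℝ × ℝ × ℝ

/-- The triple of a letter with the numbers `m`, `a`, `b`: the matrix and the first number describe
the colourings (values at the upper ends times `n`, at the lower ends), `det M = n ^ 2 * n'`. -/
def rg (c : Bool) (m a b : ℝ) : T3 :=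
  if c then (!![m, -a, 0; m - b, b - a, 0; 0, 0, m - a], m - a, b)
  else (!![a, 0, 0; 0, a - b, b; 0, a - m, m], a, m - b)

/-- `trace M - 2 n - n'`. -/
def gg (t : T3) : ℝ := t.1.trace - 2 * t.2.1 - t.2.2

/-- The action of a matrix with constant row sums on the quotient by the vector `1`. -/
def rho (M : Matrix (Fin 3) (Fin 3) ℝ) : Matrix (Fin 2) (Fin 2) ℝ :=
  !![M 2 2 - M 1 2, M 1 0 - M 2 0; M 1 2 - M 0 2, M 0 0 - M 1 0]

/-- Letters. -/
abbrev Ltr : Type := Bool × Tangle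

noncomputable def lt3 (ξ : ℝ) (x : Ltr) : T3 := rg x.1 (mT x.2 ξ) (aT x.2 ξ) (bT x.2 ξ)

/-- The triple of a word (the first letter is at the top). -/
noncomputable def tr3 (ξ : ℝ) : List Ltr → T3
  | [] => 1
  | x :: L => tr3 ξ L * lt3 ξ x

/-- The triples of parallel letters with the numbers `A`, `B`: pattern b and pattern a. -/
noncomputable def pb (c d : Bool) (ξ A B : ℝ) : T3 :=
  rg c ((ξ + ξ⁻¹) * A + B) (kap d ξ * A) (kap d ξ * A + B)

noncomputable def pa (c d : Bool) (ξ A B : ℝ) : T3 :=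
  rg c ((ξ + ξ⁻¹) * A + B) (kap d ξ * A + B) (kap d ξ * A)

/-! ## Part 4: states and paths -/

/-- The directions of the three strands at a level, `true` is downwards. -/
abbrev St : Type := Bool × Bool × Bool

/-- A letter between the levels with the states `s` (above it) and `s'` (below it). -/
def Stp (x : Ltr) (s s' : St) : Prop :=
  x.2.Oriented ∧
  if x.1 then
    s.1 = x.2.ovr x.2.nw ∧ s.2.1 = !x.2.und x.2.ne ∧ s'.1 = !x.2.und x.2.sw ∧
      s'.2.1 = x.2.ovr x.2.se ∧ s'.2.2 = s.2.2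
  else
    s.2.1 = x.2.und x.2.sw ∧ s.2.2 = x.2.ovr x.2.nw ∧ s'.2.1 = x.2.ovr x.2.se ∧
      s'.2.2 = x.2.und x.2.ne ∧ s'.1 = s.1

def Pth : List Ltr → St → St → Prop
  | [], s, s' => s = s'
  | x :: L, s, s' => ∃ s'', Stp x s s'' ∧ Pth L s'' s'

/-- All strands in the same direction. -/
def Unif (s : St) : Prop := s.1 = s.2.1 ∧ s.2.1 = s.2.2

/-- Exchange of the directions in the columns of a letter. -/
def swp (c : Bool) (s : St) : St := if c then (s.2.1, s.1, s.2.2) else (s.1, s.2.2, s.2.1)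

/-- The directions in the columns of a letter are different. -/
def Dif (c : Bool) (s : St) : Prop := if c then s.1 ≠ s.2.1 else s.2.1 ≠ s.2.2

/-- A path with parallel letters only. -/
def PPth : List Ltr → St → St → Prop
  | [], s, s' => s = s'
  | x :: L, s, s' => Stp x s (swp x.1 s) ∧ PPth L (swp x.1 s) s'

/-- Both columns occur. -/
def Both (L : List Ltr) : Prop := (∃ x ∈ L, x.1 = true) ∧ ∃ x ∈ L, x.1 = false

/-- The columns alternate, beginning with `c`. -/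
def altB : Bool → List Ltr → Prop
  | _, [] => True
  | c, x :: L => x.1 = c ∧ altB (!c) L

/-- The signature. -/
def sigL (L : List Ltr) : ℤ :=
  (L.map fun x => (faces x.2 : ℤ) - positive x.2 + (if x.1 then 1 else 0)).sum

/-- The claim. -/
def Good (L : List Ltr) : Prop :=
  ∃ (F : ℤ[X]) (p q : ℕ) (K : ℤ), Full p q F ∧ (p : ℤ) - q = sigL L ∧
    ∀ ξ : ℝ, 0 < ξ → gg (tr3 ξ L) = ξ ^ K * ev ξ F

/-- The tangle obtained from `Q` by adding the letters (below or to the right). -/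
def Qo : Tangle → List Ltr → Tangle
  | Q, [] => Q
  | Q, x :: L => Qo (if x.1 then .ver Q x.2 else .hor Q x.2) L

/-- `Q` is oriented and its ends NW, SW, SE, NE have the directions `r` and those of the state `s` (SW
is the lower end 1, SE the lower end 2, NE the lower end 3). -/
def QOri (Q : Tangle) (r : Bool) (s : St) : Prop :=
  Q.Oriented ∧ Q.ovr Q.nw = r ∧ Q.und Q.sw = !s.1 ∧ Q.ovr Q.se = s.2.1 ∧ Q.und Q.ne = s.2.2

/-- The direction of a strand, and the Alexander number of the region to its left (the region at the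
far left has the number 0). -/
def dn (s : St) : Fin 3 → Bool := ![s.1, s.2.1, s.2.2]

def ex (s : St) : Fin 3 → ℤ :=
  ![if s.1 then 1 else 0, (if s.1 then 1 else -1) + (if s.2.1 then 1 else 0),
    (if s.1 then 1 else -1) + (if s.2.1 then 1 else -1) + (if s.2.2 then 1 else 0)]

noncomputable def ell (s : St) (ξ : ℝ) : Fin 3 → ℝ := fun i =>
  (if dn s i then 1 else -1) * (-(ξ ^ 2)) ^ ex s i

/-- The intertwiner of the symmetry `ξ → ξ⁻¹` (for states which are not uniform). -/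
noncomputable def kk (s : St) (ξ : ℝ) : ℝ :=
  (kap ((s.1 && s.2.1) || (s.1 && s.2.2) || (s.2.1 && s.2.2)) ξ) ^ 2

noncomputable def hm (s : St) (ξ : ℝ) : Matrix (Fin 2) (Fin 2) ℝ :=
  if s.1 = s.2.1 then !![1, 0; (kk s ξ)⁻¹ - 1, (kk s ξ)⁻¹]
  else if s.2.1 = s.2.2 then !![1, 1 - (kk s ξ)⁻¹; 0, (kk s ξ)⁻¹]
  else !![(kk s ξ)⁻¹, 0; 0, 1]

/-! ## Part 5: words as lists -/

def lst : Wd → List Ltr
  | .base S T => [(true, S), (false, T)]
  | .addA W T => lst W ++ [(true, T)]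
  | .addB W T => lst W ++ [(false, T)]

/-- The states at the top and at the bottom. -/
def topS (W : Wd) : St := (W.ovr W.t1, !und3 W W.t2, W.ovr W.t3)

def botS (W : Wd) : St := (!und3 W W.b1, W.ovr W.b2, und3 W W.b3)

/-! ## Part 6: linear algebra -/

/-- The properties of `M`, `n` which are used (`Dl`, `m21`, `m23` are minors, see `HMT.Defs`). -/
def Inv3 (M : Matrix (Fin 3) (Fin 3) ℝ) (n : ℝ) : Prop :=
  0 < n ∧ (∀ i, M i 0 + M i 1 + M i 2 = n) ∧ 0 < Dl M ∧ 0 ≤ m21 M ∧ 0 ≤ m23 M ∧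
    m21 M + m23 M ≤ Dl M

/-- The determinant and the colourings of a word (`Col` is in `HMT.Defs`). -/
def RelS (W : Wd) (ξ : ℝ) (M : Matrix (Fin 3) (Fin 3) ℝ) (n : ℝ) : Prop :=
  n * (fox3 (-(ξ ^ 2)) W).det = Dl M ∧ Col W ξ M n

/-- The colourings of one tangle in the columns 1, 2: upper ends NW, NE, lower ends SW, SE. -/
def ColAm (T : Tangle) (ξ m a b : ℝ) : Prop :=
  ∀ y₁ y₂ : ℝ, ∃ h : T.Cr → ℝ,
    (fox (-(ξ ^ 2)) T).mulVec h =
      Pi.single T.ne (-(wNE (-(ξ ^ 2)) (T.ovr T.ne)) * ((m - a) * y₂)) +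
      Pi.single T.sw (-(wSW (-(ξ ^ 2)) (T.ovr T.sw)) * (m * y₁ - a * y₂)) ∧
    h T.nw = (m - a) * y₁ ∧ h T.se = (m - b) * y₁ + (b - a) * y₂

/-- The colourings of one tangle in the columns 2, 3: upper ends SW, NW, lower ends SE, NE. -/
def ColBm (T : Tangle) (ξ m a b : ℝ) : Prop :=
  ∀ y₂ y₃ : ℝ, ∃ h : T.Cr → ℝ,
    (fox (-(ξ ^ 2)) T).mulVec h =
      Pi.single T.ne (-(wNE (-(ξ ^ 2)) (T.ovr T.ne)) * (m * y₃ - (m - a) * y₂)) +
      Pi.single T.sw (-(wSW (-(ξ ^ 2)) (T.ovr T.sw)) * (a * y₂)) ∧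
    h T.nw = a * y₃ ∧ h T.se = (a - b) * y₂ + b * y₃

end Pool.Agent.HMS
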