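import Pool.Agent.HMS.Spec

/-! HMS, module `DetSA`: the determinant of the word with one more tangle in the columns 1, 2. -/

set_option autoImplicit false

namespace Pool.Agent.HMS

open Polynomial Matrix Pool.Agent.HMA Pool.Agent.HMT

namespace DetSAAux

theorem blk (t : ℝ) (W : Wd) (T : Tangle) :
    (fox3 t (.addA W T)).det =
      (fromBlocks (fox3 t W) (single W.b1 T.nw (wSW t (W.ovr W.b1)))
        (single T.ne W.b2 (wNE t (T.ovr T.ne))) (fox t T)).det := rfl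

end DetSAAux

theorem tDetSA : S_Det → S_Mab → S_AdjT → S_InvG → S_DetSA := by
  intro hDet hMab hAdj hInvG W T ξ M n hξ hT hInv hRel
  obtain ⟨hA1, _⟩ := hAdj W ξ M n hInv hRel
  obtain ⟨hR, _⟩ := hRel
  obtain ⟨ha0, ham, _, _⟩ := hMab T ξ hT hξ
  obtain ⟨_, hDlf, _⟩ := hInvG
  have hM := (hDlf (mT T ξ) (aT T ξ) (bT T ξ) M).1
  have hDl : 0 < Dl M := hInv.2.2.1
  have hdetA : (fox3 (-(ξ ^ 2)) W).det ≠ 0 := by
    intro h0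
    rw [h0, mul_zero] at hR
    exact hDl.ne hR
  have hT1 : (fox (-(ξ ^ 2)) T).det = mT T ξ := rfl
  have hT2 : (fox (-(ξ ^ 2)) T).adjugate T.nw T.ne * -(wNE (-(ξ ^ 2)) (T.ovr T.ne)) = aT T ξ := rfl
  have hdetD : (fox (-(ξ ^ 2)) T).det ≠ 0 := by
    rw [hT1]
    exact (ha0.trans ham).ne'
  have h := hDet W.Cr T.Cr (fox3 (-(ξ ^ 2)) W) (fox (-(ξ ^ 2)) T) W.b1 T.nw T.ne W.b2
    (wSW (-(ξ ^ 2)) (W.ovr W.b1)) (wNE (-(ξ ^ 2)) (T.ovr T.ne)) hdetA hdetD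
  rw [DetSAAux.blk, h, hM]
  have e : (mT T ξ - aT T ξ) * n *
      ((fox3 (-(ξ ^ 2)) W).det * (fox (-(ξ ^ 2)) T).det -
        wSW (-(ξ ^ 2)) (W.ovr W.b1) * wNE (-(ξ ^ 2)) (T.ovr T.ne) *
          (fox3 (-(ξ ^ 2)) W).adjugate W.b2 W.b1 * (fox (-(ξ ^ 2)) T).adjugate T.nw T.ne) =
      (mT T ξ - aT T ξ) * ((n * (fox3 (-(ξ ^ 2)) W).det) * (fox (-(ξ ^ 2)) T).det -
        (n * ((fox3 (-(ξ ^ 2)) W).adjugate W.b2 W.b1 * -(wSW (-(ξ ^ 2)) (W.ovr W.b1)))) *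
        ((fox (-(ξ ^ 2)) T).adjugate T.nw T.ne * -(wNE (-(ξ ^ 2)) (T.ovr T.ne)))) := by ring
  rw [e, hR, hA1, hT1, hT2]
  ring

end Pool.Agent.HMS
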