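import Pool.Agent.HMS.Spec

/-!
# HMS, module DetSB: the determinant of the Fox matrix of `addB W T`
-/

set_option autoImplicit false

namespace Pool.Agent.HMS

open Polynomial Matrix Pool.Agent.HMA Pool.Agent.HMT

/-- Module DetSB. -/
theorem tDetSB : S_Det → S_Mab → S_TanG → S_AdjT → S_InvG → S_DetSB := by
  intro hD hMab hTan hAdj hInv W T ξ M n hξ hTO hI hR
  have hDl : 0 < Dl M := hI.2.2.1
  obtain ⟨ha, ham, _, _⟩ := hMab T ξ hTO hξ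
  have h1 : n * (fox3 (-(ξ ^ 2)) W).det = Dl M := hR.1
  have h2 := (hAdj W ξ M n hI hR).2
  have h3 : (fox (-(ξ ^ 2)) T).det = mT T ξ := rfl
  have h4 := (hTan T ξ hTO hξ).1
  have hA : (fox3 (-(ξ ^ 2)) W).det ≠ 0 := by
    intro h
    rw [h, mul_zero] at h1
    linarith
  have hT0 : (fox (-(ξ ^ 2)) T).det ≠ 0 := by
    rw [h3]
    exact (lt_trans ha ham).ne'
  have h5 : (fox3 (-(ξ ^ 2)) (.addB W T)).det = (fox3 (-(ξ ^ 2)) W).det * (fox (-(ξ ^ 2)) T).det -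
      wNE (-(ξ ^ 2)) (W.ovr W.b3) * wSW (-(ξ ^ 2)) (T.ovr T.sw) *
        (fox3 (-(ξ ^ 2)) W).adjugate W.b2 W.b3 * (fox (-(ξ ^ 2)) T).adjugate T.nw T.sw :=
    hD W.Cr T.Cr (fox3 (-(ξ ^ 2)) W) (fox (-(ξ ^ 2)) T) W.b3 T.nw T.sw W.b2
      (wNE (-(ξ ^ 2)) (W.ovr W.b3)) (wSW (-(ξ ^ 2)) (T.ovr T.sw)) hA hT0
  rw [(hInv.2.1 (mT T ξ) (aT T ξ) (bT T ξ) M).2, h5]
  linear_combination aT T ξ * (fox (-(ξ ^ 2)) T).det * h1 + aT T ξ * Dl M * h3 -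
    aT T ξ * ((fox (-(ξ ^ 2)) T).adjugate T.nw T.sw * -(wSW (-(ξ ^ 2)) (T.ovr T.sw))) * h2 -
    aT T ξ * m23 M * h4

end Pool.Agent.HMS
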