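import Pool.Agent.HMS.Spec

/-!
# HMS, module Dt: the patterns of the tangles with the numbers `mT`, `aT`, `bT`
-/

set_option autoImplicit false

namespace Pool.Agent.HMS

open Polynomial Matrix Pool.Agent.HMA Pool.Agent.HMT

theorem tDt : S_Ind → S_RelU → S_Dt := by
  intro hI hU T hT
  rcases hI T hT with hA | hB | hC
  · obtain ⟨d, x, p, q, K, e1, e2, e3, e4, hF, hpq, hR⟩ := hA
    refine ⟨Or.inr (Or.inl ⟨d, e1, e2, e3, e4, x, p, q, K, hF, hpq, fun ξ hξ => hU _ _ _ _ _ (hR ξ hξ)⟩), ?_⟩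
    intro ξ hξ
    have h := hR ξ hξ
    obtain ⟨h1, h2, h3⟩ := hU _ _ _ _ _ h
    rw [h1, h2, h3]
    exact h
  · obtain ⟨d, x, p, q, K, e1, e2, e3, e4, hF, hpq, hR⟩ := hB
    refine ⟨Or.inl ⟨d, e1, e2, e3, e4, x, p, q, K, hF, hpq, fun ξ hξ => hU _ _ _ _ _ (hR ξ hξ)⟩, ?_⟩
    intro ξ hξ
    have h := hR ξ hξ
    obtain ⟨h1, h2, h3⟩ := hU _ _ _ _ _ h
    rw [h1, h2, h3]
    exact h
  · obtain ⟨o, n, d, p, q, p', q', K, e1, e2, e3, e4, hF, hF', hpq, hpq', hR⟩ := hC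
    refine ⟨Or.inr (Or.inr ⟨o, e1, e2, e3, e4, n, d, p, q, p', q', K, hF, hF', hpq, hpq',
      fun ξ hξ => hU _ _ _ _ _ (hR ξ hξ)⟩), ?_⟩
    intro ξ hξ
    have h := hR ξ hξ
    obtain ⟨h1, h2, h3⟩ := hU _ _ _ _ _ h
    rw [h1, h2, h3]
    exact h

end Pool.Agent.HMS
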