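import Pool.Agent.HMS.Spec

/-!
# HMS, module Ell: the left eigenvector
-/

set_option autoImplicit false

namespace Pool.Agent.HMS

open Polynomial Matrix Pool.Agent.HMA Pool.Agent.HMT

namespace EllAux

/-- The components of `ell`. -/
noncomputable def cmp0 (a : Bool) (ξ : ℝ) : ℝ := if a then -ξ ^ 2 else -1

noncomputable def cmp1 (a b : Bool) (ξ : ℝ) : ℝ :=
  if a then (if b then ξ ^ 4 else ξ ^ 2) else (if b then 1 else (ξ⁻¹) ^ 2)

noncomputable def cmp2 (a b c : Bool) (ξ : ℝ) : ℝ :=
  if a then (if b then (if c then -ξ ^ 6 else -ξ ^ 4) else (if c then -ξ ^ 2 else -1))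
  else (if b then (if c then -ξ ^ 2 else -1) else (if c then -(ξ⁻¹) ^ 2 else -(ξ⁻¹) ^ 4))

theorem ell0 (a b c : Bool) (ξ : ℝ) : ell (a, b, c) ξ 0 = cmp0 a ξ := by
  cases a <;> simp [ell, dn, ex, cmp0]

theorem ell1 (a b c : Bool) (ξ : ℝ) : ell (a, b, c) ξ 1 = cmp1 a b ξ := by
  cases a <;> cases b <;> simp [ell, dn, ex, cmp1]
  all_goals ring

theorem ell2 (a b c : Bool) (ξ : ℝ) : ell (a, b, c) ξ 2 = cmp2 a b c ξ := by
  cases a <;> cases b <;> cases c <;> simp [ell, dn, ex, cmp2]
  all_goals ring

/-- The claim for one letter. -/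
def Lc (x : Ltr) (s s' : St) (ξ : ℝ) : Prop := ∀ j : Fin 3,
  ∑ i, ell s' ξ i * (lt3 ξ x).1 i j = (lt3 ξ x).2.1 * ell s ξ j

theorem asmT (T : Tangle) (s s' : St) (ξ : ℝ)
    (h0 : ell s' ξ 0 * mT T ξ + ell s' ξ 1 * (mT T ξ - bT T ξ) = (mT T ξ - aT T ξ) * ell s ξ 0)
    (h1 : ell s' ξ 0 * (-aT T ξ) + ell s' ξ 1 * (bT T ξ - aT T ξ) = (mT T ξ - aT T ξ) * ell s ξ 1)
    (h2 : ell s' ξ 2 = ell s ξ 2) : Lc (true, T) s s' ξ := by
  intro j
  fin_cases j
  · simp [lt3, rg, Fin.sum_univ_three]
    linarith
  · simp [lt3, rg, Fin.sum_univ_three]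
    linarith
  · simp [lt3, rg, Fin.sum_univ_three, h2]
    ring

theorem asmF (T : Tangle) (s s' : St) (ξ : ℝ) (h0 : ell s' ξ 0 = ell s ξ 0)
    (h1 : ell s' ξ 1 * (aT T ξ - bT T ξ) + ell s' ξ 2 * (aT T ξ - mT T ξ) = aT T ξ * ell s ξ 1)
    (h2 : ell s' ξ 1 * bT T ξ + ell s' ξ 2 * mT T ξ = aT T ξ * ell s ξ 2) :
    Lc (false, T) s s' ξ := by
  intro j
  fin_cases j
  · simp [lt3, rg, Fin.sum_univ_three, h0]
    ring
  · simp [lt3, rg, Fin.sum_univ_three]
    linarith
  · simp [lt3, rg, Fin.sum_univ_three]
    linarith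

theorem letter (h : S_Lt) (x : Ltr) (s s' : St) (ξ : ℝ) (hξ : 0 < ξ) (hs : Stp x s s') :
    Lc x s s' ξ := by
  have hn : ξ ≠ 0 := hξ.ne'
  obtain ⟨c, T⟩ := x
  obtain ⟨a, b, d⟩ := s
  cases c
  · obtain ⟨h1, h2⟩ := (h _ _ _ hs).2 rfl
    by_cases hab : b = d
    · obtain ⟨he, y, p, q, K, -, -, hd⟩ := h1 hab
      subst hab
      subst he
      obtain ⟨hm, ha, hb⟩ := hd ξ hξ
      refine asmF T _ _ ξ rfl ?_ ?_
      · rw [hm, ha, hb, ell1, ell2]
        generalize ev ξ y.1 = A
        generalize ev ξ y.2 = B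
        generalize ξ ^ K = k
        cases a <;> cases b <;> simp only [cmp1, cmp2, kap, if_true, Bool.false_eq_true, if_false] <;>
          field_simp <;> ring
      · rw [hm, ha, hb, ell1, ell2]
        generalize ev ξ y.1 = A
        generalize ev ξ y.2 = B
        generalize ξ ^ K = k
        cases a <;> cases b <;> simp only [cmp1, cmp2, kap, if_true, Bool.false_eq_true, if_false] <;>
          field_simp <;> ring
    · rcases h2 hab with ⟨he, y, p, q, K, -, -, hd⟩ | ⟨he, n, e, p, q, p', q', K, -, -, -, -, hd⟩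
      · subst he
        obtain ⟨hm, ha, hb⟩ := hd ξ hξ
        have hdb : d = !b := by cases b <;> cases d <;> simp_all
        subst hdb
        have hsw : swp false (a, b, !b) = (a, !b, b) := rfl
        rw [hsw]
        refine asmF T _ _ ξ (by rw [ell0, ell0]) ?_ ?_
        · rw [hm, ha, hb, ell1, ell2, ell1]
          generalize ev ξ y.1 = A
          generalize ev ξ y.2 = B
          generalize ξ ^ K = k
          cases a <;> cases b <;> simp only [cmp1, cmp2, kap, if_true, Bool.false_eq_true, if_false, Bool.not_true, Bool.not_false] <;>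
            field_simp <;> ring
        · rw [hm, ha, hb, ell1, ell2, ell2]
          generalize ev ξ y.1 = A
          generalize ev ξ y.2 = B
          generalize ξ ^ K = k
          cases a <;> cases b <;> simp only [cmp1, cmp2, kap, if_true, Bool.false_eq_true, if_false, Bool.not_true, Bool.not_false] <;>
            field_simp <;> ring
      · subst he
        obtain ⟨hm, ha, hb⟩ := hd ξ hξ
        have hdb : d = !b := by cases b <;> cases d <;> simp_all
        subst hdb
        refine asmF T _ _ ξ rfl ?_ ?_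
        · rw [hm, ha, hb, ell1, ell2]
          generalize ev ξ n = A
          generalize ev ξ e = B
          generalize ξ ^ K = k
          cases a <;> cases b <;> simp only [cmp1, cmp2, kap, if_true, Bool.false_eq_true, if_false, Bool.not_true, Bool.not_false] <;>
            field_simp <;> ring
        · rw [hm, ha, hb, ell1, ell2]
          generalize ev ξ n = A
          generalize ev ξ e = B
          generalize ξ ^ K = k
          cases a <;> cases b <;> simp only [cmp1, cmp2, kap, if_true, Bool.false_eq_true, if_false, Bool.not_true, Bool.not_false] <;>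
            field_simp <;> ring
  · obtain ⟨h1, h2⟩ := (h _ _ _ hs).1 rfl
    by_cases hab : a = b
    · obtain ⟨he, y, p, q, K, -, -, hd⟩ := h1 hab
      subst hab
      subst he
      obtain ⟨hm, ha, hb⟩ := hd ξ hξ
      refine asmT T _ _ ξ ?_ ?_ rfl
      · rw [hm, ha, hb, ell1, ell0]
        generalize ev ξ y.1 = A
        generalize ev ξ y.2 = B
        generalize ξ ^ K = k
        cases a <;> simp only [cmp1, cmp0, kap, if_true, Bool.false_eq_true, if_false] <;>
          field_simp <;> ring
      · rw [hm, ha, hb, ell1, ell0]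
        generalize ev ξ y.1 = A
        generalize ev ξ y.2 = B
        generalize ξ ^ K = k
        cases a <;> simp only [cmp1, cmp0, kap, if_true, Bool.false_eq_true, if_false] <;>
          field_simp <;> ring
    · rcases h2 hab with ⟨he, y, p, q, K, -, -, hd⟩ | ⟨he, n, e, p, q, p', q', K, -, -, -, -, hd⟩
      · subst he
        obtain ⟨hm, ha, hb⟩ := hd ξ hξ
        have hdb : b = !a := by cases a <;> cases b <;> simp_all
        subst hdb
        have hsw : swp true (a, !a, d) = (!a, a, d) := rfl
        rw [hsw]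
        refine asmT T _ _ ξ ?_ ?_ (by rw [ell2, ell2]; cases a <;> simp [cmp2])
        · rw [hm, ha, hb, ell1, ell0, ell0]
          generalize ev ξ y.1 = A
          generalize ev ξ y.2 = B
          generalize ξ ^ K = k
          cases a <;> simp only [cmp1, cmp0, kap, if_true, Bool.false_eq_true, if_false, Bool.not_true, Bool.not_false] <;>
            field_simp <;> ring
        · rw [hm, ha, hb, ell1, ell0, ell1]
          generalize ev ξ y.1 = A
          generalize ev ξ y.2 = B
          generalize ξ ^ K = k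
          cases a <;> simp only [cmp1, cmp0, kap, if_true, Bool.false_eq_true, if_false, Bool.not_true, Bool.not_false] <;>
            field_simp <;> ring
      · subst he
        obtain ⟨hm, ha, hb⟩ := hd ξ hξ
        have hdb : b = !a := by cases a <;> cases b <;> simp_all
        subst hdb
        refine asmT T _ _ ξ ?_ ?_ rfl
        · rw [hm, ha, hb, ell1, ell0]
          generalize ev ξ n = A
          generalize ev ξ e = B
          generalize ξ ^ K = k
          cases a <;> simp only [cmp1, cmp0, kap, if_true, Bool.false_eq_true, if_false, Bool.not_true, Bool.not_false] <;>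
            field_simp <;> ring
        · rw [hm, ha, hb, ell1, ell0]
          generalize ev ξ n = A
          generalize ev ξ e = B
          generalize ξ ^ K = k
          cases a <;> simp only [cmp1, cmp0, kap, if_true, Bool.false_eq_true, if_false, Bool.not_true, Bool.not_false] <;>
            field_simp <;> ring

end EllAux

open EllAux in
theorem tEll : S_Lt → S_Ell := by
  intro h L
  induction L with
  | nil =>
    intro s s' ξ hξ hp j
    have hp' : s = s' := hp
    subst hp'
    have h1 : (tr3 ξ ([] : List Ltr)) = 1 := rfl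
    rw [h1]
    simp only [Prod.fst_one, Prod.snd_one, one_mul]
    simp [Matrix.one_apply]
  | cons x L ih =>
    intro s s' ξ hξ hp j
    obtain ⟨r, hr, hL⟩ := hp
    have h1 : tr3 ξ (x :: L) = tr3 ξ L * lt3 ξ x := rfl
    rw [h1, Prod.fst_mul, Prod.snd_mul, Prod.fst_mul]
    have h2 : ∀ i, ell s' ξ i * ((tr3 ξ L).1 * (lt3 ξ x).1) i j =
        ∑ k, (ell s' ξ i * (tr3 ξ L).1 i k) * (lt3 ξ x).1 k j := by
      intro i
      rw [Matrix.mul_apply, Finset.mul_sum]
      exact Finset.sum_congr rfl fun k _ => by ring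
    rw [Finset.sum_congr rfl fun i _ => h2 i, Finset.sum_comm]
    have h3 : ∀ k, ∑ i, ell s' ξ i * (tr3 ξ L).1 i k * (lt3 ξ x).1 k j =
        (tr3 ξ L).2.1 * (ell r ξ k * (lt3 ξ x).1 k j) := by
      intro k
      rw [← Finset.sum_mul, ih r s' ξ hξ hL k]
      ring
    rw [Finset.sum_congr rfl fun k _ => h3 k, ← Finset.mul_sum, letter h x s r ξ hξ hr j]
    ring

end Pool.Agent.HMS
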