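import Pool.Agent.HMS.Spec

/-!
# HMS, module FinS: the main theorem from the modules
-/

set_option autoImplicit false

namespace Pool.Agent.HMS

open Polynomial Matrix Pool.Agent.HMA Pool.Agent.HMT

namespace FinSAux

/-- The entry `b2, t2` of the adjugate in terms of `gg`. -/
theorem bracket (hLin : S_LinW) (hCls : S_ClsS) (hT : S_Tt) (hEll : S_Ell) (hG : S_ClsG) (W : Wd)
    (hO : Ori W) (s : St) (hp : Pth (lst W) s s) (ξ : ℝ) (hξ : 0 < ξ) (h1 : ell s ξ 1 ≠ 0) :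
    ((foxW (-(ξ ^ 2)) W).adjugate W.b2 W.t2 * -(wNE (-(ξ ^ 2)) (W.ovr W.t2))) *
      (ell s ξ 0 + ell s ξ 1 + ell s ξ 2) = -(ell s ξ 1) * gg (tr3 ξ (lst W)) := by
  obtain ⟨hI, hR⟩ := hLin W hO ξ hξ
  rw [hCls W ξ _ _ hI hR]
  have hn : (tr3 ξ (lst W)).2.1 ≠ 0 := ne_of_gt hI.1
  exact hG _ _ _ _ hn h1 (hT.2.2.1 ξ (lst W)) (hEll (lst W) s s ξ hξ hp) (hT.2.2.2 ξ (lst W))

/-- The entry `b2, t2` of the adjugate. -/
theorem entry (hN : S_GoodN) (hD : S_GoodD) (hLin : S_LinW) (hCls : S_ClsS) (hT : S_Tt)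
    (hEll : S_Ell) (hG : S_ClsG) (hU : S_Unt) (hP : S_PW) (W : Wd) (hO : Ori W) (hC : Clo3 W)
    (h11 : num W ≤ 11) : ∃ (F : ℤ[X]) (p q : ℕ) (K : ℤ), Full p q F ∧ (p : ℤ) - q = sigW W ∧
      ∀ ξ : ℝ, 0 < ξ → (foxW (-(ξ ^ 2)) W).adjugate W.b2 W.t2 * -(wNE (-(ξ ^ 2)) (W.ovr W.t2)) =
        ξ ^ K * ev ξ F := by
  obtain ⟨hp1, hp2, hp3, hp4, hp5⟩ := hP W
  have hp : Pth (lst W) (topS W) (topS W) := by
    have h := hp1 hO
    rwa [← hp2 hC] at h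
  by_cases hu : Unif (topS W)
  · obtain ⟨F, p, q, K, hF, hs, hg⟩ := hD (lst W) (topS W) hp hu hp5
    refine ⟨F, p, q, K, hF, hs.trans hp3, fun ξ hξ => ?_⟩
    obtain ⟨u1, u2, u3⟩ := (hU (topS W)).2 hu ξ hξ
    have hb := bracket hLin hCls hT hEll hG W hO (topS W) hp ξ hξ u1
    rw [hg ξ hξ] at hb
    apply mul_right_cancel₀ u2
    rw [hb]
    linear_combination (ξ ^ K * ev ξ F) * u3
  · obtain ⟨F, p, q, K, hF, hs, hg⟩ := hN (lst W) (topS W) hp hu hp5 (by rw [hp4]; exact h11)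
    obtain ⟨e, he⟩ := (hU (topS W)).1 hu
    refine ⟨F, p, q, e + K, hF, hs.trans hp3, fun ξ hξ => ?_⟩
    obtain ⟨u1, u2, u3⟩ := he ξ hξ
    have hb := bracket hLin hCls hT hEll hG W hO (topS W) hp ξ hξ u1
    rw [hg ξ hξ, u3] at hb
    apply mul_right_cancel₀ u2
    rw [hb, zpow_add₀ hξ.ne']
    ring

end FinSAux

theorem tFinS : S_GoodN → S_GoodD → S_LinW → S_ClsS → S_Tt → S_Ell → S_ClsG → S_Unt → S_PW →
    S_AdjP → S_MapW → S_Read → S_FinS := by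
  intro hN hD hLin hCls hT hEll hG hU hP hAdj hMap hRead W hO hC h11 i j
  obtain ⟨F, p, q, K, hF, hs, hE⟩ := FinSAux.entry hN hD hLin hCls hT hEll hG hU hP W hO hC h11
  obtain ⟨z, hz⟩ := hAdj W hO hC
  rw [← hs]
  refine hRead p q F _ (2 * z j + (K - (if W.ovr W.t2 then 2 else 0))) hF fun ξ hξ => ?_
  have hne : ξ ≠ 0 := hξ.ne'
  have h1 := hE ξ hξ
  rw [hMap, hz (ξ ^ 2) (by positivity) i j W.b2]
  have h2 : (foxW (-(ξ ^ 2)) W).adjugate W.b2 W.t2 = ξ ^ (K - (if W.ovr W.t2 then 2 else 0)) * ev ξ F := by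
    unfold wNE at h1
    split at h1
    · rename_i ho
      rw [if_pos ho, zpow_sub₀ hne]
      rw [neg_neg] at h1
      have : (ξ : ℝ) ^ (2 : ℤ) = ξ ^ 2 := by norm_cast
      rw [this]
      field_simp
      linarith
    · rename_i ho
      rw [if_neg ho, sub_zero]
      rw [neg_neg, mul_one] at h1
      exact h1
  rw [h2, zpow_add₀ hne, _root_.zpow_mul]
  have : (ξ : ℝ) ^ (2 : ℤ) = ξ ^ 2 := by norm_cast
  rw [this]
  ring

end Pool.Agent.HMS
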