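import Pool.Agent.HMS.Spec

/-! # HMS, module `FullAdd`: sums of full polynomials (helper77) -/

set_option autoImplicit false

namespace Pool.Agent.HMS

open Polynomial Matrix Pool.Agent.HMA Pool.Agent.HMT

namespace FullAddAux

/-- The case in which the second polynomial has the larger degree. -/
theorem half (hC : S_Cheb) (hM : S_FullM) (p q p' q' : ℕ) (F G : ℤ[X]) (hF : Full p q F) (hG : Full p' q' G)
    (h : (p : ℤ) - q = (p' : ℤ) - q') (hle : p ≤ p') : Full p' q' (G + F) := by
  have h1 : F ∈ Uni (p + q) := hM.2.1 p q F hF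
  have h2 : F ∈ Uni (p + q + 2 * (p' - p)) := hC.2.2 (p + q) (p' - p) F h1
  have h3 : p + q + 2 * (p' - p) = p' + q' := by omega
  rw [h3] at h2
  exact hM.2.2.1 p' q' G F hG h2

end FullAddAux

theorem tFullAdd : S_Cheb → S_FullM → S_FullAdd := by
  intro hC hM p q p' q' F G hF hG h
  rcases le_total p p' with hle | hle
  · refine ⟨p', q', ?_, h.symm⟩
    have h1 := FullAddAux.half hC hM p q p' q' F G hF hG h hle
    rwa [add_comm] at h1
  · exact ⟨p, q, FullAddAux.half hC hM p' q' p q G F hG hF h.symm hle, rfl⟩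

end Pool.Agent.HMS
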