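import Pool.Agent.HMS.Calm
import Pool.Agent.HMS.GoodN

/-!
# HMS, GoodC: the main induction for calm words

As `GoodN`, with `CalmL L s` in place of `L.length ≤ 11`.
-/

set_option autoImplicit false

namespace Pool.Agent.HMS

open Polynomial Matrix Pool.Agent.HMA Pool.Agent.HMT

namespace GoodCAux

open GoodNAux

theorem main (hPp : S_Pp) (hCyc : S_Cyc) (hMrg : S_MrgP) (hUni : S_UnifP) (hCG : S_CG)
    (hSpl : S_Spl) (hPar : S_Par) (hNrm : S_Nrm) (hAlr : S_Alr) :
    ∀ (n : ℕ) (L : List Ltr) (s : St), L.length = n → Pth L s s → ¬ Unif s → Both L →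
      CalmL L s → Good L := by
  intro n
  induction n using Nat.strong_induction_on with
  | _ n ih =>
    intro L s hn hL hs hB h11
    rcases hNrm L hB with ⟨l₁, l₂, L', c, S, T, rfl, hrot⟩ | ⟨l₁, l₂, rfl, halt, heven⟩
    · obtain ⟨r, h1, h1', hr⟩ := hPp.2 l₁ l₂ s hL
      have hru : ¬ Unif r := fun h => hs ((hUni l₁ s r h1).2 h)
      have hBr : Both (l₂ ++ l₁) := both_rot hB
      have hlen : (l₂ ++ l₁).length = n := by
        rw [← hn, List.length_append, List.length_append, add_comm]
      have hcalm : CalmL (l₂ ++ l₁) r := h11.rot h1 h1'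
      refine hCyc l₂ l₁ ?_
      rw [hrot] at hr hBr hlen hcalm ⊢
      obtain ⟨hp, hg⟩ := hMrg L' c S T r hr
      refine hg ?_
      have hlen2 : L'.length + 2 = n := by
        rw [← hlen, List.length_append]
        rfl
      have hlen3 : (L' ++ [(c, if c then Tangle.ver S T else Tangle.hor S T)]).length =
          L'.length + 1 := by
        rw [List.length_append]
        rfl
      obtain ⟨t, ht, -⟩ := (hPp.1 L' [(c, S), (c, T)] r r).1 hr
      have hcalm2 : CalmL (L' ++ [(c, if c then Tangle.ver S T else Tangle.hor S T)]) r :=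
        hcalm.mrg ht
      exact ih (L'.length + 1) (by omega) _ r hlen3 hp hru (both_merge hBr) hcalm2
    · obtain ⟨r, h1, h1', hr⟩ := hPp.2 l₁ l₂ s hL
      have hru : ¬ Unif r := fun h => hs ((hUni l₁ s r h1).2 h)
      have hBr : Both (l₂ ++ l₁) := both_rot hB
      have hlen : (l₂ ++ l₁).length = n := by
        rw [← hn, List.length_append, List.length_append, add_comm]
      have hcalm : CalmL (l₂ ++ l₁) r := h11.rot h1 h1'
      refine hCyc l₂ l₁ ?_
      have hne : l₂ ++ l₁ ≠ [] := by
        intro h0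
        obtain ⟨⟨x, hx, -⟩, -⟩ := hBr
        rw [h0] at hx
        exact List.not_mem_nil hx
      rcases hSpl (l₂ ++ l₁) r r hr with hpp | ⟨m₁, x, m₂, q, hM, hm1, hx, hD, hm2⟩
      · exact hPar (l₂ ++ l₁) r halt heven hne (hcalm.length halt heven hpp hru) hpp hru
      · have hqu : ¬ Unif q := fun h => hru ((hUni m₁ r q hm1).2 h)
        have hqq : Pth (m₂ ++ m₁) q q := (hPp.1 m₂ m₁ q q).2 ⟨r, hm2, hm1⟩
        rw [hM] at halt heven hlen hcalm ⊢
        obtain ⟨ha, hodd⟩ := hAlr.1 m₁ x m₂ halt heven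
        have hlen2 : (m₂ ++ m₁).length + 1 = n := by
          rw [← hlen, List.length_append, List.length_append, List.length_cons]
          omega
        have hcalm2 : CalmL (m₂ ++ m₁) q := hcalm.rem hm1 hx hm2 halt heven
        have hg1 : (m₂ ++ m₁).length = 1 ∨ Good (m₂ ++ m₁) := by
          by_cases h2 : 2 ≤ (m₂ ++ m₁).length
          · right
            exact ih (m₂ ++ m₁).length (by omega) _ q rfl hqq hqu
              (hAlr.2 (!x.1) (m₂ ++ m₁) ha h2) hcalm2
          · left
            obtain ⟨k, hk⟩ := hodd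
            omega
        obtain ⟨y, K, hyK⟩ : ∃ (y : Ltr) (K : List Ltr), m₂ ++ m₁ = y :: K := by
          cases hc : m₂ ++ m₁ with
          | nil =>
            rw [hc] at hodd
            obtain ⟨k, hk⟩ := hodd
            simp at hk
          | cons y K => exact ⟨y, K, rfl⟩
        have hy : y.1 = !x.1 := by
          rw [hyK] at ha
          exact ha.1
        have hg2 : Good ((m₂ ++ m₁) ++ [x]) := hCG (m₂ ++ m₁) x y K q hyK hy hqq hx hD hg1
        have hg3 : Good ((m₁ ++ [x]) ++ m₂) := by
          refine hCyc m₂ (m₁ ++ [x]) ?_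
          rw [← List.append_assoc]
          exact hg2
        have he : (m₁ ++ [x]) ++ m₂ = m₁ ++ x :: m₂ := by
          rw [List.append_assoc]
          rfl
        rw [he] at hg3
        exact hg3

end GoodCAux

/-- As `S_GoodN` for calm words. -/
def S_GoodC : Prop := ∀ (L : List Ltr) (s : St), Pth L s s → ¬ Unif s → Both L →
  CalmL L s → Good L

theorem tGoodC : S_Pp → S_Cyc → S_MrgP → S_UnifP → S_CG → S_Spl → S_Par → S_Nrm → S_Alr →
    S_GoodC := by
  intro hPp hCyc hMrg hUni hCG hSpl hPar hNrm hAlr L s hL hs hB h11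
  exact GoodCAux.main hPp hCyc hMrg hUni hCG hSpl hPar hNrm hAlr L.length L s rfl hL hs hB h11

end Pool.Agent.HMS
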