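import Pool.Agent.HMS.Spec

/-!
# HMS, module GoodD: all strands have the same direction
-/

set_option autoImplicit false

namespace Pool.Agent.HMS

open Polynomial Matrix Pool.Agent.HMA Pool.Agent.HMT

namespace GoodDAux

theorem kpos (d : Bool) {ξ : ℝ} (h : 0 < ξ) : 0 < kap d ξ := by
  cases d
  · exact inv_pos.2 h
  · exact h

theorem full_one : Full 0 0 1 := by
  refine ⟨0, (Uni _).zero_mem, ?_⟩
  simp only [SS]
  ring

theorem sc_one : sc 1 = 1 := by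
  funext ξ
  have h : ev ξ.1 1 = 1 := by
    unfold ev
    exact map_one _
  unfold sc
  rw [h, one_smul]
  rfl

theorem kfull_one : KFull 0 0 0 0 1 := by
  refine ⟨0, 0, [], 1, 0, rfl, rfl, le_rfl, le_rfl, full_one, (KT _).zero_mem, ?_⟩
  rw [sc_one, add_zero, one_mul]
  rfl

theorem mono {p q s r s' r' : ℕ} {T : TT} (hs : s' ≤ s) (hr : r' ≤ r) (h : KFull p q s r T) :
    KFull p q s' r' T := by
  obtain ⟨a, b, v, P, R, h1, h2, h3, h4, h5, h6, h7⟩ := h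
  exact ⟨a, b, v, P, R, h1, h2, hs.trans h3, hr.trans h4, h5, h6, h7⟩

/-- The change of the parameter. -/
theorem par (hT : S_TriP) (d : Bool) (ξ : ℝ) (h : 0 < ξ) :
    (∀ (c : Bool) (A B : ℝ), pb c d ξ A B = pb c true (kap d ξ) A B) ∧
    (∀ (c : Bool) (A B : ℝ), pa c d ξ A B = pa c true (kap d ξ) A B) ∧
    (∀ F : ℤ[X], ev ξ F = ev (kap d ξ) F) ∧ kap d ξ + (kap d ξ)⁻¹ = ξ + ξ⁻¹ := by
  cases d
  · exact ⟨fun c A B => ((hT.2.1 c true ξ A B h).1).symm,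
      fun c A B => ((hT.2.1 c true ξ A B h).2).symm, fun F => (hT.2.2.1 ξ F).symm, by
        change ξ⁻¹ + (ξ⁻¹)⁻¹ = ξ + ξ⁻¹
        rw [inv_inv, add_comm]⟩
  · exact ⟨fun _ _ _ => rfl, fun _ _ _ => rfl, fun _ => rfl, rfl⟩

/-- One letter. -/
theorem letter (hL : S_Lt) (hT : S_TriP) (hK : S_KTri) (x : Ltr) (s s' : St) (hx : Stp x s s')
    (hs : Unif s) : s' = s ∧ ∃ (U : TT) (p q a b : ℕ) (K : ℤ), KFull p q a b U ∧
      (p : ℤ) - q = (faces x.2 : ℤ) - positive x.2 + (if x.1 then 1 else 0) ∧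
      (x.1 = true → 1 ≤ a) ∧ (x.1 = false → 1 ≤ b) ∧
      ∀ (ξ : ℝ) (h : 0 < ξ), lt3 ξ x = ξ ^ K • U ⟨kap s.1 ξ, kpos s.1 h⟩ := by
  have hl := hL x s s' hx
  obtain ⟨c, T⟩ := x
  cases c
  · obtain ⟨e, y, p, q, K, f, g, k⟩ := ((hl.2 rfl).1 hs.2)
    refine ⟨e, tri false y, p, q + 1, 0, 1, K, hK.2 p q y f, ?_, fun h => absurd h (by simp),
      fun _ => le_rfl, ?_⟩
    · simp only [Bool.false_eq_true, if_false]
      push_cast
      linarith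
    · intro ξ h
      obtain ⟨u1, u2, u3⟩ := k ξ h
      obtain ⟨_, a2, a3, _⟩ := par hT s.1 ξ h
      have hs2 : s.2.2 = s.1 := (hs.1.trans hs.2).symm
      rw [(hT.1 y ⟨kap s.1 ξ, kpos s.1 h⟩).2, ← a2, ← a3, ← a3]
      unfold lt3 pa
      rw [u1, u2, u3, hT.2.2.2.1, hs2]
  · obtain ⟨e, y, p, q, K, f, g, k⟩ := ((hl.1 rfl).1 hs.1)
    refine ⟨e, tri true y, p + 1, q, 1, 0, K, hK.1 p q y f, ?_, fun _ => le_rfl,
      fun h => absurd h (by simp), ?_⟩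
    · simp only [if_true]
      push_cast
      linarith
    · intro ξ h
      obtain ⟨u1, u2, u3⟩ := k ξ h
      obtain ⟨a1, _, a3, _⟩ := par hT s.1 ξ h
      rw [(hT.1 y ⟨kap s.1 ξ, kpos s.1 h⟩).1, ← a1, ← a3, ← a3]
      unfold lt3 pb
      rw [u1, u2, u3, hT.2.2.2.1]

/-- The words. -/
theorem word (hL : S_Lt) (hT : S_TriP) (hK : S_KTri) (hF : S_KF) (L : List Ltr) :
    ∀ s s' : St, Pth L s s' → Unif s → ∃ (U : TT) (p q a b : ℕ) (K : ℤ), KFull p q a b U ∧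
      (p : ℤ) - q = sigL L ∧ ((∃ x ∈ L, x.1 = true) → 1 ≤ a) ∧ ((∃ x ∈ L, x.1 = false) → 1 ≤ b) ∧
      ∀ (ξ : ℝ) (h : 0 < ξ), tr3 ξ L = ξ ^ K • U ⟨kap s.1 ξ, kpos s.1 h⟩ := by
  induction L with
  | nil =>
    intro s s' _ _
    refine ⟨1, 0, 0, 0, 0, 0, kfull_one, by simp [sigL], ?_, ?_, ?_⟩
    · rintro ⟨x, hx, _⟩
      exact absurd hx (List.not_mem_nil)
    · rintro ⟨x, hx, _⟩
      exact absurd hx (List.not_mem_nil)
    · intro ξ h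
      rw [zpow_zero, one_smul]
      rfl
  | cons x L ih =>
    intro s s' hP hs
    obtain ⟨s'', h1, h2⟩ := hP
    obtain ⟨e, U, p, q, a, b, K, u1, u2, u3, u4, u5⟩ := letter hL hT hK x s s'' h1 hs
    subst e
    obtain ⟨V, p', q', a', b', K', v1, v2, v3, v4, v5⟩ := ih s'' s' h2 hs
    refine ⟨V * U, p' + p, q' + q, a' + a, b' + b, K' + K, hF _ _ _ _ _ _ _ _ _ _ v1 u1, ?_, ?_, ?_, ?_⟩
    · have h3 : sigL (x :: L) = (faces x.2 : ℤ) - positive x.2 + (if x.1 then 1 else 0) + sigL L := by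
        simp only [sigL, List.map_cons, List.sum_cons]
      rw [h3, ← u2, ← v2]
      push_cast
      ring
    · rintro ⟨y, hy, hy1⟩
      rcases List.mem_cons.1 hy with rfl | hy
      · have := u3 hy1
        omega
      · have := v3 ⟨y, hy, hy1⟩
        omega
    · rintro ⟨y, hy, hy1⟩
      rcases List.mem_cons.1 hy with rfl | hy
      · have := u4 hy1
        omega
      · have := v4 ⟨y, hy, hy1⟩
        omega
    · intro ξ h
      have h4 : tr3 ξ (x :: L) = tr3 ξ L * lt3 ξ x := rfl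
      rw [h4, v5 ξ h, u5 ξ h, (hT.2.2.2.2 _ _ _).2.1, (hT.2.2.2.2 _ _ _).2.2, smul_smul,
        ← zpow_add₀ h.ne']
      rfl

end GoodDAux

open GoodDAux in
theorem tGoodD : S_Lt → S_Tt → S_TriP → S_KTri → S_KF → S_GF → S_GoodD := by
  intro hL _ hT hK hF hG L s hP hs hB
  obtain ⟨U, p, q, a, b, K, u1, u2, u3, u4, u5⟩ := word hL hT hK hF L s s hP hs
  obtain ⟨h1, h2, F, f1, f2⟩ := hG p q U (mono (u3 hB.1) (u4 hB.2) u1)
  refine ⟨F, p - 1, q - 1, K, f1, ?_, ?_⟩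
  · rw [← u2]
    omega
  · intro ξ h
    obtain ⟨_, _, a3, a4⟩ := par hT s.1 ξ h
    have h3 := f2 ⟨kap s.1 ξ, kpos s.1 h⟩
    have h4 : gg (U ⟨kap s.1 ξ, kpos s.1 h⟩) = Gf U ⟨kap s.1 ξ, kpos s.1 h⟩ := rfl
    rw [u5 ξ h, (hT.2.2.2.2 _ _ 1).1, h4, h3, a3]
    change ξ ^ K * (((kap s.1 ξ + (kap s.1 ξ)⁻¹) ^ 2 - 3) * ev (kap s.1 ξ) F) = _
    rw [a4]
    ring

end Pool.Agent.HMS
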