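import Pool.Agent.HMS.Spec
import Pool.Agent.HMT.HB

/-!
# HMS, module HSB: the colourings of `addB W T`
-/

set_option autoImplicit false

namespace Pool.Agent.HMS

open Polynomial Matrix Pool.Agent.HMA Pool.Agent.HMT

namespace HSBAux

/-- The product with the matrix of a tangle in the columns 2, 3. -/
theorem prod (m a b : ℝ) (M : Matrix (Fin 3) (Fin 3) ℝ) (x : Fin 3 → ℝ) :
    ((rg false m a b).1 * M).mulVec x 0 = a * M.mulVec x 0 ∧
    ((rg false m a b).1 * M).mulVec x 1 = (a - b) * M.mulVec x 1 + b * M.mulVec x 2 ∧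
    ((rg false m a b).1 * M).mulVec x 2 = m * M.mulVec x 2 - (m - a) * M.mulVec x 1 := by
  rw [← Matrix.mulVec_mulVec]
  generalize M.mulVec x = z
  refine ⟨?_, ?_, ?_⟩
  · simp [rg, Matrix.mulVec, dotProduct, Fin.sum_univ_three]
  · simp [rg, Matrix.mulVec, dotProduct, Fin.sum_univ_three]
  · simp [rg, Matrix.mulVec, dotProduct, Fin.sum_univ_three]
    ring

end HSBAux

open HSBAux in
theorem tHSB : S_HSB := by
  intro W T ξ M n m a b hW hT x
  obtain ⟨h1, e1, t1, t2, t3⟩ := hW (a • x)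
  obtain ⟨h2, f1, f2, f3⟩ := hT (M.mulVec x 1) (M.mulVec x 2)
  obtain ⟨p0, p1, p2⟩ := HSBAux.prod m a b M x
  rw [Matrix.mulVec_smul] at e1 t2
  simp only [Pi.smul_apply, smul_eq_mul] at e1 t1 t2 t3
  refine ⟨Sum.elim h1 h2, ?_, ?_, ?_, ?_⟩
  · rw [p0, p2]
    have key := HBAux.glue (fox3 (-(ξ ^ 2)) W) (fox (-(ξ ^ 2)) T) W.b1 W.t2 W.b3 W.b2 T.nw T.sw T.ne
      (wNE (-(ξ ^ 2)) (W.ovr W.b3)) (wSW (-(ξ ^ 2)) (T.ovr T.sw)) _ _ _ _ _ h1 h2 e1 f1
      (by rw [f2]; ring) (by rw [t2]; ring)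
    have e2 : -(wNE (-(ξ ^ 2)) (W.ovr W.t2)) * (n * (a * x 1)) =
        -(wNE (-(ξ ^ 2)) (W.ovr W.t2)) * (a * n * x 1) := by ring
    rw [e2] at key
    exact key
  · show h1 W.t1 = _
    rw [t1]
    ring
  · show h2 T.se = _
    rw [p1, f3]
  · show h1 W.t3 = _
    rw [t3]
    ring

end Pool.Agent.HMS
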