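import Pool.Agent.HMS.Spec

/-!
# HMS, InvG: minors and invariants
-/

set_option autoImplicit false

namespace Pool.Agent.HMS

open Polynomial Matrix Pool.Agent.HMA Pool.Agent.HMT

namespace InvGAux

private theorem ent (A M : Matrix (Fin 3) (Fin 3) ℝ) (i j : Fin 3) :
    (A * M) i j = A i 0 * M 0 j + A i 1 * M 1 j + A i 2 * M 2 j := by
  rw [Matrix.mul_apply, Fin.sum_univ_three]

private theorem entT (m a b : ℝ) (M : Matrix (Fin 3) (Fin 3) ℝ) (j : Fin 3) :
    ((rg true m a b).1 * M) 0 j = m * M 0 j - a * M 1 j ∧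
    ((rg true m a b).1 * M) 1 j = (m - b) * M 0 j + (b - a) * M 1 j ∧
    ((rg true m a b).1 * M) 2 j = (m - a) * M 2 j := by
  refine ⟨?_, ?_, ?_⟩ <;> rw [ent] <;> simp [rg] <;> ring

private theorem entF (m a b : ℝ) (M : Matrix (Fin 3) (Fin 3) ℝ) (j : Fin 3) :
    ((rg false m a b).1 * M) 0 j = a * M 0 j ∧
    ((rg false m a b).1 * M) 1 j = (a - b) * M 1 j + b * M 2 j ∧
    ((rg false m a b).1 * M) 2 j = (a - m) * M 1 j + m * M 2 j := by
  refine ⟨?_, ?_, ?_⟩ <;> rw [ent] <;> simp [rg]

private theorem minT (m a b : ℝ) (M : Matrix (Fin 3) (Fin 3) ℝ) :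
    Dl ((rg true m a b).1 * M) = (m - a) * (m * Dl M - a * m21 M) ∧
    m21 ((rg true m a b).1 * M) = (m - a) * ((m - b) * Dl M + (b - a) * m21 M) ∧
    m23 ((rg true m a b).1 * M) = (m - a) * b * m23 M := by
  unfold Dl m21 m23
  rw [(entT m a b M 0).1, (entT m a b M 0).2.1, (entT m a b M 0).2.2, (entT m a b M 2).1,
    (entT m a b M 2).2.1, (entT m a b M 2).2.2]
  refine ⟨?_, ?_, ?_⟩ <;> ring

private theorem minF (m a b : ℝ) (M : Matrix (Fin 3) (Fin 3) ℝ) :
    Dl ((rg false m a b).1 * M) = a * (m * Dl M - (m - a) * m23 M) ∧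
    m21 ((rg false m a b).1 * M) = a * (m - b) * m21 M ∧
    m23 ((rg false m a b).1 * M) = a * (b * Dl M + (a - b) * m23 M) := by
  unfold Dl m21 m23
  rw [(entF m a b M 0).1, (entF m a b M 0).2.1, (entF m a b M 0).2.2, (entF m a b M 2).1,
    (entF m a b M 2).2.1, (entF m a b M 2).2.2]
  refine ⟨?_, ?_, ?_⟩ <;> ring

end InvGAux

open InvGAux in
theorem tInvG : S_InvG := by
  refine ⟨?_, ?_, ?_⟩
  · refine ⟨one_pos, ?_, ?_, ?_, ?_, ?_⟩
    · intro i
      fin_cases i <;> simp [Matrix.one_apply]
    · simp [Dl]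
    · simp [m21]
    · simp [m23]
    · simp [m21, m23, Dl]
  · intro m a b M
    exact ⟨(minT m a b M).1, (minF m a b M).1⟩
  · intro c m a b ha ham hb hbm M n hI
    obtain ⟨h1, h2, h3, h4, h5, h6⟩ := hI
    have hma : 0 < m - a := by linarith
    have hmb : 0 < m - b := by linarith
    have hm : 0 < m := by linarith
    cases c
    · -- columns 2, 3
      obtain ⟨e1, e2, e3⟩ := minF m a b M
      refine ⟨mul_pos ha h1, ?_, ?_, ?_, ?_, ?_⟩
      · intro i
        have s0 := h2 0
        have s1 := h2 1
        have s2 := h2 2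
        have e : ((rg false m a b).2.1 : ℝ) = a := by simp [rg]
        rw [e]
        fin_cases i
        · change ((rg false m a b).1 * M) 0 0 + ((rg false m a b).1 * M) 0 1 +
            ((rg false m a b).1 * M) 0 2 = a * n
          rw [(entF m a b M 0).1, (entF m a b M 1).1, (entF m a b M 2).1, ← s0]
          ring
        · change ((rg false m a b).1 * M) 1 0 + ((rg false m a b).1 * M) 1 1 +
            ((rg false m a b).1 * M) 1 2 = a * n
          rw [(entF m a b M 0).2.1, (entF m a b M 1).2.1, (entF m a b M 2).2.1]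
          linear_combination (a - b) * s1 + b * s2
        · change ((rg false m a b).1 * M) 2 0 + ((rg false m a b).1 * M) 2 1 +
            ((rg false m a b).1 * M) 2 2 = a * n
          rw [(entF m a b M 0).2.2, (entF m a b M 1).2.2, (entF m a b M 2).2.2]
          linear_combination (a - m) * s1 + m * s2
      · rw [e1]
        apply mul_pos ha
        nlinarith [mul_pos ha h3, mul_nonneg hma.le h4, mul_nonneg hma.le (by linarith : 0 ≤ Dl M - m23 M)]
      · rw [e2]
        exact mul_nonneg (mul_nonneg ha.le hmb.le) h4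
      · rw [e3]
        apply mul_nonneg ha.le
        nlinarith [mul_nonneg ha.le h5, mul_nonneg hb.le (by linarith : 0 ≤ Dl M - m23 M)]
      · rw [e1, e2, e3]
        have h7 : 0 ≤ a * (m - b) * (Dl M - m21 M - m23 M) :=
          mul_nonneg (mul_nonneg ha.le hmb.le) (by linarith)
        linarith
    · -- columns 1, 2
      obtain ⟨e1, e2, e3⟩ := minT m a b M
      refine ⟨mul_pos hma h1, ?_, ?_, ?_, ?_, ?_⟩
      · intro i
        have s0 := h2 0
        have s1 := h2 1
        have s2 := h2 2
        have e : ((rg true m a b).2.1 : ℝ) = m - a := by simp [rg]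
        rw [e]
        fin_cases i
        · change ((rg true m a b).1 * M) 0 0 + ((rg true m a b).1 * M) 0 1 +
            ((rg true m a b).1 * M) 0 2 = (m - a) * n
          rw [(entT m a b M 0).1, (entT m a b M 1).1, (entT m a b M 2).1]
          linear_combination m * s0 - a * s1
        · change ((rg true m a b).1 * M) 1 0 + ((rg true m a b).1 * M) 1 1 +
            ((rg true m a b).1 * M) 1 2 = (m - a) * n
          rw [(entT m a b M 0).2.1, (entT m a b M 1).2.1, (entT m a b M 2).2.1]
          linear_combination (m - b) * s0 + (b - a) * s1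
        · change ((rg true m a b).1 * M) 2 0 + ((rg true m a b).1 * M) 2 1 +
            ((rg true m a b).1 * M) 2 2 = (m - a) * n
          rw [(entT m a b M 0).2.2, (entT m a b M 1).2.2, (entT m a b M 2).2.2]
          linear_combination (m - a) * s2
      · rw [e1]
        apply mul_pos hma
        nlinarith [mul_pos hma h3, mul_nonneg ha.le (by linarith : 0 ≤ Dl M - m21 M)]
      · rw [e2]
        apply mul_nonneg hma.le
        nlinarith [mul_nonneg hmb.le (by linarith : 0 ≤ Dl M - m21 M), mul_nonneg hma.le h4]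
      · rw [e3]
        exact mul_nonneg (mul_nonneg hma.le hb.le) h5
      · rw [e1, e2, e3]
        have h7 : 0 ≤ (m - a) * b * (Dl M - m21 M - m23 M) :=
          mul_nonneg (mul_nonneg hma.le hb.le) (by linarith)
        linarith

end Pool.Agent.HMS
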