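import Pool.Agent.HMS.Spec

/-!
# HMS, LKS: the left kernel of the Fox matrix of a word, all orientations
-/

set_option autoImplicit false

namespace Pool.Agent.HMS

open Polynomial Matrix Pool.Agent.HMA Pool.Agent.HMT

namespace LKSAux

/-- A column of `single`. -/
theorem sum_single {m n : Type*} [Fintype m] [DecidableEq m] [DecidableEq n] (v : m → ℝ) (i₀ : m)
    (j₀ j : n) (w : ℝ) :
    ∑ i, v i * single i₀ j₀ w i j = if j = j₀ then w * v i₀ else 0 := by
  by_cases hj : j = j₀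
  · subst hj
    rw [if_pos rfl, Finset.sum_eq_single i₀]
    · rw [single_apply_same, mul_comm]
    · intro i _ hi
      rw [single_apply_of_row_ne (Ne.symm hi), mul_zero]
    · intro h
      exact absurd (Finset.mem_univ _) h
  · rw [if_neg hj]
    refine Finset.sum_eq_zero fun i _ => ?_
    rw [single_apply_of_col_ne _ _ (Ne.symm hj), mul_zero]

/-- The statement for a tangle. -/
def GT (T : Tangle) (ν : ℤ) (z : T.Cr → ℤ) (y : ℝ) : Prop :=
  (∀ j, ∑ i, y ^ (z i) * fox (-y) T i j =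
      (if j = T.nw then y ^ (ν + (if T.ovr T.nw then 0 else 1)) else 0) +
      (if j = T.se then y ^ (ν + (if T.und T.ne then -1 else 1) +
        (if T.ovr T.se then 0 else 1)) else 0)) ∧
    -(wNE (-y) (T.ovr T.ne)) * y ^ (z T.ne) = y ^ (ν + (if T.und T.ne then 0 else 1)) ∧
    -(wSW (-y) (T.ovr T.sw)) * y ^ (z T.sw) =
      y ^ (ν + (if T.ovr T.nw then -1 else 1) + (if T.und T.sw then 0 else 1))

/-- The balance of a tangle. -/
def BT (T : Tangle) : Prop :=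
  (if T.ovr T.nw then (1 : ℤ) else -1) + (if T.und T.sw then 1 else -1) =
    (if T.und T.ne then 1 else -1) + (if T.ovr T.se then 1 else -1)

/-- The statement for a word. -/
def GW (W : Wd) (z : W.Cr → ℤ) (y : ℝ) : Prop :=
  (∀ j, ∑ i, y ^ (z i) * fox3 (-y) W i j =
    (if j = W.t1 then y ^ ex (topS W) 0 else 0) + (if j = W.b2 then y ^ ex (botS W) 1 else 0) +
      (if j = W.t3 then y ^ ex (topS W) 2 else 0)) ∧
  -(wSW (-y) (W.ovr W.b1)) * y ^ (z W.b1) = y ^ ex (botS W) 0 ∧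
  -(wNE (-y) (W.ovr W.t2)) * y ^ (z W.t2) = y ^ ex (topS W) 1 ∧
  -(wNE (-y) (W.ovr W.b3)) * y ^ (z W.b3) = y ^ ex (botS W) 2

/-- The sign of a direction. -/
def sn (b : Bool) : ℤ := if b then 1 else -1

theorem n1 : ∀ nw : Bool, sn nw + (if nw then 0 else 1) = (if nw then 1 else 0) := by decide

theorem n2 : ∀ nw ne : Bool, sn nw + (if ne then 0 else 1) =
    (if nw then 1 else -1) + (if !ne then 1 else 0) := by decide

theorem n3 : ∀ nw sw : Bool, sn nw + (if nw then -1 else 1) + (if sw then 0 else 1) =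
    (if !sw then 1 else 0) := by decide

theorem n4 : ∀ nw ne sw se : Bool, (if nw then (1 : ℤ) else -1) + (if sw then 1 else -1) =
    (if ne then 1 else -1) + (if se then 1 else -1) →
    sn nw + (if ne then -1 else 1) + (if se then 0 else 1) =
      (if !sw then 1 else -1) + (if se then 1 else 0) := by decide

/-- In the columns 2, 3, `a` is the direction in the column 1. -/
theorem m1 : ∀ a sw nw : Bool, sn a + sn sw + sn nw + (if nw then 0 else 1) =
    (if a then 1 else -1) + (if sw then 1 else -1) + (if nw then 1 else 0) := by decide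

theorem m2 : ∀ a sw nw ne se : Bool, (if nw then (1 : ℤ) else -1) + (if sw then 1 else -1) =
    (if ne then 1 else -1) + (if se then 1 else -1) →
    sn a + sn sw + sn nw + (if ne then -1 else 1) + (if se then 0 else 1) =
      (if a then 1 else -1) + (if se then 1 else 0) := by decide

theorem m3 : ∀ a sw nw ne se : Bool, (if nw then (1 : ℤ) else -1) + (if sw then 1 else -1) =
    (if ne then 1 else -1) + (if se then 1 else -1) →
    sn a + sn sw + sn nw + (if ne then 0 else 1) =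
      (if a then 1 else -1) + (if se then 1 else -1) + (if ne then 1 else 0) := by decide

theorem m4 : ∀ a sw nw : Bool,
    sn a + sn sw + sn nw + (if nw then -1 else 1) + (if sw then 0 else 1) =
      (if a then 1 else -1) + (if sw then 1 else 0) := by decide

theorem k1 : ∀ nw ne sw se x : Bool, (if nw then (1 : ℤ) else -1) + (if sw then 1 else -1) =
    (if ne then 1 else -1) + (if se then 1 else -1) →
    (if !sw then (1 : ℤ) else -1) + (if se then 1 else -1) + (if x then 1 else 0) =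
      (if nw then 1 else -1) + (if !ne then 1 else -1) + (if x then 1 else 0) := by decide

theorem base (S T : Tangle) (hS : BT S) (hT : BT T) (h : S.ovr S.se = T.und T.sw)
    (z₁ : S.Cr → ℤ) (z₂ : T.Cr → ℤ) (y : ℝ) (gS : GT S (sn (S.ovr S.nw)) z₁ y)
    (gT : GT T (sn (!S.und S.sw) + sn (T.und T.sw) + sn (T.ovr T.nw)) z₂ y) :
    GW (.base S T) (Sum.elim z₁ z₂) y := by
  obtain ⟨s1, s2, s3⟩ := gS
  obtain ⟨t1, t2, t3⟩ := gT
  rw [n2] at s2
  rw [n3] at s3
  rw [m3 _ _ _ _ _ hT] at t2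
  rw [m4] at t3
  refine ⟨?_, s3, s2, t2⟩
  intro j
  rcases j with j | j
  · change (∑ i : S.Cr ⊕ T.Cr, y ^ (Sum.elim z₁ z₂ i) *
      fromBlocks (fox (-y) S) 0
        (single T.sw S.se (wSW (-y) (T.ovr T.sw))) (fox (-y) T) i (Sum.inl j)) =
      (if (Sum.inl j : S.Cr ⊕ T.Cr) = Sum.inl S.nw then
        y ^ (if S.ovr S.nw then (1 : ℤ) else 0) else 0) +
      (if (Sum.inl j : S.Cr ⊕ T.Cr) = Sum.inr T.se then y ^ ex (botS (.base S T)) 1 else 0) +
      (if (Sum.inl j : S.Cr ⊕ T.Cr) = Sum.inr T.nw then y ^ ex (topS (.base S T)) 2 else 0)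
    rw [Fintype.sum_sum_type]
    simp only [Sum.elim_inl, Sum.elim_inr, fromBlocks_apply₁₁, fromBlocks_apply₂₁,
      Sum.inl.injEq, reduceCtorEq, if_false, add_zero]
    rw [s1 j, sum_single, n1, n4 _ _ _ _ hS]
    have e3 : wSW (-y) (T.ovr T.sw) * y ^ z₂ T.sw =
        -y ^ ((if !S.und S.sw then 1 else -1) + (if S.ovr S.se then 1 else 0) : ℤ) := by
      rw [h]
      linear_combination -t3
    rw [e3]
    split_ifs <;> ring
  · change (∑ i : S.Cr ⊕ T.Cr, y ^ (Sum.elim z₁ z₂ i) *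
      fromBlocks (fox (-y) S) 0
        (single T.sw S.se (wSW (-y) (T.ovr T.sw))) (fox (-y) T) i (Sum.inr j)) =
      (if (Sum.inr j : S.Cr ⊕ T.Cr) = Sum.inl S.nw then y ^ ex (topS (.base S T)) 0 else 0) +
      (if (Sum.inr j : S.Cr ⊕ T.Cr) = Sum.inr T.se then
        y ^ ((if !S.und S.sw then 1 else -1) + (if T.ovr T.se then 1 else 0) : ℤ) else 0) +
      (if (Sum.inr j : S.Cr ⊕ T.Cr) = Sum.inr T.nw then
        y ^ ((if S.ovr S.nw then 1 else -1) + (if !S.und S.ne then 1 else -1) +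
          (if T.ovr T.nw then 1 else 0) : ℤ) else 0)
    rw [Fintype.sum_sum_type]
    simp only [Sum.elim_inl, Sum.elim_inr, fromBlocks_apply₁₂, fromBlocks_apply₂₂,
      Sum.inr.injEq, reduceCtorEq, if_false, zero_add, Matrix.zero_apply, mul_zero,
      Finset.sum_const_zero]
    rw [t1 j, m2 _ _ _ _ _ hT, m1, ← h, k1 _ _ _ _ _ hS]
    ring

theorem addA (W : Wd) (T : Tangle) (hT : BT T) (h1 : und3 W W.b1 = !T.ovr T.nw)
    (h2 : W.ovr W.b2 = !T.und T.ne) (z₁ : W.Cr → ℤ) (z₂ : T.Cr → ℤ) (y : ℝ) (gW : GW W z₁ y)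
    (gT : GT T (sn (T.ovr T.nw)) z₂ y) : GW (.addA W T) (Sum.elim z₁ z₂) y := by
  obtain ⟨s1, s2, s3, s4⟩ := gW
  obtain ⟨t1, t2, t3⟩ := gT
  rw [n2] at t2
  rw [n3] at t3
  have c1 : (!und3 W W.b1) = T.ovr T.nw := by rw [h1, Bool.not_not]
  have f0 : ex (botS W) 0 = (if T.ovr T.nw then 1 else 0) := by
    change (if (!und3 W W.b1) then (1 : ℤ) else 0) = _
    rw [c1]
  have f1 : ex (botS W) 1 = (if T.ovr T.nw then 1 else -1) + (if !T.und T.ne then 1 else 0) := by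
    change (if (!und3 W W.b1) then (1 : ℤ) else -1) + (if W.ovr W.b2 then 1 else 0) = _
    rw [c1, h2]
  have f2 : ex (botS W) 2 = ex (botS (.addA W T)) 2 := by
    change (if (!und3 W W.b1) then (1 : ℤ) else -1) + (if W.ovr W.b2 then 1 else -1) +
      (if und3 W W.b3 then 1 else 0) = (if !T.und T.sw then 1 else -1) +
        (if T.ovr T.se then 1 else -1) + (if und3 W W.b3 then 1 else 0)
    rw [c1, h2, k1 _ _ _ _ _ hT]
  rw [f0] at s2
  rw [f2] at s4
  refine ⟨?_, t3, s3, s4⟩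
  intro j
  rcases j with j | j
  · change (∑ i : W.Cr ⊕ T.Cr, y ^ (Sum.elim z₁ z₂ i) *
      fromBlocks (fox3 (-y) W) (single W.b1 T.nw (wSW (-y) (W.ovr W.b1)))
        (single T.ne W.b2 (wNE (-y) (T.ovr T.ne))) (fox (-y) T) i (Sum.inl j)) =
      (if (Sum.inl j : W.Cr ⊕ T.Cr) = Sum.inl W.t1 then y ^ ex (topS W) 0 else 0) +
      (if (Sum.inl j : W.Cr ⊕ T.Cr) = Sum.inr T.se then y ^ ex (botS (.addA W T)) 1 else 0) +
      (if (Sum.inl j : W.Cr ⊕ T.Cr) = Sum.inl W.t3 then y ^ ex (topS W) 2 else 0)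
    rw [Fintype.sum_sum_type]
    simp only [Sum.elim_inl, Sum.elim_inr, fromBlocks_apply₁₁, fromBlocks_apply₂₁,
      Sum.inl.injEq, reduceCtorEq, if_false, add_zero]
    rw [s1 j, sum_single, f1]
    have e3 : wNE (-y) (T.ovr T.ne) * y ^ z₂ T.ne =
        -y ^ ((if T.ovr T.nw then 1 else -1) + (if !T.und T.ne then 1 else 0) : ℤ) := by
      linear_combination -t2
    rw [e3]
    split_ifs <;> ring
  · change (∑ i : W.Cr ⊕ T.Cr, y ^ (Sum.elim z₁ z₂ i) *
      fromBlocks (fox3 (-y) W) (single W.b1 T.nw (wSW (-y) (W.ovr W.b1)))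
        (single T.ne W.b2 (wNE (-y) (T.ovr T.ne))) (fox (-y) T) i (Sum.inr j)) =
      (if (Sum.inr j : W.Cr ⊕ T.Cr) = Sum.inl W.t1 then y ^ ex (topS W) 0 else 0) +
      (if (Sum.inr j : W.Cr ⊕ T.Cr) = Sum.inr T.se then
        y ^ ((if !T.und T.sw then 1 else -1) + (if T.ovr T.se then 1 else 0) : ℤ) else 0) +
      (if (Sum.inr j : W.Cr ⊕ T.Cr) = Sum.inl W.t3 then y ^ ex (topS W) 2 else 0)
    rw [Fintype.sum_sum_type]
    simp only [Sum.elim_inl, Sum.elim_inr, fromBlocks_apply₁₂, fromBlocks_apply₂₂,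
      Sum.inr.injEq, reduceCtorEq, if_false, zero_add, add_zero]
    rw [t1 j, sum_single, n1, n4 _ _ _ _ hT]
    have e3 : wSW (-y) (W.ovr W.b1) * y ^ z₁ W.b1 =
        -y ^ (if T.ovr T.nw then (1 : ℤ) else 0) := by
      linear_combination -s2
    rw [e3]
    split_ifs <;> ring

theorem addB (W : Wd) (T : Tangle) (hT : BT T) (h1 : W.ovr W.b2 = T.und T.sw)
    (h2 : und3 W W.b3 = T.ovr T.nw) (z₁ : W.Cr → ℤ) (z₂ : T.Cr → ℤ) (y : ℝ) (gW : GW W z₁ y)
    (gT : GT T (sn (!und3 W W.b1) + sn (T.und T.sw) + sn (T.ovr T.nw)) z₂ y) :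
    GW (.addB W T) (Sum.elim z₁ z₂) y := by
  obtain ⟨s1, s2, s3, s4⟩ := gW
  obtain ⟨t1, t2, t3⟩ := gT
  rw [m3 _ _ _ _ _ hT] at t2
  rw [m4] at t3
  have f1 : ex (botS W) 1 = (if !und3 W W.b1 then 1 else -1) + (if T.und T.sw then 1 else 0) := by
    change (if (!und3 W W.b1) then (1 : ℤ) else -1) + (if W.ovr W.b2 then 1 else 0) = _
    rw [h1]
  have f2 : ex (botS W) 2 = (if !und3 W W.b1 then 1 else -1) + (if T.und T.sw then 1 else -1) +
      (if T.ovr T.nw then 1 else 0) := by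
    change (if (!und3 W W.b1) then (1 : ℤ) else -1) + (if W.ovr W.b2 then 1 else -1) +
      (if und3 W W.b3 then 1 else 0) = _
    rw [h1, h2]
  rw [f2] at s4
  refine ⟨?_, s2, s3, t2⟩
  intro j
  rcases j with j | j
  · change (∑ i : W.Cr ⊕ T.Cr, y ^ (Sum.elim z₁ z₂ i) *
      fromBlocks (fox3 (-y) W) (single W.b3 T.nw (wNE (-y) (W.ovr W.b3)))
        (single T.sw W.b2 (wSW (-y) (T.ovr T.sw))) (fox (-y) T) i (Sum.inl j)) =
      (if (Sum.inl j : W.Cr ⊕ T.Cr) = Sum.inl W.t1 then y ^ ex (topS W) 0 else 0) +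
      (if (Sum.inl j : W.Cr ⊕ T.Cr) = Sum.inr T.se then y ^ ex (botS (.addB W T)) 1 else 0) +
      (if (Sum.inl j : W.Cr ⊕ T.Cr) = Sum.inl W.t3 then y ^ ex (topS W) 2 else 0)
    rw [Fintype.sum_sum_type]
    simp only [Sum.elim_inl, Sum.elim_inr, fromBlocks_apply₁₁, fromBlocks_apply₂₁,
      Sum.inl.injEq, reduceCtorEq, if_false, add_zero]
    rw [s1 j, sum_single, f1]
    have e3 : wSW (-y) (T.ovr T.sw) * y ^ z₂ T.sw =
        -y ^ ((if !und3 W W.b1 then 1 else -1) + (if T.und T.sw then 1 else 0) : ℤ) := by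
      linear_combination -t3
    rw [e3]
    split_ifs <;> ring
  · change (∑ i : W.Cr ⊕ T.Cr, y ^ (Sum.elim z₁ z₂ i) *
      fromBlocks (fox3 (-y) W) (single W.b3 T.nw (wNE (-y) (W.ovr W.b3)))
        (single T.sw W.b2 (wSW (-y) (T.ovr T.sw))) (fox (-y) T) i (Sum.inr j)) =
      (if (Sum.inr j : W.Cr ⊕ T.Cr) = Sum.inl W.t1 then y ^ ex (topS W) 0 else 0) +
      (if (Sum.inr j : W.Cr ⊕ T.Cr) = Sum.inr T.se then
        y ^ ((if !und3 W W.b1 then 1 else -1) + (if T.ovr T.se then 1 else 0) : ℤ) else 0) +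
      (if (Sum.inr j : W.Cr ⊕ T.Cr) = Sum.inl W.t3 then y ^ ex (topS W) 2 else 0)
    rw [Fintype.sum_sum_type]
    simp only [Sum.elim_inl, Sum.elim_inr, fromBlocks_apply₁₂, fromBlocks_apply₂₂,
      Sum.inr.injEq, reduceCtorEq, if_false, zero_add, add_zero]
    rw [t1 j, sum_single, m2 _ _ _ _ _ hT, m1]
    have e3 : wNE (-y) (W.ovr W.b3) * y ^ z₁ W.b3 =
        -y ^ ((if !und3 W W.b1 then 1 else -1) + (if T.und T.sw then 1 else -1) +
          (if T.ovr T.nw then 1 else 0) : ℤ) := by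
      linear_combination -s4
    rw [e3]
    split_ifs <;> ring

end LKSAux

theorem tLKS : S_Bal → S_LK → S_LKS := by
  intro hB hL W
  induction W with
  | base S T =>
    rintro ⟨hS, hT, h⟩
    obtain ⟨z₁, e₁⟩ := hL S hS (LKSAux.sn (S.ovr S.nw))
    obtain ⟨z₂, e₂⟩ := hL T hT
      (LKSAux.sn (!S.und S.sw) + LKSAux.sn (T.und T.sw) + LKSAux.sn (T.ovr T.nw))
    exact ⟨Sum.elim z₁ z₂, fun y hy =>
      LKSAux.base S T (hB S hS) (hB T hT) h z₁ z₂ y (e₁ y hy) (e₂ y hy)⟩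
  | addA W T ih =>
    rintro ⟨hW, hT, h1, h2⟩
    obtain ⟨z₁, e₁⟩ := ih hW
    obtain ⟨z₂, e₂⟩ := hL T hT (LKSAux.sn (T.ovr T.nw))
    exact ⟨Sum.elim z₁ z₂, fun y hy =>
      LKSAux.addA W T (hB T hT) h1 h2 z₁ z₂ y (e₁ y hy) (e₂ y hy)⟩
  | addB W T ih =>
    rintro ⟨hW, hT, h1, h2⟩
    obtain ⟨z₁, e₁⟩ := ih hW
    obtain ⟨z₂, e₂⟩ := hL T hT
      (LKSAux.sn (!und3 W W.b1) + LKSAux.sn (T.und T.sw) + LKSAux.sn (T.ovr T.nw))
    exact ⟨Sum.elim z₁ z₂, fun y hy =>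
      LKSAux.addB W T (hB T hT) h1 h2 z₁ z₂ y (e₁ y hy) (e₂ y hy)⟩

end Pool.Agent.HMS
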