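import Pool.Agent.HMS.Spec

/-!
# HMS, LinW: linear algebra of the words
-/

set_option autoImplicit false

namespace Pool.Agent.HMS

open Polynomial Matrix Pool.Agent.HMA Pool.Agent.HMT

theorem tLinW : S_Mab → S_TanG → S_InvG → S_DetSA → S_DetSB → S_HSA → S_HSB → S_BaseS → S_Tt →
    S_LinW := by
  intro hMab hTan hInv hDA hDB hHA hHB hBase hTt W hO ξ hξ
  obtain ⟨i1, -, i3⟩ := hInv
  induction W with
  | base S T =>
    obtain ⟨hS, hT, -⟩ := hO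
    obtain ⟨s1, s2, s3, s4⟩ := hMab S ξ hS hξ
    obtain ⟨t1, t2, t3, t4⟩ := hMab T ξ hT hξ
    have e1 : (tr3 ξ (lst (.base S T))).1 = (rg false (mT T ξ) (aT T ξ) (bT T ξ)).1 *
        (rg true (mT S ξ) (aT S ξ) (bT S ξ)).1 := by
      simp only [lst, tr3, lt3, one_mul, Prod.fst_mul]
    have e2 : (tr3 ξ (lst (.base S T))).2.1 = aT T ξ * (mT S ξ - aT S ξ) := by
      simp only [lst, tr3, lt3, one_mul, Prod.snd_mul, Prod.fst_mul]
      rfl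
    rw [e1, e2]
    refine ⟨?_, hBase S T ξ hξ hS hT⟩
    have h1 := i3 true _ _ _ s1 s2 s3 s4 1 1 i1
    have h2 := i3 false _ _ _ t1 t2 t3 t4 _ _ h1
    rw [Matrix.mul_one, mul_one] at h2
    exact h2
  | addA W T ih =>
    obtain ⟨hW, hT, -⟩ := hO
    obtain ⟨h1, h2⟩ := ih hW
    obtain ⟨t1, t2, t3, t4⟩ := hMab T ξ hT hξ
    have e : tr3 ξ (lst (.addA W T)) = lt3 ξ (true, T) * tr3 ξ (lst W) := by
      simp only [lst, hTt.1, tr3, one_mul]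
    have e1 : (tr3 ξ (lst (.addA W T))).1 = (rg true (mT T ξ) (aT T ξ) (bT T ξ)).1 *
        (tr3 ξ (lst W)).1 := by
      rw [e]
      rfl
    have e2 : (tr3 ξ (lst (.addA W T))).2.1 = (mT T ξ - aT T ξ) * (tr3 ξ (lst W)).2.1 := by
      rw [e]
      rfl
    rw [e1, e2]
    refine ⟨i3 true _ _ _ t1 t2 t3 t4 _ _ h1, hDA W T ξ _ _ hξ hT h1 h2, ?_⟩
    exact hHA W T ξ _ _ _ _ _ h2.2 (hTan T ξ hT hξ).2.1
  | addB W T ih =>
    obtain ⟨hW, hT, -⟩ := hO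
    obtain ⟨h1, h2⟩ := ih hW
    obtain ⟨t1, t2, t3, t4⟩ := hMab T ξ hT hξ
    have e : tr3 ξ (lst (.addB W T)) = lt3 ξ (false, T) * tr3 ξ (lst W) := by
      simp only [lst, hTt.1, tr3, one_mul]
    have e1 : (tr3 ξ (lst (.addB W T))).1 = (rg false (mT T ξ) (aT T ξ) (bT T ξ)).1 *
        (tr3 ξ (lst W)).1 := by
      rw [e]
      rfl
    have e2 : (tr3 ξ (lst (.addB W T))).2.1 = aT T ξ * (tr3 ξ (lst W)).2.1 := by
      rw [e]
      rfl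
    rw [e1, e2]
    refine ⟨i3 false _ _ _ t1 t2 t3 t4 _ _ h1, hDB W T ξ _ _ hξ hT h1 h2, ?_⟩
    exact hHB W T ξ _ _ _ _ _ h2.2 (hTan T ξ hT hξ).2.2

end Pool.Agent.HMS
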