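import Pool.Agent.HMS.Spec

/-!
# HMS, Lt: the letters of a path
-/

set_option autoImplicit false

namespace Pool.Agent.HMS

open Polynomial Matrix Pool.Agent.HMA Pool.Agent.HMT

/-- Module `Lt`: the letters of a path. -/
theorem tLt : S_Dt → S_Lt := by
  intro hD x s s' hS
  obtain ⟨c, T⟩ := x
  obtain ⟨s1, s2, s3⟩ := s
  obtain ⟨t1, t2, t3⟩ := s'
  obtain ⟨hT, hS⟩ := hS
  obtain ⟨hp, -⟩ := hD T hT
  cases c
  · obtain ⟨h1, h2, h3, h4, h5⟩ : s2 = T.und T.sw ∧ s3 = T.ovr T.nw ∧ t2 = T.ovr T.se ∧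
        t3 = T.und T.ne ∧ t1 = s1 := by simpa using hS
    clear hS
    refine ⟨fun h => absurd h (by simp), fun _ => ?_⟩
    rcases hp with ⟨d, e1, e2, e3, e4, e5⟩ | ⟨d, e1, e2, e3, e4, e5⟩ | ⟨d, e1, e2, e3, e4, e5⟩ <;>
    cases d <;> simp_all [swp]
  · obtain ⟨h1, h2, h3, h4, h5⟩ : s1 = T.ovr T.nw ∧ s2 = !T.und T.ne ∧ t1 = !T.und T.sw ∧
        t2 = T.ovr T.se ∧ t3 = s3 := by simpa using hS
    clear hS
    refine ⟨fun _ => ?_, fun h => absurd h (by simp)⟩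
    rcases hp with ⟨d, e1, e2, e3, e4, e5⟩ | ⟨d, e1, e2, e3, e4, e5⟩ | ⟨d, e1, e2, e3, e4, e5⟩ <;>
    cases d <;> simp_all [swp]

end Pool.Agent.HMS
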