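import Pool.Agent.HMS.Spec

/-!
# HMS, Mab: the numbers of a tangle
-/

set_option autoImplicit false

namespace Pool.Agent.HMS

open Polynomial Matrix Pool.Agent.HMA Pool.Agent.HMT

namespace MabAux

theorem kap_pos (d : Bool) {ξ : ℝ} (h : 0 < ξ) : 0 < kap d ξ := by
  unfold kap
  split
  · exact h
  · exact inv_pos.2 h

theorem kap_add (d : Bool) (ξ : ℝ) : ξ + ξ⁻¹ = kap d ξ + kap (!d) ξ := by
  unfold kap
  cases d <;> simp [add_comm]

end MabAux

open MabAux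

theorem tMab : S_Dt → S_Pos → S_Pos2 → S_Mab := by
  intro hDt hPos hPos2 T ξ hO hξ
  obtain ⟨h, -⟩ := hDt T hO
  rcases h with ⟨d, -, -, -, -, x, p, q, K, hF, -, he⟩ | ⟨d, -, -, -, -, x, p, q, K, hF, -, he⟩ |
    ⟨o, -, -, -, -, n, d, p, q, p', q', K, hn, hd, -, -, he⟩
  · obtain ⟨e1, e2, e3⟩ := he ξ hξ
    obtain ⟨h1, h2⟩ := hPos2 _ _ x hF ξ hξ
    have hc : 0 < ξ ^ K := zpow_pos hξ K
    have k1 := kap_pos d hξ
    have k2 := kap_pos (!d) hξ
    rw [e1, e2, e3, kap_add d ξ]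
    have h3 := h2 (!d)
    have h4 := h2 d
    refine ⟨by positivity, ?_, by positivity, ?_⟩
    · nlinarith [mul_pos hc h3]
    · nlinarith [mul_pos hc (mul_pos k2 h1)]
  · obtain ⟨e1, e2, e3⟩ := he ξ hξ
    obtain ⟨h1, h2⟩ := hPos2 _ _ x hF ξ hξ
    have hc : 0 < ξ ^ K := zpow_pos hξ K
    have k1 := kap_pos d hξ
    have k2 := kap_pos (!d) hξ
    rw [e1, e2, e3, kap_add d ξ]
    have h3 := h2 (!d)
    have h4 := h2 d
    refine ⟨by positivity, ?_, by positivity, ?_⟩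
    · nlinarith [mul_pos hc (mul_pos k2 h1)]
    · nlinarith [mul_pos hc h3]
  · obtain ⟨e1, e2, e3⟩ := he ξ hξ
    have h1 := hPos.2 _ _ n hn ξ hξ
    have h2 := hPos.2 _ _ d hd ξ hξ
    have hc : 0 < ξ ^ K := zpow_pos hξ K
    have k1 := kap_pos o hξ
    rw [e1, e2, e3]
    refine ⟨by positivity, ?_, by positivity, ?_⟩
    · nlinarith [mul_pos hc h1]
    · nlinarith [mul_pos hc (mul_pos k1 h2)]

end Pool.Agent.HMS
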