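import Pool.Agent.HMS.Spec

set_option autoImplicit false

/-!
# HMS, Mrg: merging two letters
-/

namespace Pool.Agent.HMS

open Polynomial Matrix Pool.Agent.HMA Pool.Agent.HMT

namespace MrgAux

theorem rgT (m₁ a₁ b₁ m₂ a₂ b₂ : ℝ) :
    rg true (m₁ * m₂ - (m₁ - b₁) * a₂) (a₁ * m₂ - a₁ * a₂ + b₁ * a₂) (b₁ * b₂) =
      rg true m₂ a₂ b₂ * rg true m₁ a₁ b₁ := by
  refine Prod.ext ?_ (Prod.ext ?_ ?_)
  · ext i j
    fin_cases i <;> fin_cases j <;> simp [rg, Matrix.mul_apply] <;> ring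
  · simp [rg]; ring
  · simp [rg]; ring

theorem rgF (m₁ a₁ b₁ m₂ a₂ b₂ : ℝ) :
    rg false (m₁ * m₂ - b₁ * (m₂ - a₂)) (a₁ * a₂) (m₁ * b₂ + b₁ * a₂ - b₁ * b₂) =
      rg false m₂ a₂ b₂ * rg false m₁ a₁ b₁ := by
  refine Prod.ext ?_ (Prod.ext ?_ ?_)
  · ext i j
    fin_cases i <;> fin_cases j <;> simp [rg, Matrix.mul_apply] <;> ring
  · simp [rg]; ring
  · simp [rg]; ring

end MrgAux

theorem tMrg : S_RelU → S_Dt → S_Mab → S_Hor → S_Ver → S_Mrg := by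
  intro hU hD hM hH hV S T ξ hξ hS hT
  have rS := (hD S hS).2 ξ hξ
  have rT := (hD T hT).2 ξ hξ
  obtain ⟨ha1, ha2, hb1, hb2⟩ := hM S ξ hS hξ
  obtain ⟨ka1, ka2, kb1, kb2⟩ := hM T ξ hT hξ
  have hm1 : 0 < mT S ξ := ha1.trans ha2
  have hm2 : 0 < mT T ξ := ka1.trans ka2
  have pV : 0 < mT S ξ * mT T ξ - (mT S ξ - bT S ξ) * aT T ξ := by
    nlinarith [mul_pos hm1 (sub_pos.2 ka2), mul_pos hb1 ka1]
  have pH : 0 < mT S ξ * mT T ξ - bT S ξ * (mT T ξ - aT T ξ) := by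
    nlinarith [mul_pos hm2 (sub_pos.2 hb2), mul_pos hb1 ka1]
  obtain ⟨v1, v2, v3⟩ := hU _ _ _ _ _ (hV S T ξ _ _ _ _ _ _ rS rT pV)
  obtain ⟨w1, w2, w3⟩ := hU _ _ _ _ _ (hH S T ξ _ _ _ _ _ _ rS rT pH)
  constructor
  · simp only [lt3]
    rw [v1, v2, v3]
    exact MrgAux.rgT _ _ _ _ _ _
  · simp only [lt3]
    rw [w1, w2, w3]
    exact MrgAux.rgF _ _ _ _ _ _

end Pool.Agent.HMS
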