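import Pool.Agent.HMS.Spec

/-!
# HMS, module MrgP: merging the last two letters
-/

set_option autoImplicit false

namespace Pool.Agent.HMS

open Polynomial Matrix Pool.Agent.HMA Pool.Agent.HMT

namespace MrgPAux

/-- The merged tangle. -/
def mt (c : Bool) (S T : Tangle) : Tangle := if c then .ver S T else .hor S T

theorem stp (c : Bool) (S T : Tangle) (s r s' : St) (h1 : Stp (c, S) s r) (h2 : Stp (c, T) r s') :
    Stp (c, mt c S T) s s' := by
  obtain ⟨oS, h1⟩ := h1
  obtain ⟨oT, h2⟩ := h2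
  cases c with
  | true =>
    simp only [if_true] at h1 h2
    obtain ⟨a1, a2, a3, a4, a5⟩ := h1
    obtain ⟨b1, b2, b3, b4, b5⟩ := h2
    refine ⟨⟨oS, oT, ?_, ?_⟩, ?_⟩
    · have := a3.symm.trans b1
      rw [← this, Bool.not_not]
    · exact a4.symm.trans b2
    · simp only [if_true]
      exact ⟨a1, a2, b3, b4, b5.trans a5⟩
  | false =>
    simp only [Bool.false_eq_true, if_false] at h1 h2
    obtain ⟨a1, a2, a3, a4, a5⟩ := h1
    obtain ⟨b1, b2, b3, b4, b5⟩ := h2
    refine ⟨⟨oS, oT, ?_, ?_⟩, ?_⟩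
    · exact a4.symm.trans b2
    · exact a3.symm.trans b1
    · simp only [Bool.false_eq_true, if_false]
      exact ⟨a1, a2, b3, b4, b5.trans a5⟩

theorem sigA (L L' : List Ltr) : sigL (L ++ L') = sigL L + sigL L' := by
  unfold sigL
  rw [List.map_append, List.sum_append]

theorem sigM (L : List Ltr) (c : Bool) (S T : Tangle) :
    sigL (L ++ [(c, mt c S T)]) = sigL (L ++ [(c, S), (c, T)]) := by
  rw [sigA, sigA]
  congr 1
  unfold sigL
  cases c with
  | true =>
    simp only [mt, if_true, List.map_cons, List.map_nil, List.sum_cons, List.sum_nil, faces, positive]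
    push_cast
    ring
  | false =>
    simp only [mt, Bool.false_eq_true, if_false, List.map_cons, List.map_nil, List.sum_cons,
      List.sum_nil, faces, positive]
    push_cast
    ring

theorem trM (hT : S_Tt) (hM : S_Mrg) (L : List Ltr) (c : Bool) (S T : Tangle) (ξ : ℝ) (hξ : 0 < ξ)
    (oS : S.Oriented) (oT : T.Oriented) :
    tr3 ξ (L ++ [(c, S), (c, T)]) = tr3 ξ (L ++ [(c, mt c S T)]) := by
  rw [hT.1, hT.1]
  have e1 : tr3 ξ [(c, S), (c, T)] = 1 * lt3 ξ (c, T) * lt3 ξ (c, S) := rfl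
  have e2 : tr3 ξ [(c, mt c S T)] = 1 * lt3 ξ (c, mt c S T) := rfl
  rw [e1, e2, one_mul, one_mul]
  have h := hM S T ξ hξ oS oT
  cases c with
  | true =>
    have e3 : mt true S T = .ver S T := rfl
    rw [e3, h.1]
  | false =>
    have e3 : mt false S T = .hor S T := rfl
    rw [e3, h.2]

end MrgPAux

theorem tMrgP (hT : S_Tt) (hM : S_Mrg) (hP : S_Pp) : S_MrgP := by
  intro L c S T s h
  obtain ⟨r, hr, r1, h1, r2, h2, h3⟩ := (hP.1 L [(c, S), (c, T)] s s).1 h
  have h3' : r2 = s := h3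
  subst h3'
  have hs := MrgPAux.stp c S T r r1 r2 h1 h2
  refine ⟨(hP.1 L [(c, MrgPAux.mt c S T)] r2 r2).2 ⟨r, hr, r2, hs, rfl⟩, ?_⟩
  rintro ⟨F, p, q, K, hF, hpq, hg⟩
  refine ⟨F, p, q, K, hF, hpq.trans (MrgPAux.sigM L c S T), fun ξ hξ => ?_⟩
  rw [MrgPAux.trM hT hM L c S T ξ hξ h1.1 h2.1]
  exact hg ξ hξ

end Pool.Agent.HMS
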