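import Pool.Agent.HMS.Spec

set_option autoImplicit false

namespace Pool.Agent.HMS

open Polynomial Matrix Pool.Agent.HMA Pool.Agent.HMT

namespace NrmAux

theorem rot {L M : List Ltr} (h : L.IsRotated M) : ∃ l₁ l₂ : List Ltr, L = l₁ ++ l₂ ∧ l₂ ++ l₁ = M := by
  obtain ⟨n, hn, h⟩ := List.isRotated_iff_mod.1 h
  refine ⟨L.take n, L.drop n, (List.take_append_drop n L).symm, ?_⟩
  rw [← h, List.rotate_eq_drop_append_take hn]

theorem rotApp (A B : List Ltr) : (A ++ B).IsRotated (B ++ A) := List.isRotated_append

theorem lastFalse (N : List Ltr) (h : ∃ x ∈ N, x.1 = false) :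
    ∃ (P : List Ltr) (f : Ltr) (Q : List Ltr), N = P ++ f :: Q ∧ f.1 = false ∧ ∀ x ∈ Q, x.1 = true := by
  induction N with
  | nil => obtain ⟨x, hx, _⟩ := h; simp at hx
  | cons a N ih =>
    by_cases h' : ∃ x ∈ N, x.1 = false
    · obtain ⟨P, f, Q, h1, h2, h3⟩ := ih h'
      exact ⟨a :: P, f, Q, by rw [h1]; rfl, h2, h3⟩
    · obtain ⟨x, hx, hx2⟩ := h
      rcases List.mem_cons.1 hx with h4 | h4
      · subst h4
        refine ⟨[], x, N, rfl, hx2, fun y hy => ?_⟩
        cases h5 : y.1 with
        | true => rfl
        | false => exact absurd ⟨y, hy, h5⟩ h'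
      · exact absurd ⟨x, h4, hx2⟩ h'

theorem altOr (M : List Ltr) : ∀ c : Bool, (∀ y, M.head? = some y → y.1 = c) →
    altB c M ∨ ∃ (A : List Ltr) (c' : Bool) (S T : Tangle) (B : List Ltr),
      M = A ++ (c', S) :: (c', T) :: B := by
  induction M with
  | nil => intro c _; exact Or.inl trivial
  | cons x M ih =>
    intro c hc
    have hx : x.1 = c := hc x rfl
    cases M with
    | nil => exact Or.inl ⟨hx, trivial⟩
    | cons y M' =>
      by_cases hy : y.1 = x.1
      · right
        refine ⟨[], x.1, x.2, y.2, M', ?_⟩
        rw [List.nil_append]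
        have h1 : (x.1, x.2) = x := rfl
        have h2 : (x.1, y.2) = y := by rw [← hy]
        rw [h1, h2]
      · have hy2 : y.1 = !c := by
          rw [hx] at hy
          revert hy
          cases y.1 <;> cases c <;> simp
        rcases ih (!c) (fun z hz => by
          have : y = z := by simpa using hz
          rw [← this]; exact hy2) with h | ⟨A, c', S, T, B, h⟩
        · exact Or.inl ⟨hx, h⟩
        · exact Or.inr ⟨x :: A, c', S, T, B, by rw [h]; rfl⟩

theorem par (f : Ltr) (M : List Ltr) : ∀ c : Bool, altB c (M ++ [f]) →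
    (Even M.length → f.1 = c) ∧ (¬ Even M.length → f.1 = !c) := by
  induction M with
  | nil =>
    intro c h
    exact ⟨fun _ => h.1, fun h' => absurd (by simp) h'⟩
  | cons x M ih =>
    intro c h
    obtain ⟨h1, h2⟩ := ih (!c) h.2
    constructor
    · intro h3
      have : ¬ Even M.length := by
        rw [List.length_cons, Nat.even_add_one] at h3
        exact h3
      rw [h2 this, Bool.not_not]
    · intro h3
      have : Even M.length := by
        rw [List.length_cons, Nat.even_add_one, not_not] at h3
        exact h3
      exact h1 this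

end NrmAux

open NrmAux in
theorem tNrm : S_Nrm := by
  intro L hL
  obtain ⟨⟨t, htL, ht⟩, g, hgL, hg⟩ := hL
  obtain ⟨A, B, hAB⟩ := List.append_of_mem htL
  -- the rotation beginning with t
  have hr1 : L.IsRotated (t :: (B ++ A)) := by
    rw [hAB]
    have := rotApp A (t :: B)
    simpa using this
  have hgN : ∃ x ∈ t :: (B ++ A), x.1 = false := by
    refine ⟨g, ?_, hg⟩
    rw [hAB] at hgL
    simp only [List.mem_append, List.mem_cons] at hgL ⊢
    tauto
  obtain ⟨P, f, Q, hN, hf, hQ⟩ := lastFalse _ hgN
  have hr2 : L.IsRotated ((Q ++ P) ++ [f]) := by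
    have h1 : (t :: (B ++ A)).IsRotated (Q ++ (P ++ [f])) := by
      rw [hN]
      have := rotApp (P ++ [f]) Q
      simpa using this
    rw [List.append_assoc]
    exact hr1.trans h1
  have hhead : ∀ y, ((Q ++ P) ++ [f]).head? = some y → y.1 = true := by
    intro y hy
    cases Q with
    | cons q Q' =>
      have : q = y := by simpa using hy
      rw [← this]
      exact hQ q (by simp)
    | nil =>
      cases P with
      | nil =>
        have h1 : t = f := by
          have := congrArg List.head? hN
          simpa using this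
        rw [h1, hf] at ht
        exact absurd ht (by simp)
      | cons p P' =>
        have h1 : t = p := by
          have := congrArg List.head? hN
          simpa using this
        have h2 : p = y := by simpa using hy
        rw [← h2, ← h1]
        exact ht
  rcases altOr _ true hhead with h | ⟨A', c', S, T, B', h⟩
  · right
    obtain ⟨l₁, l₂, h1, h2⟩ := rot hr2
    refine ⟨l₁, l₂, h1, ?_, ?_⟩
    · rw [h2]; exact h
    · rw [h2]
      have h3 := (par f (Q ++ P) true h).1
      have h4 : ¬ Even (Q ++ P).length := by
        intro h5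
        have := h3 h5
        rw [hf] at this
        exact absurd this (by simp)
      rw [List.length_append, List.length_singleton, Nat.even_add_one]
      exact h4
  · left
    have hr3 : L.IsRotated ((B' ++ A') ++ [(c', S), (c', T)]) := by
      have h1 : ((Q ++ P) ++ [f]).IsRotated (B' ++ (A' ++ [(c', S), (c', T)])) := by
        rw [h]
        have := rotApp (A' ++ [(c', S), (c', T)]) B'
        simpa using this
      rw [List.append_assoc]
      exact hr2.trans h1
    obtain ⟨l₁, l₂, h1, h2⟩ := rot hr3
    exact ⟨l₁, l₂, B' ++ A', c', S, T, h1, h2⟩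

end Pool.Agent.HMS
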