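import Pool.Agent.HMS.Spec

/-! # HMS, module `PW`: words as lists (helper77) -/

set_option autoImplicit false

namespace Pool.Agent.HMS

open Polynomial Matrix Pool.Agent.HMA Pool.Agent.HMT

namespace PWAux

theorem pth (hP : S_Pp) : ∀ W : Wd, Ori W → Pth (lst W) (topS W) (botS W)
  | .base S T => fun h => by
    obtain ⟨h1, h2, h3⟩ := h
    refine ⟨(!S.und S.sw, S.ovr S.se, T.ovr T.nw), ⟨h1, ?_⟩, botS (.base S T), ⟨h2, ?_⟩, rfl⟩
    · exact ⟨rfl, rfl, rfl, rfl, rfl⟩
    · exact ⟨h3, rfl, rfl, rfl, rfl⟩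
  | .addA W T => fun h => by
    obtain ⟨h1, h2, h3, h4⟩ := h
    have ih := pth hP W h1
    refine (hP.1 (lst W) [(true, T)] (topS (.addA W T)) (botS (.addA W T))).2 ⟨botS W, ih,
      botS (.addA W T), ⟨h2, ?_⟩, rfl⟩
    refine ⟨?_, h4, rfl, rfl, rfl⟩
    show (!und3 W W.b1) = T.ovr T.nw
    rw [h3, Bool.not_not]
  | .addB W T => fun h => by
    obtain ⟨h1, h2, h3, h4⟩ := h
    have ih := pth hP W h1
    refine (hP.1 (lst W) [(false, T)] (topS (.addB W T)) (botS (.addB W T))).2 ⟨botS W, ih,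
      botS (.addB W T), ⟨h2, ?_⟩, rfl⟩
    exact ⟨h3, h4, rfl, rfl, rfl⟩

theorem clo (W : Wd) (h : Clo3 W) : topS W = botS W := by
  obtain ⟨h1, h2, h3⟩ := h
  unfold topS botS
  rw [h1, h2, h3]

theorem sig : ∀ W : Wd, sigL (lst W) = sigW W
  | .base S T => by
    simp only [lst, sigL, sigW, facesW, positiveW, List.map_cons, List.map_nil, List.sum_cons, List.sum_nil,
      if_true, Bool.false_eq_true, if_false]
    push_cast
    ring
  | .addA W T => by
    have ih := sig W
    simp only [sigL, sigW] at ih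
    simp only [lst, sigL, sigW, facesW, positiveW, List.map_append, List.map_cons, List.map_nil,
      List.sum_append, List.sum_cons, List.sum_nil, if_true, ih]
    push_cast
    ring
  | .addB W T => by
    have ih := sig W
    simp only [sigL, sigW] at ih
    simp only [lst, sigL, sigW, facesW, positiveW, List.map_append, List.map_cons, List.map_nil,
      List.sum_append, List.sum_cons, List.sum_nil, Bool.false_eq_true, if_false, ih]
    push_cast
    ring

theorem len : ∀ W : Wd, (lst W).length = num W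
  | .base _ _ => rfl
  | .addA W _ => by rw [lst, num, List.length_append, len W]; rfl
  | .addB W _ => by rw [lst, num, List.length_append, len W]; rfl

theorem both : ∀ W : Wd, Both (lst W)
  | .base S T => ⟨⟨(true, S), List.mem_cons_self, rfl⟩,
      ⟨(false, T), List.mem_cons_of_mem _ List.mem_cons_self, rfl⟩⟩
  | .addA W _ => by
    obtain ⟨⟨x, hx, h1⟩, ⟨y, hy, h2⟩⟩ := both W
    exact ⟨⟨x, List.mem_append_left _ hx, h1⟩, ⟨y, List.mem_append_left _ hy, h2⟩⟩
  | .addB W _ => by
    obtain ⟨⟨x, hx, h1⟩, ⟨y, hy, h2⟩⟩ := both W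
    exact ⟨⟨x, List.mem_append_left _ hx, h1⟩, ⟨y, List.mem_append_left _ hy, h2⟩⟩

end PWAux

theorem tPW : S_Pp → S_PW := fun hP W =>
  ⟨PWAux.pth hP W, PWAux.clo W, PWAux.sig W, PWAux.len W, PWAux.both W⟩

end Pool.Agent.HMS
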