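import Pool.Agent.HMS.Spec

/-!
# HMS, Par: words of parallel letters
-/

set_option autoImplicit false

namespace Pool.Agent.HMS

open Polynomial Matrix Pool.Agent.HMA Pool.Agent.HMT

namespace ParAux

lemma stT (hLt : S_Lt) (T : Tangle) (a b c : Bool) (h : Stp (true, T) (a, b, c) (b, a, c)) :
    (a = b → DB T a) ∧ (a ≠ b → DA T a) := by
  have h1 := (hLt (true, T) (a, b, c) (b, a, c) h).1 rfl
  refine ⟨fun e => (h1.1 e).2, fun e => ?_⟩
  rcases h1.2 e with h2 | h2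
  · exact h2.2
  · exact absurd (congrArg (fun t : St => t.1) h2.1).symm e

lemma stF (hLt : S_Lt) (T : Tangle) (a b c : Bool) (h : Stp (false, T) (a, b, c) (a, c, b)) :
    (b = c → DA T c) ∧ (b ≠ c → DB T c) := by
  have h1 := (hLt (false, T) (a, b, c) (a, c, b) h).2 rfl
  refine ⟨fun e => (h1.1 e).2, fun e => ?_⟩
  rcases h1.2 e with h2 | h2
  · exact h2.2
  · exact absurd (congrArg (fun t : St => t.2.1) h2.1).symm e

lemma six (hLt : S_Lt) (hS : S_SixG) (T0 T1 T2 T3 T4 T5 : Tangle) (d : Bool)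
    (h0 : Stp (true, T0) (d, d, !d) (d, d, !d)) (h1 : Stp (false, T1) (d, d, !d) (d, !d, d))
    (h2 : Stp (true, T2) (d, !d, d) (!d, d, d)) (h3 : Stp (false, T3) (!d, d, d) (!d, d, d))
    (h4 : Stp (true, T4) (!d, d, d) (d, !d, d)) (h5 : Stp (false, T5) (d, !d, d) (d, d, !d)) :
    Good [(true, T0), (false, T1), (true, T2), (false, T3), (true, T4), (false, T5)] := by
  have hn : d ≠ !d := by cases d <;> decide
  have hn' : (!d) ≠ d := fun e => hn e.symm
  exact hS ![T0, T1, T2, T3, T4, T5] d ((stT hLt T0 d d (!d) h0).1 rfl)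
    ((stF hLt T1 d d (!d) h1).2 hn) ((stT hLt T2 d (!d) d h2).2 hn)
    ((stF hLt T3 (!d) d d h3).1 rfl) ((stT hLt T4 (!d) d d h4).2 hn')
    ((stF hLt T5 d (!d) d h5).2 hn')

/-- Two letters. -/
lemma two (x y : Ltr) (L : List Ltr) (a b c : Bool) (s' : St) (hA : altB true (x :: y :: L))
    (hP : PPth (x :: y :: L) (a, b, c) s') :
    ∃ T U : Tangle, x = (true, T) ∧ y = (false, U) ∧ Stp (true, T) (a, b, c) (b, a, c) ∧
      Stp (false, U) (b, a, c) (b, c, a) ∧ PPth L (b, c, a) s' ∧ altB true L := by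
  obtain ⟨cx, T⟩ := x
  obtain ⟨cy, U⟩ := y
  obtain ⟨h1, h2, h3⟩ := hA
  obtain ⟨h4, h5, h6⟩ := hP
  have e1 : cx = true := h1
  have e2 : cy = false := h2
  subst e1
  subst e2
  exact ⟨T, U, rfl, rfl, h4, h5, h6, h3⟩

lemma eqs {a b c a' b' c' : Bool} (h : ((a, b, c) : St) = (a', b', c')) :
    a = a' ∧ b = b' ∧ c = c' :=
  ⟨congrArg (fun t : St => t.1) h, congrArg (fun t : St => t.2.1) h,
    congrArg (fun t : St => t.2.2) h⟩

/-- Rotation of the directions by one step or by two steps has only uniform fixed points. -/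
lemma r1 {a b c : Bool} (h : ((b, c, a) : St) = (a, b, c)) : Unif (a, b, c) := by
  obtain ⟨e1, e2, e3⟩ := eqs h
  exact ⟨e1.symm, e2.symm⟩

lemma r2 {a b c : Bool} (h : ((c, a, b) : St) = (a, b, c)) : Unif (a, b, c) := by
  obtain ⟨e1, e2, e3⟩ := eqs h
  exact ⟨e2, e3⟩

end ParAux

open ParAux in
theorem tPar : S_Lt → S_Cyc → S_SixG → S_Par := by
  intro hLt hC hS L s hA hE hne hl hP hU
  obtain ⟨a, b, c⟩ := s
  -- length 0, 1
  rcases L with _ | ⟨x0, _ | ⟨x1, L⟩⟩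
  · exact absurd rfl hne
  · exact absurd hE (show ¬ Even 1 by decide)
  obtain ⟨T0, T1, rfl, rfl, s0, s1, hP, hA⟩ := two x0 x1 L a b c _ hA hP
  -- length 2, 3
  rcases L with _ | ⟨x2, _ | ⟨x3, L⟩⟩
  · exact absurd (r1 hP) hU
  · exact absurd hE (show ¬ Even 3 by decide)
  obtain ⟨T2, T3, rfl, rfl, s2, s3, hP, hA⟩ := two x2 x3 L b c a _ hA hP
  -- length 4, 5
  rcases L with _ | ⟨x4, _ | ⟨x5, L⟩⟩
  · exact absurd (r2 hP) hU
  · exact absurd hE (show ¬ Even 5 by decide)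
  obtain ⟨T4, T5, rfl, rfl, s4, s5, hP, hA⟩ := two x4 x5 L c a b _ hA hP
  -- length 6, 7
  rcases L with _ | ⟨x6, _ | ⟨x7, L⟩⟩
  · clear hP hA hE hne hl
    have hab : a = b ∨ a = !b := by cases a <;> cases b <;> simp
    have hbc : c = b ∨ c = !b := by cases c <;> cases b <;> simp
    rcases hab with rfl | rfl
    · rcases hbc with rfl | rfl
      · exact absurd ⟨rfl, rfl⟩ hU
      · -- `(d, d, !d)`
        exact six hLt hS T0 T1 T2 T3 T4 T5 a s0 s1 s2 s3 s4 s5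
    · rcases hbc with rfl | rfl
      · -- `(!d, d, d)`
        exact hC [(true, T2), (false, T3), (true, T4), (false, T5)] [(true, T0), (false, T1)]
          (six hLt hS T2 T3 T4 T5 T0 T1 _ s2 s3 s4 s5 s0 s1)
      · -- `(d, !d, d)` with `b = !d`
        obtain ⟨d, rfl⟩ : ∃ d, b = !d := ⟨!b, by simp⟩
        rw [Bool.not_not] at s0 s1 s2 s3 s4 s5
        exact hC [(true, T4), (false, T5)] [(true, T0), (false, T1), (true, T2), (false, T3)]
          (six hLt hS T4 T5 T0 T1 T2 T3 d s4 s5 s0 s1 s2 s3)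
  · exact absurd hE (show ¬ Even 7 by decide)
  obtain ⟨T6, T7, rfl, rfl, s6, s7, hP, hA⟩ := two x6 x7 L a b c _ hA hP
  -- length 8, 9
  rcases L with _ | ⟨x8, _ | ⟨x9, L⟩⟩
  · exact absurd (r1 hP) hU
  · exact absurd hE (show ¬ Even 9 by decide)
  obtain ⟨T8, T9, rfl, rfl, s8, s9, hP, hA⟩ := two x8 x9 L b c a _ hA hP
  -- length 10, 11
  rcases L with _ | ⟨x10, _ | ⟨x11, L⟩⟩
  · exact absurd (r2 hP) hU
  · exact absurd hE (show ¬ Even 11 by decide)
  · simp only [List.length_cons] at hl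
    omega

end Pool.Agent.HMS
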