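import Pool.Agent.HMS.Spec

/-! # Paths (HMS, Pp) -/

set_option autoImplicit false

namespace Pool.Agent.HMS

open Polynomial Matrix Pool.Agent.HMA Pool.Agent.HMT

namespace PpAux

theorem app (L L' : List Ltr) (s s' : St) : Pth (L ++ L') s s' ↔ ∃ r, Pth L s r ∧ Pth L' r s' := by
  induction L generalizing s with
  | nil =>
    constructor
    · intro h
      exact ⟨s, rfl, h⟩
    · rintro ⟨r, hr, h⟩
      have hr' : s = r := hr
      subst hr'
      exact h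
  | cons x L ih =>
    constructor
    · rintro ⟨t, h1, h2⟩
      obtain ⟨r, h3, h4⟩ := (ih t).1 h2
      exact ⟨r, ⟨t, h1, h3⟩, h4⟩
    · rintro ⟨r, ⟨t, h1, h2⟩, h3⟩
      exact ⟨t, h1, (ih t).2 ⟨r, h2, h3⟩⟩

end PpAux

theorem tPp : S_Pp := by
  refine ⟨PpAux.app, ?_⟩
  intro L L' s h
  obtain ⟨r, h1, h2⟩ := (PpAux.app L L' s s).1 h
  exact ⟨r, h1, h2, (PpAux.app L' L r r).2 ⟨s, h2, h1⟩⟩

end Pool.Agent.HMS
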