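import Pool.Agent.HMS.Spec

/-!
# HMS, module QO: the tangle `Qo Q L`: orientation, faces and positive crossings
-/

set_option autoImplicit false

namespace Pool.Agent.HMS

open Polynomial Matrix Pool.Agent.HMA Pool.Agent.HMT

namespace QOAux

theorem step (x : Ltr) (Q : Tangle) (r : Bool) (s s' : St) (h : QOri Q r s) (hx : Stp x s s') :
    QOri (if x.1 then .ver Q x.2 else .hor Q x.2) r s' := by
  obtain ⟨c, T⟩ := x
  obtain ⟨h1, h2, h3, h4, h5⟩ := h
  cases c with
  | true =>
    obtain ⟨g0, g1, g2, g3, g4, g5⟩ := hx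
    simp only at g0 g1 g2 g3 g4 g5
    refine ⟨⟨h1, g0, ?_, ?_⟩, h2, ?_, ?_, ?_⟩
    · rw [h3, g1]
    · rw [h4, g2]
    · show T.und T.sw = !s'.1
      rw [g3, Bool.not_not]
    · show T.ovr T.se = s'.2.1
      rw [g4]
    · show Q.und Q.ne = s'.2.2
      rw [h5, g5]
  | false =>
    obtain ⟨g0, g1, g2, g3, g4, g5⟩ := hx
    simp only at g0 g1 g2 g3 g4 g5
    refine ⟨⟨h1, g0, ?_, ?_⟩, h2, ?_, ?_, ?_⟩
    · rw [h5, g2]
    · rw [h4, g1]
    · show Q.und Q.sw = !s'.1
      rw [h3, g5]
    · show T.ovr T.se = s'.2.1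
      rw [g3]
    · show T.und T.ne = s'.2.2
      rw [g4]

theorem sigL_cons (x : Ltr) (L : List Ltr) : sigL (x :: L) =
    ((faces x.2 : ℤ) - positive x.2 + (if x.1 then 1 else 0)) + sigL L := by
  unfold sigL
  rw [List.map_cons, List.sum_cons]

end QOAux

theorem tQO : S_QO := by
  constructor
  · intro L
    induction L with
    | nil =>
      intro Q r s s' h hp
      have e : s = s' := hp
      subst e
      exact h
    | cons x L ih =>
      intro Q r s s' h hp
      obtain ⟨s'', h1, h2⟩ := hp
      exact ih _ r s'' s' (QOAux.step x Q r s s'' h h1) h2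
  · intro L
    induction L with
    | nil =>
      intro Q
      simp [Qo, sigL]
    | cons x L ih =>
      intro Q
      have h := ih (if x.1 then .ver Q x.2 else .hor Q x.2)
      have e : Qo Q (x :: L) = Qo (if x.1 then .ver Q x.2 else .hor Q x.2) L := rfl
      rw [e, h, QOAux.sigL_cons]
      obtain ⟨c, T⟩ := x
      cases c with
      | true =>
        simp only [if_true, faces, positive]
        push_cast
        ring
      | false =>
        simp only [Bool.false_eq_true, if_false, faces, positive]
        push_cast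
        ring

end Pool.Agent.HMS
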