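import Pool.Agent.HMS.Spec

/-!
# HMS, RelU: the numbers of a tangle from the relation
-/

set_option autoImplicit false

namespace Pool.Agent.HMS

open Polynomial Matrix Pool.Agent.HMA Pool.Agent.HMT

theorem tRelU : S_RelU := by
  intro T ξ m a b hR
  obtain ⟨hm, _, h, hh, ha, hb⟩ := hR
  have key : ∀ i, m * h i = (fox (-(ξ ^ 2)) T).adjugate i T.ne * -(wNE (-(ξ ^ 2)) (T.ovr T.ne)) := by
    intro i
    have h1 : (fox (-(ξ ^ 2)) T).adjugate.mulVec ((fox (-(ξ ^ 2)) T).mulVec h) =
        (fox (-(ξ ^ 2)) T).det • h := by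
      rw [Matrix.mulVec_mulVec, Matrix.adjugate_mul, Matrix.smul_mulVec, Matrix.one_mulVec]
    rw [hh, hm] at h1
    have h2 := congrFun h1 i
    rw [Matrix.mulVec_single] at h2
    simp only [Pi.smul_apply, smul_eq_mul, MulOpposite.smul_eq_mul_unop, MulOpposite.unop_op,
      Matrix.col_apply] at h2
    exact h2.symm
  refine ⟨hm, ?_, ?_⟩
  · unfold aT
    rw [← key, ha]
  · unfold bT
    rw [← key, hb]

end Pool.Agent.HMS
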