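import Pool.Agent.HMS.Spec

/-! # HMS, module Six: the symmetry of the octahedron -/

set_option autoImplicit false

namespace Pool.Agent.HMS

open Polynomial Matrix Pool.Agent.HMA Pool.Agent.HMT

namespace SixAux

theorem rgs (c : Bool) (k m a b : ℝ) : rg c (k * m) (k * a) (k * b) = k • rg c m a b := by
  cases c
  · unfold rg
    rw [if_neg Bool.false_ne_true, if_neg Bool.false_ne_true]
    refine Prod.ext ?_ (Prod.ext ?_ ?_)
    · ext i j
      fin_cases i <;> fin_cases j <;> simp [mul_sub]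
    · simp
    · simp [mul_sub]
  · unfold rg
    rw [if_pos rfl, if_pos rfl]
    refine Prod.ext ?_ (Prod.ext ?_ ?_)
    · ext i j
      fin_cases i <;> fin_cases j <;> simp [mul_sub]
    · simp [mul_sub]
    · simp

theorem ggs (k : ℝ) (t : T3) : gg (k • t) = k * gg t := by
  unfold gg
  rw [Prod.smul_fst, Prod.smul_snd, Prod.smul_fst, Prod.smul_snd, Matrix.trace_smul]
  simp only [smul_eq_mul]
  ring

theorem pbT (c : Bool) (x A B : ℝ) (hx : x ≠ 0) :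
    rg c ((x ^ 2 + 1) * A + x * B) (x ^ 2 * A) (x ^ 2 * A + x * B) = x • pb c true x A B := by
  unfold pb kap
  rw [if_pos rfl, ← rgs]
  congr 1
  · field_simp
  · ring
  · ring

theorem pbF (c : Bool) (x A B : ℝ) (hx : x ≠ 0) :
    rg c ((x ^ 2 + 1) * A + x * B) A (A + x * B) = x • pb c false x A B := by
  unfold pb kap
  rw [if_neg Bool.false_ne_true, ← rgs]
  congr 1
  · field_simp
  · field_simp
  · field_simp

theorem paT (c : Bool) (x A B : ℝ) (hx : x ≠ 0) :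
    rg c ((x ^ 2 + 1) * A + x * B) (x ^ 2 * A + x * B) (x ^ 2 * A) = x • pa c true x A B := by
  unfold pa kap
  rw [if_pos rfl, ← rgs]
  congr 1
  · field_simp
  · ring
  · ring

theorem paF (c : Bool) (x A B : ℝ) (hx : x ≠ 0) :
    rg c ((x ^ 2 + 1) * A + x * B) (A + x * B) A = x • pa c false x A B := by
  unfold pa kap
  rw [if_neg Bool.false_ne_true, ← rgs]
  congr 1
  · field_simp
  · field_simp
  · field_simp

theorem six (x A₁ B₁ A₂ B₂ A₃ B₃ A₄ B₄ A₅ B₅ A₆ B₆ : ℝ) :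
    (x ^ 4 - x ^ 2 + 1) * gg (rg false ((x^2+1)*A₆ + x*B₆) (x^2*A₆) (x^2*A₆+x*B₆) *
      (rg true ((x^2+1)*A₅ + x*B₅) (A₅+x*B₅) A₅ *
      (rg false ((x^2+1)*A₄ + x*B₄) (x^2*A₄+x*B₄) (x^2*A₄) *
      (rg true ((x^2+1)*A₃ + x*B₃) (x^2*A₃+x*B₃) (x^2*A₃) *
      (rg false ((x^2+1)*A₂ + x*B₂) A₂ (A₂+x*B₂) *
      rg true ((x^2+1)*A₁ + x*B₁) (x^2*A₁) (x^2*A₁+x*B₁)))))) =
    x ^ 2 * gg (rg false ((x^2+1)*A₅ + x*B₅) (x^2*A₅+x*B₅) (x^2*A₅) *
      (rg true ((x^2+1)*A₆ + x*B₆) (x^2*A₆) (x^2*A₆+x*B₆) *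
      (rg false ((x^2+1)*A₄ + x*B₄) (x^2*A₄+x*B₄) (x^2*A₄) *
      (rg true ((x^2+1)*A₂ + x*B₂) (x^2*A₂) (x^2*A₂+x*B₂) *
      (rg false ((x^2+1)*A₃ + x*B₃) (x^2*A₃+x*B₃) (x^2*A₃) *
      rg true ((x^2+1)*A₁ + x*B₁) (x^2*A₁) (x^2*A₁+x*B₁)))))) := by
  simp only [rg, gg, if_true, Bool.false_eq_true, if_false, Prod.fst_mul, Prod.snd_mul]
  simp only [Matrix.trace_fin_three, Matrix.mul_apply, Fin.sum_univ_three, Matrix.of_apply,
    Matrix.cons_val', Matrix.cons_val_zero, Matrix.cons_val_one, Matrix.cons_val_two,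
    Matrix.head_cons, Matrix.tail_cons, Matrix.cons_val_fin_one, Matrix.head_fin_const]
  ring

end SixAux

open SixAux in
theorem tSix : S_Six := by
  intro x A B hx
  have hx0 : x ≠ 0 := hx.ne'
  have h := six x (A 0) (B 0) (A 1) (B 1) (A 2) (B 2) (A 3) (B 3) (A 4) (B 4) (A 5) (B 5)
  rw [pbT false x (A 5) (B 5) hx0, paF true x (A 4) (B 4) hx0, paT false x (A 3) (B 3) hx0,
    paT true x (A 2) (B 2) hx0, pbF false x (A 1) (B 1) hx0, pbT true x (A 0) (B 0) hx0,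
    paT false x (A 4) (B 4) hx0, pbT true x (A 5) (B 5) hx0, pbT true x (A 1) (B 1) hx0,
    paT false x (A 2) (B 2) hx0] at h
  simp only [smul_mul_assoc, mul_smul_comm, ggs] at h
  have hx6 : x ^ 6 ≠ 0 := pow_ne_zero 6 hx0
  have hu : ((x + x⁻¹) ^ 2 - 3) * x ^ 2 = x ^ 4 - x ^ 2 + 1 := by
    field_simp
    ring
  rw [← hu] at h
  have h2 : x ^ 2 * x ^ 6 ≠ 0 := mul_ne_zero (pow_ne_zero 2 hx0) hx6
  refine mul_left_cancel₀ h2 ?_
  linear_combination h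

end Pool.Agent.HMS
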