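import Pool.Agent.HMS.Spec

/-!
# HMS, SixG: six parallel letters
-/

set_option autoImplicit false

namespace Pool.Agent.HMS

open Polynomial Matrix Pool.Agent.HMA Pool.Agent.HMT

namespace SixGAux

theorem u_pos (ξ : ℝ) (h : 0 < ξ) : 0 < (ξ + ξ⁻¹) ^ 2 - 3 := by
  have h2 : ξ * ξ⁻¹ = 1 := mul_inv_cancel₀ h.ne'
  nlinarith [sq_nonneg (ξ - ξ⁻¹)]

theorem mono {p q s r s' r' : ℕ} {T : TT} (hs : s' ≤ s) (hr : r' ≤ r) (h : KFull p q s r T) :
    KFull p q s' r' T := by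
  obtain ⟨a, b, v, P, R, h1, h2, h3, h4, h5, h6, h7⟩ := h
  exact ⟨a, b, v, P, R, h1, h2, hs.trans h3, hr.trans h4, h5, h6, h7⟩

/-- The change of the parameter. -/
theorem par (hT : S_TriP) (d : Bool) (ξ : ℝ) (h : 0 < ξ) : ∃ η : ℝ, 0 < η ∧
    (∀ (c : Bool) (A B : ℝ), pb c d ξ A B = pb c true η A B) ∧
    (∀ (c : Bool) (A B : ℝ), pb c (!d) ξ A B = pb c false η A B) ∧
    (∀ (c : Bool) (A B : ℝ), pa c d ξ A B = pa c true η A B) ∧
    (∀ (c : Bool) (A B : ℝ), pa c (!d) ξ A B = pa c false η A B) ∧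
    (∀ F : ℤ[X], ev ξ F = ev η F) := by
  cases d
  · exact ⟨ξ⁻¹, inv_pos.2 h, fun c A B => ((hT.2.1 c true ξ A B h).1).symm,
      fun c A B => ((hT.2.1 c false ξ A B h).1).symm, fun c A B => ((hT.2.1 c true ξ A B h).2).symm,
      fun c A B => ((hT.2.1 c false ξ A B h).2).symm, fun F => (hT.2.2.1 ξ F).symm⟩
  · exact ⟨ξ, h, fun _ _ _ => rfl, fun _ _ _ => rfl, fun _ _ _ => rfl, fun _ _ _ => rfl, fun _ => rfl⟩

end SixGAux

open SixGAux in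
theorem tSixG : S_Tt → S_Six → S_TriP → S_KTri → S_KF → S_GF → S_SixG := by
  intro _ hSix hT hKT hKF hGF y d h0 h1 h2 h3 h4 h5
  have hpar := par hT d
  obtain ⟨hT1, _, _, hT4, hT5⟩ := hT
  obtain ⟨x0, p0, q0, K0, f0, s0, e0⟩ := h0
  obtain ⟨x1, p1, q1, K1, f1, s1, e1⟩ := h1
  obtain ⟨x2, p2, q2, K2, f2, s2, e2⟩ := h2
  obtain ⟨x3, p3, q3, K3, f3, s3, e3⟩ := h3
  obtain ⟨x4, p4, q4, K4, f4, s4, e4⟩ := h4
  obtain ⟨x5, p5, q5, K5, f5, s5, e5⟩ := h5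
  have k0 := hKT.1 p0 q0 x0 f0
  have k1 := hKT.1 p1 q1 x1 f1
  have k2 := hKT.2 p2 q2 x2 f2
  have k3 := hKT.2 p3 q3 x3 f3
  have k4 := hKT.2 p4 q4 x4 f4
  have k5 := hKT.1 p5 q5 x5 f5
  have m5 := hKF _ _ _ _ _ _ _ _ _ _ k4 (hKF _ _ _ _ _ _ _ _ _ _ k5 (hKF _ _ _ _ _ _ _ _ _ _ k3
    (hKF _ _ _ _ _ _ _ _ _ _ k1 (hKF _ _ _ _ _ _ _ _ _ _ k2 k0))))
  have m6 := mono (s' := 1) (r' := 1) (by omega) (by omega) m5
  obtain ⟨hP, hQ, F, hF, hG⟩ := hGF _ _ _ m6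
  refine ⟨F, _, _, K5 + K4 + K3 + K2 + K1 + K0, hF, ?_, ?_⟩
  · simp only [sigL, List.map_cons, List.map_nil, List.sum_cons, List.sum_nil, if_true,
      Bool.false_eq_true, if_false]
    omega
  · intro ξ hξ
    obtain ⟨η, hη, a1, a2, a3, a4, a5⟩ := hpar ξ hξ
    have l0 : lt3 ξ (true, y 0) = ξ ^ K0 • pb true true η (ev η x0.1) (ev η x0.2) := by
      obtain ⟨u1, u2, u3⟩ := e0 ξ hξ
      rw [← a1, ← a5, ← a5]
      unfold lt3 pb
      rw [u1, u2, u3, hT4]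
    have l1 : lt3 ξ (false, y 1) = ξ ^ K1 • pb false false η (ev η x1.1) (ev η x1.2) := by
      obtain ⟨u1, u2, u3⟩ := e1 ξ hξ
      rw [← a2, ← a5, ← a5]
      unfold lt3 pb
      rw [u1, u2, u3, hT4]
    have l2 : lt3 ξ (true, y 2) = ξ ^ K2 • pa true true η (ev η x2.1) (ev η x2.2) := by
      obtain ⟨u1, u2, u3⟩ := e2 ξ hξ
      rw [← a3, ← a5, ← a5]
      unfold lt3 pa
      rw [u1, u2, u3, hT4]
    have l3 : lt3 ξ (false, y 3) = ξ ^ K3 • pa false true η (ev η x3.1) (ev η x3.2) := by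
      obtain ⟨u1, u2, u3⟩ := e3 ξ hξ
      rw [← a3, ← a5, ← a5]
      unfold lt3 pa
      rw [u1, u2, u3, hT4]
    have l4 : lt3 ξ (true, y 4) = ξ ^ K4 • pa true false η (ev η x4.1) (ev η x4.2) := by
      obtain ⟨u1, u2, u3⟩ := e4 ξ hξ
      rw [← a4, ← a5, ← a5]
      unfold lt3 pa
      rw [u1, u2, u3, hT4]
    have l5 : lt3 ξ (false, y 5) = ξ ^ K5 • pb false true η (ev η x5.1) (ev η x5.2) := by
      obtain ⟨u1, u2, u3⟩ := e5 ξ hξ
      rw [← a1, ← a5, ← a5]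
      unfold lt3 pb
      rw [u1, u2, u3, hT4]
    have hsm : ∀ (k : ℝ) (t t' : T3), (k • t) * t' = k • (t * t') := fun k t t' => (hT5 k t t').2.1
    have hms : ∀ (k : ℝ) (t t' : T3), t * (k • t') = k • (t * t') := fun k t t' => (hT5 k t t').2.2
    have hgs : ∀ (k : ℝ) (t : T3), gg (k • t) = k * gg t := fun k t => (hT5 k t t).1
    have hS := hSix η (fun i => ev η (![x0, x1, x2, x3, x4, x5] i).1)
      (fun i => ev η (![x0, x1, x2, x3, x4, x5] i).2) hη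
    have hG' := hG ⟨η, hη⟩
    have hGf : Gf (tri false x4 * (tri true x5 * (tri false x3 * (tri true x1 *
        (tri false x2 * tri true x0))))) ⟨η, hη⟩ =
        gg (pa false true η (ev η x4.1) (ev η x4.2) * (pb true true η (ev η x5.1) (ev η x5.2) *
          (pa false true η (ev η x3.1) (ev η x3.2) * (pb true true η (ev η x1.1) (ev η x1.2) *
          (pa false true η (ev η x2.1) (ev η x2.2) * pb true true η (ev η x0.1) (ev η x0.2)))))) := by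
      rw [← (hT1 x4 ⟨η, hη⟩).2, ← (hT1 x5 ⟨η, hη⟩).1, ← (hT1 x3 ⟨η, hη⟩).2, ← (hT1 x1 ⟨η, hη⟩).1,
        ← (hT1 x2 ⟨η, hη⟩).2, ← (hT1 x0 ⟨η, hη⟩).1]
      rfl
    have hS' : ((η + η⁻¹) ^ 2 - 3) * gg (pb false true η (ev η x5.1) (ev η x5.2) *
        (pa true false η (ev η x4.1) (ev η x4.2) * (pa false true η (ev η x3.1) (ev η x3.2) *
        (pa true true η (ev η x2.1) (ev η x2.2) * (pb false false η (ev η x1.1) (ev η x1.2) *
        pb true true η (ev η x0.1) (ev η x0.2)))))) =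
        ((η + η⁻¹) ^ 2 - 3) * ev η F := by
      rw [← hG', hGf]
      exact hS
    have hS2 := mul_left_cancel₀ (u_pos η hη).ne' hS'
    have htr : tr3 ξ [(true, y 0), (false, y 1), (true, y 2), (false, y 3), (true, y 4), (false, y 5)] =
        (ξ ^ K5 * (ξ ^ K4 * (ξ ^ K3 * (ξ ^ K2 * (ξ ^ K1 * ξ ^ K0))))) •
        (pb false true η (ev η x5.1) (ev η x5.2) *
        (pa true false η (ev η x4.1) (ev η x4.2) * (pa false true η (ev η x3.1) (ev η x3.2) *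
        (pa true true η (ev η x2.1) (ev η x2.2) * (pb false false η (ev η x1.1) (ev η x1.2) *
        pb true true η (ev η x0.1) (ev η x0.2)))))) := by
      simp only [tr3, one_mul, l0, l1, l2, l3, l4, l5, mul_assoc, hsm, hms, smul_smul]
    rw [htr, hgs, hS2, a5 F, zpow_add₀ hξ.ne', zpow_add₀ hξ.ne', zpow_add₀ hξ.ne', zpow_add₀ hξ.ne',
      zpow_add₀ hξ.ne']
    ring

end Pool.Agent.HMS
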