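import Pool.Agent.HMS.Spec

/-!
# HMS, Sym1: the symmetry for one letter
-/

set_option autoImplicit false

namespace Pool.Agent.HMS

open Polynomial Matrix Pool.Agent.HMA Pool.Agent.HMT

namespace Sym1Aux

theorem ev_inv (ξ : ℝ) (F : ℤ[X]) : ev ξ⁻¹ F = ev ξ F := by
  unfold ev
  rw [inv_inv, add_comm]

theorem kap_inv (d : Bool) (ξ : ℝ) : kap d ξ⁻¹ = kap (!d) ξ := by
  cases d <;> simp [kap]

/-- The claim for normalized numbers. -/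
def Cl (c : Bool) (s s' : St) (ξ m a b m' a' b' : ℝ) : Prop :=
  rho (rg c m' a' b').1 * hm s ξ = hm s' ξ * rho (rg c m a b).1 ∧
    (rg c m' a' b').2.1 = (rg c m a b).2.2 ∧ (rg c m' a' b').2.2 = (rg c m a b).2.1

theorem rho_smul (c : Bool) (r m a b : ℝ) :
    rho (rg c (r * m) (r * a) (r * b)).1 = r • rho (rg c m a b).1 := by
  ext i j
  fin_cases i <;> fin_cases j <;> cases c <;> simp [rho, rg] <;> ring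

theorem rg21 (c : Bool) (r m a b : ℝ) :
    (rg c (r * m) (r * a) (r * b)).2.1 = r * (rg c m a b).2.1 := by
  cases c <;> simp [rg] <;> ring

theorem rg22 (c : Bool) (r m a b : ℝ) :
    (rg c (r * m) (r * a) (r * b)).2.2 = r * (rg c m a b).2.2 := by
  cases c <;> simp [rg] <;> ring

theorem fin (x : Ltr) (s s' : St) (K : ℤ) (f : ℝ → ℝ × ℝ × ℝ) (g : ℝ → ℝ × ℝ × ℝ)
    (hf : ∀ ξ : ℝ, 0 < ξ → mT x.2 ξ = ξ ^ K * (f ξ).1 ∧ aT x.2 ξ = ξ ^ K * (f ξ).2.1 ∧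
      bT x.2 ξ = ξ ^ K * (f ξ).2.2)
    (hg : ∀ ξ : ℝ, 0 < ξ → mT x.2 ξ⁻¹ = (ξ ^ K)⁻¹ * (g ξ).1 ∧ aT x.2 ξ⁻¹ = (ξ ^ K)⁻¹ * (g ξ).2.1 ∧
      bT x.2 ξ⁻¹ = (ξ ^ K)⁻¹ * (g ξ).2.2)
    (hc : ∀ ξ : ℝ, 0 < ξ → Cl x.1 s s' ξ (f ξ).1 (f ξ).2.1 (f ξ).2.2 (g ξ).1 (g ξ).2.1 (g ξ).2.2) :
    ∃ K : ℤ, ∀ ξ : ℝ, 0 < ξ →
      ξ ^ (2 * K) • (rho (lt3 ξ⁻¹ x).1 * hm s ξ) = hm s' ξ * rho (lt3 ξ x).1 ∧
      ξ ^ (2 * K) * (lt3 ξ⁻¹ x).2.1 = (lt3 ξ x).2.2 ∧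
      ξ ^ (2 * K) * (lt3 ξ⁻¹ x).2.2 = (lt3 ξ x).2.1 := by
  refine ⟨K, fun ξ hξ => ?_⟩
  obtain ⟨f1, f2, f3⟩ := hf ξ hξ
  obtain ⟨g1, g2, g3⟩ := hg ξ hξ
  obtain ⟨c1, c2, c3⟩ := hc ξ hξ
  have hp : 0 < ξ ^ K := zpow_pos hξ K
  have h2 : ξ ^ (2 * K) = ξ ^ K * ξ ^ K := by
    rw [two_mul, zpow_add₀ hξ.ne']
  have h3 : ξ ^ K * ξ ^ K * (ξ ^ K)⁻¹ = ξ ^ K := by
    field_simp
  unfold lt3
  rw [f1, f2, f3, g1, g2, g3, h2, rho_smul, rho_smul, rg21, rg21, rg22, rg22, Matrix.smul_mul,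
    Matrix.mul_smul, smul_smul, h3, c1]
  refine ⟨rfl, ?_, ?_⟩
  · rw [← mul_assoc, h3, c2]
  · rw [← mul_assoc, h3, c3]

theorem fB (T : Tangle) (d : Bool) (h : DB T d) : ∃ (A B : ℝ → ℝ) (K : ℤ), ∀ ξ : ℝ, 0 < ξ →
    (mT T ξ = ξ ^ K * ((ξ + ξ⁻¹) * A ξ + B ξ) ∧ aT T ξ = ξ ^ K * (kap d ξ * A ξ) ∧
      bT T ξ = ξ ^ K * (kap d ξ * A ξ + B ξ)) ∧
    (mT T ξ⁻¹ = (ξ ^ K)⁻¹ * ((ξ + ξ⁻¹) * A ξ + B ξ) ∧
      aT T ξ⁻¹ = (ξ ^ K)⁻¹ * (kap (!d) ξ * A ξ) ∧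
      bT T ξ⁻¹ = (ξ ^ K)⁻¹ * (kap (!d) ξ * A ξ + B ξ)) := by
  obtain ⟨x, p, q, K, -, -, h⟩ := h
  refine ⟨fun ξ => ev ξ x.1, fun ξ => ev ξ x.2, K, fun ξ hξ => ⟨h ξ hξ, ?_⟩⟩
  have h1 := h ξ⁻¹ (inv_pos.2 hξ)
  rw [inv_inv, ev_inv, ev_inv, kap_inv, _root_.inv_zpow, add_comm ξ⁻¹ ξ] at h1
  exact h1

theorem fA (T : Tangle) (d : Bool) (h : DA T d) : ∃ (A B : ℝ → ℝ) (K : ℤ), ∀ ξ : ℝ, 0 < ξ →
    (mT T ξ = ξ ^ K * ((ξ + ξ⁻¹) * A ξ + B ξ) ∧ aT T ξ = ξ ^ K * (kap d ξ * A ξ + B ξ) ∧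
      bT T ξ = ξ ^ K * (kap d ξ * A ξ)) ∧
    (mT T ξ⁻¹ = (ξ ^ K)⁻¹ * ((ξ + ξ⁻¹) * A ξ + B ξ) ∧
      aT T ξ⁻¹ = (ξ ^ K)⁻¹ * (kap (!d) ξ * A ξ + B ξ) ∧
      bT T ξ⁻¹ = (ξ ^ K)⁻¹ * (kap (!d) ξ * A ξ)) := by
  obtain ⟨x, p, q, K, -, -, h⟩ := h
  refine ⟨fun ξ => ev ξ x.1, fun ξ => ev ξ x.2, K, fun ξ hξ => ⟨h ξ hξ, ?_⟩⟩
  have h1 := h ξ⁻¹ (inv_pos.2 hξ)
  rw [inv_inv, ev_inv, ev_inv, kap_inv, _root_.inv_zpow, add_comm ξ⁻¹ ξ] at h1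
  exact h1

theorem fC (T : Tangle) (d : Bool) (h : DC T d) : ∃ (A B : ℝ → ℝ) (K : ℤ), ∀ ξ : ℝ, 0 < ξ →
    (mT T ξ = ξ ^ K * (A ξ + kap d ξ * B ξ) ∧ aT T ξ = ξ ^ K * (kap d ξ * B ξ) ∧
      bT T ξ = ξ ^ K * A ξ) ∧
    (mT T ξ⁻¹ = (ξ ^ K)⁻¹ * (A ξ + kap (!d) ξ * B ξ) ∧
      aT T ξ⁻¹ = (ξ ^ K)⁻¹ * (kap (!d) ξ * B ξ) ∧
      bT T ξ⁻¹ = (ξ ^ K)⁻¹ * A ξ) := by
  obtain ⟨n, x, p, q, p', q', K, -, -, -, -, h⟩ := h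
  refine ⟨fun ξ => ev ξ n, fun ξ => ev ξ x, K, fun ξ hξ => ⟨h ξ hξ, ?_⟩⟩
  have h1 := h ξ⁻¹ (inv_pos.2 hξ)
  rw [ev_inv, ev_inv, kap_inv, _root_.inv_zpow] at h1
  exact h1

/-- Pattern c with the factor `κ`. -/
theorem fC' (T : Tangle) (d : Bool) (h : DC T d) : ∃ (A B : ℝ → ℝ) (K : ℤ), ∀ ξ : ℝ, 0 < ξ →
    (mT T ξ = ξ ^ K * (kap (!d) ξ * A ξ + B ξ) ∧ aT T ξ = ξ ^ K * B ξ ∧
      bT T ξ = ξ ^ K * (kap (!d) ξ * A ξ)) ∧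
    (mT T ξ⁻¹ = (ξ ^ K)⁻¹ * (kap d ξ * A ξ + B ξ) ∧
      aT T ξ⁻¹ = (ξ ^ K)⁻¹ * B ξ ∧
      bT T ξ⁻¹ = (ξ ^ K)⁻¹ * (kap d ξ * A ξ)) := by
  obtain ⟨A, B, K, h⟩ := fC T d h
  refine ⟨A, B, if d then K + 1 else K - 1, fun ξ hξ => ?_⟩
  obtain ⟨⟨h1, h2, h3⟩, h4, h5, h6⟩ := h ξ hξ
  have hp : 0 < ξ ^ K := zpow_pos hξ K
  rw [h1, h2, h3, h4, h5, h6]
  cases d
  · simp only [kap, Bool.not_false, if_true, if_false, Bool.false_eq_true]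
    rw [zpow_sub₀ hξ.ne', zpow_one]
    refine ⟨⟨?_, ?_, ?_⟩, ?_, ?_, ?_⟩ <;> field_simp
  · simp only [kap, Bool.not_true, if_true, if_false, Bool.false_eq_true]
    rw [zpow_add₀ hξ.ne', zpow_one]
    refine ⟨⟨?_, ?_, ?_⟩, ?_, ?_, ?_⟩ <;> field_simp

theorem cB1 (s1 s2 s3 : Bool) (h : s1 = s2) (hu : ¬ Unif (s1, s2, s3)) (ξ A B : ℝ) (hξ : 0 < ξ) :
    Cl true (s1, s2, s3) (s1, s2, s3) ξ ((ξ + ξ⁻¹) * A + B) (kap s1 ξ * A) (kap s1 ξ * A + B)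
      ((ξ + ξ⁻¹) * A + B) (kap (!s1) ξ * A) (kap (!s1) ξ * A + B) := by
  have hx := hξ.ne'
  cases s1 <;> cases s2 <;> cases s3 <;>
    first | exact absurd h Bool.false_ne_true | exact absurd h.symm Bool.false_ne_true |
      exact absurd ⟨rfl, rfl⟩ hu | skip
  all_goals
    refine ⟨?_, ?_, ?_⟩
    · ext i j
      fin_cases i <;> fin_cases j <;>
        simp [rho, rg, hm, kk, kap, Matrix.mul_apply, Fin.sum_univ_two] <;> field_simp <;> ring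
    · simp [rg, kap]; ring
    · simp [rg, kap]; ring

theorem cA1 (s1 s2 s3 : Bool) (h : s1 ≠ s2) (ξ A B : ℝ) (hξ : 0 < ξ) :
    Cl true (s1, s2, s3) (s2, s1, s3) ξ ((ξ + ξ⁻¹) * A + B) (kap s1 ξ * A + B) (kap s1 ξ * A)
      ((ξ + ξ⁻¹) * A + B) (kap (!s1) ξ * A + B) (kap (!s1) ξ * A) := by
  have hx := hξ.ne'
  cases s1 <;> cases s2 <;> cases s3 <;> first | exact absurd rfl h | skip
  all_goals
    refine ⟨?_, ?_, ?_⟩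
    · ext i j
      fin_cases i <;> fin_cases j <;>
        simp [rho, rg, hm, kk, kap, Matrix.mul_apply, Fin.sum_univ_two] <;> field_simp <;> ring
    · simp [rg, kap]; ring
    · simp [rg, kap]; ring

theorem cC1 (s1 s2 s3 : Bool) (h : s1 ≠ s2) (ξ A B : ℝ) (hξ : 0 < ξ) :
    Cl true (s1, s2, s3) (s1, s2, s3) ξ (A + kap s1 ξ * B) (kap s1 ξ * B) A
      (A + kap (!s1) ξ * B) (kap (!s1) ξ * B) A := by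
  have hx := hξ.ne'
  cases s1 <;> cases s2 <;> cases s3 <;> first | exact absurd rfl h | skip
  all_goals
    refine ⟨?_, ?_, ?_⟩
    · ext i j
      fin_cases i <;> fin_cases j <;>
        simp [rho, rg, hm, kk, kap, Matrix.mul_apply, Fin.sum_univ_two] <;> field_simp <;> ring
    · simp [rg, kap]
    · simp [rg, kap]

theorem cA2 (s1 s2 s3 : Bool) (h : s2 = s3) (hu : ¬ Unif (s1, s2, s3)) (ξ A B : ℝ) (hξ : 0 < ξ) :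
    Cl false (s1, s2, s3) (s1, s2, s3) ξ ((ξ + ξ⁻¹) * A + B) (kap s3 ξ * A + B) (kap s3 ξ * A)
      ((ξ + ξ⁻¹) * A + B) (kap (!s3) ξ * A + B) (kap (!s3) ξ * A) := by
  have hx := hξ.ne'
  cases s1 <;> cases s2 <;> cases s3 <;>
    first | exact absurd h Bool.false_ne_true | exact absurd h.symm Bool.false_ne_true |
      exact absurd ⟨rfl, rfl⟩ hu | skip
  all_goals
    refine ⟨?_, ?_, ?_⟩
    · ext i j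
      fin_cases i <;> fin_cases j <;>
        simp [rho, rg, hm, kk, kap, Matrix.mul_apply, Fin.sum_univ_two] <;> field_simp <;> ring
    · simp [rg, kap]; ring
    · simp [rg, kap]; ring

theorem cB2 (s1 s2 s3 : Bool) (h : s2 ≠ s3) (ξ A B : ℝ) (hξ : 0 < ξ) :
    Cl false (s1, s2, s3) (s1, s3, s2) ξ ((ξ + ξ⁻¹) * A + B) (kap s3 ξ * A) (kap s3 ξ * A + B)
      ((ξ + ξ⁻¹) * A + B) (kap (!s3) ξ * A) (kap (!s3) ξ * A + B) := by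
  have hx := hξ.ne'
  cases s1 <;> cases s2 <;> cases s3 <;> first | exact absurd rfl h | skip
  all_goals
    refine ⟨?_, ?_, ?_⟩
    · ext i j
      fin_cases i <;> fin_cases j <;>
        simp [rho, rg, hm, kk, kap, Matrix.mul_apply, Fin.sum_univ_two] <;> field_simp <;> ring
    · simp [rg, kap]; ring
    · simp [rg, kap]; ring

theorem cC2 (s1 s2 s3 : Bool) (h : s2 ≠ s3) (ξ A B : ℝ) (hξ : 0 < ξ) :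
    Cl false (s1, s2, s3) (s1, s2, s3) ξ (kap (!s3) ξ * A + B) B (kap (!s3) ξ * A)
      (kap s3 ξ * A + B) B (kap s3 ξ * A) := by
  have hx := hξ.ne'
  cases s1 <;> cases s2 <;> cases s3 <;> first | exact absurd rfl h | skip
  all_goals
    refine ⟨?_, ?_, ?_⟩
    · ext i j
      fin_cases i <;> fin_cases j <;>
        simp [rho, rg, hm, kk, kap, Matrix.mul_apply, Fin.sum_univ_two] <;> field_simp <;> ring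
    · simp [rg, kap]
    · simp [rg, kap]

end Sym1Aux

open Sym1Aux in
/-- Module `Sym1`: the symmetry for one letter. -/
theorem tSym1 : S_Lt → S_Sym1 := by
  intro hL x s s' hS hu
  obtain ⟨h1, h2⟩ := hL x s s' hS
  obtain ⟨c, T⟩ := x
  obtain ⟨s1, s2, s3⟩ := s
  cases c
  · have h := h2 rfl
    simp only at h
    by_cases he : s2 = s3
    · obtain ⟨rfl, hd⟩ := h.1 he
      obtain ⟨A, B, K, hf⟩ := fA T s3 hd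
      exact fin (false, T) (s1, s2, s3) (s1, s2, s3) K
        (fun ξ => ((ξ + ξ⁻¹) * A ξ + B ξ, kap s3 ξ * A ξ + B ξ, kap s3 ξ * A ξ))
        (fun ξ => ((ξ + ξ⁻¹) * A ξ + B ξ, kap (!s3) ξ * A ξ + B ξ, kap (!s3) ξ * A ξ))
        (fun ξ hξ => (hf ξ hξ).1) (fun ξ hξ => (hf ξ hξ).2)
        (fun ξ hξ => cA2 s1 s2 s3 he hu ξ (A ξ) (B ξ) hξ)
    · rcases h.2 he with ⟨rfl, hd⟩ | ⟨rfl, hd⟩
      · obtain ⟨A, B, K, hf⟩ := fB T s3 hd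
        exact fin (false, T) (s1, s2, s3) (s1, s3, s2) K
          (fun ξ => ((ξ + ξ⁻¹) * A ξ + B ξ, kap s3 ξ * A ξ, kap s3 ξ * A ξ + B ξ))
          (fun ξ => ((ξ + ξ⁻¹) * A ξ + B ξ, kap (!s3) ξ * A ξ, kap (!s3) ξ * A ξ + B ξ))
          (fun ξ hξ => (hf ξ hξ).1) (fun ξ hξ => (hf ξ hξ).2)
          (fun ξ hξ => cB2 s1 s2 s3 he ξ (A ξ) (B ξ) hξ)
      · obtain ⟨A, B, K, hf⟩ := fC' T s3 hd
        exact fin (false, T) (s1, s2, s3) (s1, s2, s3) K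
          (fun ξ => (kap (!s3) ξ * A ξ + B ξ, B ξ, kap (!s3) ξ * A ξ))
          (fun ξ => (kap s3 ξ * A ξ + B ξ, B ξ, kap s3 ξ * A ξ))
          (fun ξ hξ => (hf ξ hξ).1) (fun ξ hξ => (hf ξ hξ).2)
          (fun ξ hξ => cC2 s1 s2 s3 he ξ (A ξ) (B ξ) hξ)
  · have h := h1 rfl
    simp only at h
    by_cases he : s1 = s2
    · obtain ⟨rfl, hd⟩ := h.1 he
      obtain ⟨A, B, K, hf⟩ := fB T s1 hd
      exact fin (true, T) (s1, s2, s3) (s1, s2, s3) K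
        (fun ξ => ((ξ + ξ⁻¹) * A ξ + B ξ, kap s1 ξ * A ξ, kap s1 ξ * A ξ + B ξ))
        (fun ξ => ((ξ + ξ⁻¹) * A ξ + B ξ, kap (!s1) ξ * A ξ, kap (!s1) ξ * A ξ + B ξ))
        (fun ξ hξ => (hf ξ hξ).1) (fun ξ hξ => (hf ξ hξ).2)
        (fun ξ hξ => cB1 s1 s2 s3 he hu ξ (A ξ) (B ξ) hξ)
    · rcases h.2 he with ⟨rfl, hd⟩ | ⟨rfl, hd⟩
      · obtain ⟨A, B, K, hf⟩ := fA T s1 hd
        exact fin (true, T) (s1, s2, s3) (s2, s1, s3) K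
          (fun ξ => ((ξ + ξ⁻¹) * A ξ + B ξ, kap s1 ξ * A ξ + B ξ, kap s1 ξ * A ξ))
          (fun ξ => ((ξ + ξ⁻¹) * A ξ + B ξ, kap (!s1) ξ * A ξ + B ξ, kap (!s1) ξ * A ξ))
          (fun ξ hξ => (hf ξ hξ).1) (fun ξ hξ => (hf ξ hξ).2)
          (fun ξ hξ => cA1 s1 s2 s3 he ξ (A ξ) (B ξ) hξ)
      · obtain ⟨A, B, K, hf⟩ := fC T s1 hd
        exact fin (true, T) (s1, s2, s3) (s1, s2, s3) K
          (fun ξ => (A ξ + kap s1 ξ * B ξ, kap s1 ξ * B ξ, A ξ))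
          (fun ξ => (A ξ + kap (!s1) ξ * B ξ, kap (!s1) ξ * B ξ, A ξ))
          (fun ξ hξ => (hf ξ hξ).1) (fun ξ hξ => (hf ξ hξ).2)
          (fun ξ hξ => cC1 s1 s2 s3 he ξ (A ξ) (B ξ) hξ)

end Pool.Agent.HMS
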