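import Pool.Agent.HMS.Spec

/-!
# HMS, module SymL: the symmetry for closed paths
-/

set_option autoImplicit false

namespace Pool.Agent.HMS

open Polynomial Matrix Pool.Agent.HMA Pool.Agent.HMT

namespace SymLAux

theorem rho_mul (M N : Matrix (Fin 3) (Fin 3) ℝ) (n : ℝ)
    (hM : ∀ i : Fin 3, M i 0 + M i 1 + M i 2 = n) : rho (M * N) = rho M * rho N := by
  have e0 : M 0 1 = n - M 0 0 - M 0 2 := by linarith [hM 0]
  have e1 : M 1 1 = n - M 1 0 - M 1 2 := by linarith [hM 1]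
  have e2 : M 2 1 = n - M 2 0 - M 2 2 := by linarith [hM 2]
  ext i j
  fin_cases i <;> fin_cases j <;>
    simp [rho, Matrix.mul_apply, Fin.sum_univ_three, Fin.sum_univ_two, e0, e1, e2] <;> ring

theorem rho_one : rho (1 : Matrix (Fin 3) (Fin 3) ℝ) = 1 := by
  ext i j
  fin_cases i <;> fin_cases j <;> simp [rho]

theorem gg_eq (t : T3) (h : ∀ i : Fin 3, t.1 i 0 + t.1 i 1 + t.1 i 2 = t.2.1) :
    gg t = rho t.1 0 0 + rho t.1 1 1 - t.2.1 - t.2.2 := by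
  have h1 := h 1
  have e : t.1.trace = t.1 0 0 + t.1 1 1 + t.1 2 2 := by
    simp [Matrix.trace, Fin.sum_univ_three]
  have a : rho t.1 0 0 = t.1 2 2 - t.1 1 2 := by simp [rho]
  have b : rho t.1 1 1 = t.1 0 0 - t.1 1 0 := by simp [rho]
  unfold gg
  rw [e, a, b]
  linarith

/-- the symmetry for all paths -/
theorem gen (h1 : S_Sym1) (h2 : S_Tt) (h3 : S_UnifP) (L : List Ltr) :
    ∀ s s' : St, Pth L s s' → ¬ Unif s → ∃ K : ℤ, ∀ ξ : ℝ, 0 < ξ →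
      ξ ^ (2 * K) • (rho (tr3 ξ⁻¹ L).1 * hm s ξ) = hm s' ξ * rho (tr3 ξ L).1 ∧
      ξ ^ (2 * K) * (tr3 ξ⁻¹ L).2.1 = (tr3 ξ L).2.2 ∧
      ξ ^ (2 * K) * (tr3 ξ⁻¹ L).2.2 = (tr3 ξ L).2.1 := by
  induction L with
  | nil =>
    intro s s' hp _
    have hp' : s = s' := hp
    subst hp'
    refine ⟨0, fun ξ _ => ?_⟩
    simp [tr3, rho_one]
  | cons x L ih =>
    intro s s' hp hu
    obtain ⟨s'', hx, hL⟩ := hp
    obtain ⟨K1, hK1⟩ := h1 x s s'' hx hu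
    have hu' : ¬ Unif s'' := fun h => hu ((h3 [x] s s'' ⟨s'', hx, rfl⟩).mpr h)
    obtain ⟨K2, hK2⟩ := ih s'' s' hL hu'
    refine ⟨K1 + K2, fun ξ hξ => ?_⟩
    obtain ⟨a1, a2, a3⟩ := hK1 ξ hξ
    obtain ⟨b1, b2, b3⟩ := hK2 ξ hξ
    have hz : ξ ^ (2 * (K1 + K2)) = ξ ^ (2 * K2) * ξ ^ (2 * K1) := by
      rw [← zpow_add₀ hξ.ne']
      congr 1
      ring
    have e1 : ∀ η : ℝ, (tr3 η (x :: L)).1 = (tr3 η L).1 * (lt3 η x).1 := fun η => rfl
    have e2 : ∀ η : ℝ, (tr3 η (x :: L)).2.1 = (tr3 η L).2.1 * (lt3 η x).2.1 := fun η => rfl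
    have e3 : ∀ η : ℝ, (tr3 η (x :: L)).2.2 = (tr3 η L).2.2 * (lt3 η x).2.2 := fun η => rfl
    have r : ∀ η : ℝ, rho (tr3 η (x :: L)).1 = rho (tr3 η L).1 * rho (lt3 η x).1 := by
      intro η
      rw [e1 η]
      exact rho_mul _ _ _ (h2.2.2.1 η L)
    refine ⟨?_, ?_, ?_⟩
    · calc ξ ^ (2 * (K1 + K2)) • (rho (tr3 ξ⁻¹ (x :: L)).1 * hm s ξ)
          = ξ ^ (2 * K2) • (rho (tr3 ξ⁻¹ L).1 *
              (ξ ^ (2 * K1) • (rho (lt3 ξ⁻¹ x).1 * hm s ξ))) := by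
            rw [r ξ⁻¹, hz, Matrix.mul_assoc, Matrix.mul_smul, smul_smul]
        _ = (ξ ^ (2 * K2) • (rho (tr3 ξ⁻¹ L).1 * hm s'' ξ)) * rho (lt3 ξ x).1 := by
            rw [a1, ← Matrix.mul_assoc, Matrix.smul_mul]
        _ = hm s' ξ * rho (tr3 ξ (x :: L)).1 := by
            rw [b1, r ξ, Matrix.mul_assoc]
    · rw [e2, e3, hz, ← b2, ← a2]
      ring
    · rw [e3, e2, hz, ← b3, ← a3]
      ring

theorem shape1 (E k e a b c d a' b' c' d' : ℝ) (hke : k * e = 1)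
    (q00 : E * (a' * 1 + b' * (e - 1)) = 1 * a + 0 * c)
    (q01 : E * (a' * 0 + b' * e) = 1 * b + 0 * d)
    (q11 : E * (c' * 0 + d' * e) = (e - 1) * b + e * d) :
    E * (a' + d') = a + d ∧ E * b' = k * b := by
  have h : E * b' = k * b := by linear_combination k * q01 - E * b' * hke
  have h2 : E * d' = (1 - k) * b + d := by
    linear_combination k * q11 + (-(E * d') + b + d) * hke
  exact ⟨by linear_combination q00 - q01 + h + h2, h⟩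

theorem shape2 (E e a b c d a' b' c' d' : ℝ) (he : e ≠ 0)
    (q00 : E * (a' * 1 + b' * 0) = 1 * a + (1 - e) * c)
    (q10 : E * (c' * 1 + d' * 0) = 0 * a + e * c)
    (q11 : E * (c' * (1 - e) + d' * e) = 0 * b + e * d) :
    E * (a' + d') = a + d ∧ E * c' = e * c := by
  have h2 : E * d' = d - (1 - e) * c := by
    have h3 : e * (E * d') = e * (d - (1 - e) * c) := by
      linear_combination q11 - (1 - e) * q10
    exact mul_left_cancel₀ he h3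
  exact ⟨by linear_combination q00 + h2, by linear_combination q10⟩

theorem shape3 (E k e a b c d a' b' c' d' : ℝ) (hke : k * e = 1) (he : e ≠ 0)
    (q00 : E * (a' * e + b' * 0) = e * a + 0 * c)
    (q01 : E * (a' * 0 + b' * 1) = e * b + 0 * d)
    (q10 : E * (c' * e + d' * 0) = 0 * a + 1 * c)
    (q11 : E * (c' * 0 + d' * 1) = 0 * b + 1 * d) :
    E * (a' + d') = a + d ∧ E * b' = e * b ∧ E * c' = k * c := by
  have h0 : E * a' = a := by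
    have h3 : e * (E * a') = e * a := by linear_combination q00
    exact mul_left_cancel₀ he h3
  refine ⟨by linear_combination q11 + h0, by linear_combination q01, ?_⟩
  linear_combination k * q10 - E * c' * hke

theorem clA (E c c' κ q : ℝ) (hκ : κ ≠ 0) (hq : q = κ ^ 2) (h : E * c' = q * c) :
    E * (κ⁻¹ * c') = κ * c := by
  have h1 : E * (κ⁻¹ * c') = κ⁻¹ * (E * c') := by ring
  have h2 : κ⁻¹ * κ = 1 := inv_mul_cancel₀ hκ
  rw [h1, h, hq]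
  linear_combination κ * c * h2

theorem clB (E b b' κ q : ℝ) (hκ : κ ≠ 0) (hq : q * κ ^ 2 = 1) (h : E * b' = q * b) :
    E * (κ * b') = κ⁻¹ * b := by
  have h2 : κ⁻¹ * κ = 1 := inv_mul_cancel₀ hκ
  have h3 : κ * q = κ⁻¹ := by
    linear_combination κ⁻¹ * hq - κ * q * h2
  have h1 : E * (κ * b') = κ * (E * b') := by ring
  rw [h1, h, ← mul_assoc, h3]

end SymLAux

open SymLAux in
/-- **SymL** (the symmetry for closed paths) -/
theorem tSymL : S_Sym1 → S_Tt → S_UnifP → S_SymL := by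
  intro h1 h2 h3 L s hp hu
  obtain ⟨K, hK⟩ := gen h1 h2 h3 L s s hp hu
  refine ⟨K, fun ξ hξ => ?_⟩
  obtain ⟨A, B, C⟩ := hK ξ hξ
  have hg := gg_eq (tr3 ξ L) (h2.2.2.1 ξ L)
  have hg' := gg_eq (tr3 ξ⁻¹ L) (h2.2.2.1 ξ⁻¹ L)
  have q : ∀ i j : Fin 2, ξ ^ (2 * K) * (rho (tr3 ξ⁻¹ L).1 i 0 * hm s ξ 0 j +
      rho (tr3 ξ⁻¹ L).1 i 1 * hm s ξ 1 j) =
      hm s ξ i 0 * rho (tr3 ξ L).1 0 j + hm s ξ i 1 * rho (tr3 ξ L).1 1 j := by
    intro i j
    have := congrFun (congrFun A i) j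
    simpa only [Matrix.smul_apply, smul_eq_mul, Matrix.mul_apply, Fin.sum_univ_two] using this
  have q00 := q 0 0
  have q01 := q 0 1
  have q10 := q 1 0
  have q11 := q 1 1
  clear q A hK
  generalize rho (tr3 ξ⁻¹ L).1 = R' at *
  generalize rho (tr3 ξ L).1 = R at *
  generalize ξ ^ (2 * K) = E at *
  have hx : ξ ≠ 0 := hξ.ne'
  have hxi : ξ⁻¹ ≠ 0 := inv_ne_zero hx
  have hk1 : ξ ^ 2 * (ξ ^ 2)⁻¹ = 1 := mul_inv_cancel₀ (pow_ne_zero 2 hx)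
  have hk2 : (ξ⁻¹) ^ 2 * ((ξ⁻¹) ^ 2)⁻¹ = 1 := mul_inv_cancel₀ (pow_ne_zero 2 hxi)
  have he1 : (ξ ^ 2)⁻¹ ≠ 0 := inv_ne_zero (pow_ne_zero 2 hx)
  have he2 : ((ξ⁻¹) ^ 2)⁻¹ ≠ 0 := inv_ne_zero (pow_ne_zero 2 hxi)
  have key : E * (R' 0 0 + R' 1 1) = R 0 0 + R 1 1 →
      E * gg (tr3 ξ⁻¹ L) = gg (tr3 ξ L) := by
    intro h
    rw [hg, hg']
    linear_combination h - B - C
  have hinv : ξ⁻¹ ^ 2 = (ξ ^ 2)⁻¹ := inv_pow ξ 2
  obtain ⟨s1, s2, s3⟩ := s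
  cases s1 <;> cases s2 <;> cases s3
  · exact absurd ⟨rfl, rfl⟩ hu
  · -- false false true
    have hH : hm (false, false, true) ξ = !![1, 0; ((ξ⁻¹) ^ 2)⁻¹ - 1, ((ξ⁻¹) ^ 2)⁻¹] := by
      simp [hm, kk, kap]
    rw [hH] at q00 q01 q10 q11
    obtain ⟨t, u⟩ := shape1 E _ _ _ _ _ _ _ _ _ _ hk2 q00 q01 q11
    refine ⟨key t, fun h => absurd rfl h, fun _ => ?_⟩
    exact clB E _ _ _ _ (by simpa [kap] using hx) (by simp [kap, hx]) u
  · -- false true false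
    have hH : hm (false, true, false) ξ = !![((ξ⁻¹) ^ 2)⁻¹, 0; 0, 1] := by
      simp [hm, kk, kap]
    rw [hH] at q00 q01 q10 q11
    obtain ⟨t, u, v⟩ := shape3 E _ _ _ _ _ _ _ _ _ _ hk2 he2 q00 q01 q10 q11
    refine ⟨key t, fun _ => ?_, fun _ => ?_⟩
    · exact clA E _ _ _ _ (by simpa [kap] using hx) (by simp [kap]) v
    · exact clB E _ _ _ _ (by simpa [kap] using hx) (by simp [kap, hx]) u
  · -- false true true
    have hH : hm (false, true, true) ξ = !![1, 1 - (ξ ^ 2)⁻¹; 0, (ξ ^ 2)⁻¹] := by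
      simp [hm, kk, kap]
    rw [hH] at q00 q01 q10 q11
    obtain ⟨t, u⟩ := shape2 E _ _ _ _ _ _ _ _ _ he1 q00 q10 q11
    refine ⟨key t, fun _ => ?_, fun h => absurd rfl h⟩
    exact clA E _ _ _ _ (by simpa [kap] using hx) (by simp [kap]) u
  · -- true false false
    have hH : hm (true, false, false) ξ = !![1, 1 - ((ξ⁻¹) ^ 2)⁻¹; 0, ((ξ⁻¹) ^ 2)⁻¹] := by
      simp [hm, kk, kap]
    rw [hH] at q00 q01 q10 q11
    obtain ⟨t, u⟩ := shape2 E _ _ _ _ _ _ _ _ _ he2 q00 q10 q11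
    refine ⟨key t, fun _ => ?_, fun h => absurd rfl h⟩
    exact clA E _ _ _ _ (by simpa [kap] using hx) (by simp [kap]) u
  · -- true false true
    have hH : hm (true, false, true) ξ = !![(ξ ^ 2)⁻¹, 0; 0, 1] := by
      simp [hm, kk, kap]
    rw [hH] at q00 q01 q10 q11
    obtain ⟨t, u, v⟩ := shape3 E _ _ _ _ _ _ _ _ _ _ hk1 he1 q00 q01 q10 q11
    refine ⟨key t, fun _ => ?_, fun _ => ?_⟩
    · exact clA E _ _ _ _ (by simpa [kap] using hx) (by simp [kap]) v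
    · exact clB E _ _ _ _ (by simpa [kap] using hx) (by simp [kap, hx]) u
  · -- true true false
    have hH : hm (true, true, false) ξ = !![1, 0; (ξ ^ 2)⁻¹ - 1, (ξ ^ 2)⁻¹] := by
      simp [hm, kk, kap]
    rw [hH] at q00 q01 q10 q11
    obtain ⟨t, u⟩ := shape1 E _ _ _ _ _ _ _ _ _ _ hk1 q00 q01 q11
    refine ⟨key t, fun h => absurd rfl h, fun _ => ?_⟩
    exact clB E _ _ _ _ (by simpa [kap] using hx) (by simp [kap, hx]) u
  · exact absurd ⟨rfl, rfl⟩ hu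

end Pool.Agent.HMS
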