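import Pool.Agent.HMS.Spec

/-!
# HMS, module TanG: the colourings of a tangle
-/

set_option autoImplicit false

namespace Pool.Agent.HMS

open Polynomial Matrix Pool.Agent.HMA Pool.Agent.HMT

namespace TanGAux

private lemma core (T : Tangle) (ξ m a b : ℝ)
    (hrow : (fox (-(ξ ^ 2)) T).mulVec (fun _ => 1) =
      Pi.single T.ne (-(wNE (-(ξ ^ 2)) (T.ovr T.ne))) + Pi.single T.sw (-(wSW (-(ξ ^ 2)) (T.ovr T.sw))))
    (hRel : Rel T ξ m a b) :
    (fox (-(ξ ^ 2)) T).adjugate T.nw T.sw * -(wSW (-(ξ ^ 2)) (T.ovr T.sw)) = m - a ∧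
    ColAm T ξ m a b ∧ ColBm T ξ m a b := by
  obtain ⟨hdet, hm, h₁, hF, hnw, hse⟩ := hRel
  unfold ColAm ColBm
  set F := fox (-(ξ ^ 2)) T with hFdef
  refine ⟨?_, ?_, ?_⟩
  · have h2 : F.mulVec ((fun _ => 1) - h₁) = Pi.single T.sw (-(wSW (-(ξ ^ 2)) (T.ovr T.sw))) := by
      rw [Matrix.mulVec_sub, hrow, hF]
      abel
    have h3 : F.adjugate.mulVec (F.mulVec ((fun _ => 1) - h₁)) = F.det • ((fun _ => 1) - h₁) := by
      rw [Matrix.mulVec_mulVec, Matrix.adjugate_mul, Matrix.smul_mulVec, Matrix.one_mulVec]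
    rw [h2] at h3
    have h4 := congrFun h3 T.nw
    rw [Matrix.mulVec_single] at h4
    simp only [Pi.smul_apply, Pi.sub_apply, smul_eq_mul, MulOpposite.smul_eq_mul_unop, MulOpposite.unop_op,
      Matrix.col_apply] at h4
    rw [h4, hdet, mul_sub, mul_one, hnw]
  · intro y₁ y₂
    refine ⟨(((m - a) * y₂ - (m * y₁ - a * y₂)) • h₁ + (m * y₁ - a * y₂) • (fun _ => (1 : ℝ))), ?_, ?_, ?_⟩
    · rw [Matrix.mulVec_add, Matrix.mulVec_smul, Matrix.mulVec_smul, hF, hrow]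
      funext i
      simp only [Pi.add_apply, Pi.smul_apply, smul_eq_mul, Pi.single_apply]
      split_ifs <;> ring
    · simp only [Pi.add_apply, Pi.smul_apply, smul_eq_mul]
      linear_combination (y₂ - y₁) * hnw
    · simp only [Pi.add_apply, Pi.smul_apply, smul_eq_mul]
      linear_combination (y₂ - y₁) * hse
  · intro y₂ y₃
    refine ⟨((m * (y₃ - y₂)) • h₁ + (a * y₂) • (fun _ => (1 : ℝ))), ?_, ?_, ?_⟩
    · rw [Matrix.mulVec_add, Matrix.mulVec_smul, Matrix.mulVec_smul, hF, hrow]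
      funext i
      simp only [Pi.add_apply, Pi.smul_apply, smul_eq_mul, Pi.single_apply]
      split_ifs <;> ring
    · simp only [Pi.add_apply, Pi.smul_apply, smul_eq_mul]
      linear_combination (y₃ - y₂) * hnw
    · simp only [Pi.add_apply, Pi.smul_apply, smul_eq_mul]
      linear_combination (y₃ - y₂) * hse

end TanGAux

/-- Module `TanG`. -/
theorem tTanG : S_Dt → S_Mab → S_Row1 → S_TanG := by
  intro hDt _ hRow T ξ hO hξ
  exact TanGAux.core T ξ _ _ _ (hRow ℝ (-(ξ ^ 2)) T) ((hDt T hO).2 ξ hξ)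

end Pool.Agent.HMS
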