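import Pool.Agent.HMS.Spec

/-! # HMS, module TriP: the triples of parallel letters -/

set_option autoImplicit false

namespace Pool.Agent.HMS

open Polynomial Matrix Pool.Agent.HMA Pool.Agent.HMT

namespace TriPAux

theorem rgs (c : Bool) (k m a b : ℝ) : rg c (k * m) (k * a) (k * b) = k • rg c m a b := by
  cases c
  · unfold rg
    rw [if_neg Bool.false_ne_true, if_neg Bool.false_ne_true]
    refine Prod.ext ?_ (Prod.ext ?_ ?_)
    · ext i j
      fin_cases i <;> fin_cases j <;> simp [mul_sub]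
    · simp
    · simp [mul_sub]
  · unfold rg
    rw [if_pos rfl, if_pos rfl]
    refine Prod.ext ?_ (Prod.ext ?_ ?_)
    · ext i j
      fin_cases i <;> fin_cases j <;> simp [mul_sub]
    · simp [mul_sub]
    · simp

theorem ggs (k : ℝ) (t : T3) : gg (k • t) = k * gg t := by
  unfold gg
  rw [Prod.smul_fst, Prod.smul_snd, Prod.smul_fst, Prod.smul_snd, Matrix.trace_smul]
  simp only [smul_eq_mul]
  ring

theorem kapT (ξ : ℝ) : kap true ξ = ξ := if_pos rfl

theorem kapF (ξ : ℝ) : kap false ξ = ξ⁻¹ := if_neg Bool.false_ne_true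

theorem kapI (d : Bool) (ξ : ℝ) : kap d ξ⁻¹ = kap (!d) ξ := by
  cases d
  · rw [kapF, inv_inv]
    exact (kapT ξ).symm
  · rw [kapT]
    exact (kapF ξ).symm

theorem triT (x : ℤ[X] × ℤ[X]) (ξ : {ξ : ℝ // 0 < ξ}) :
    tri true x ξ = pb true true ξ.1 (ev ξ.1 x.1) (ev ξ.1 x.2) := by
  generalize hA : ev ξ.1 x.1 = A
  generalize hB : ev ξ.1 x.2 = B
  unfold tri pb rg
  rw [if_pos rfl, hA, hB, Bool.not_true, kapT, kapF]
  refine Prod.ext ?_ (Prod.ext ?_ ?_)
  · ext i j
    fin_cases i <;> fin_cases j <;> simp [RR, kapT, kapF] <;> ring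
  · simp only []
    ring
  · simp only []

theorem triF (x : ℤ[X] × ℤ[X]) (ξ : {ξ : ℝ // 0 < ξ}) :
    tri false x ξ = pa false true ξ.1 (ev ξ.1 x.1) (ev ξ.1 x.2) := by
  generalize hA : ev ξ.1 x.1 = A
  generalize hB : ev ξ.1 x.2 = B
  unfold tri pa rg
  rw [if_neg Bool.false_ne_true, hA, hB, Bool.not_false, kapT, kapF]
  refine Prod.ext ?_ (Prod.ext ?_ ?_)
  · ext i j
    fin_cases i <;> fin_cases j <;> simp [RR, kapT, kapF] <;> ring
  · simp only []
  · simp only []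
    ring

end TriPAux

open TriPAux

theorem tTriP : S_TriP := by
  refine ⟨fun x ξ => ⟨triT x ξ, triF x ξ⟩, fun c d ξ A B _ => ?_, fun ξ F => ?_, rgs,
    fun k t t' => ⟨ggs k t, smul_mul_assoc k t t', mul_smul_comm k t t'⟩⟩
  · unfold pb pa
    rw [kapI, inv_inv, add_comm ξ⁻¹ ξ]
    exact ⟨rfl, rfl⟩
  · unfold ev
    rw [inv_inv, add_comm]

end Pool.Agent.HMS
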