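import Pool.Agent.HMS.Spec

set_option autoImplicit false

namespace Pool.Agent.HMS

open Polynomial Matrix Pool.Agent.HMA Pool.Agent.HMT

namespace TtAux

theorem app (ξ : ℝ) (L L' : List Ltr) : tr3 ξ (L ++ L') = tr3 ξ L' * tr3 ξ L := by
  induction L with
  | nil => simp [tr3]
  | cons x L ih =>
    simp only [List.cons_append, tr3]
    rw [ih, mul_assoc]

theorem cyc (t t' : T3) : gg (t * t') = gg (t' * t) := by
  unfold gg
  simp only [Prod.fst_mul, Prod.snd_mul]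
  rw [Matrix.trace_mul_comm, mul_comm t.2.1, mul_comm t.2.2]

theorem rowL (c : Bool) (m a b : ℝ) (i : Fin 3) :
    (rg c m a b).1 i 0 + (rg c m a b).1 i 1 + (rg c m a b).1 i 2 = (rg c m a b).2.1 := by
  cases c <;> fin_cases i <;> simp [rg, sub_eq_add_neg]

theorem detL (c : Bool) (m a b : ℝ) :
    (rg c m a b).1.det = (rg c m a b).2.1 ^ 2 * (rg c m a b).2.2 := by
  cases c
  · simp only [rg, Matrix.det_fin_three]
    simp
    ring
  · simp only [rg, Matrix.det_fin_three]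
    simp
    ring

theorem row (ξ : ℝ) (L : List Ltr) : ∀ i : Fin 3,
    (tr3 ξ L).1 i 0 + (tr3 ξ L).1 i 1 + (tr3 ξ L).1 i 2 = (tr3 ξ L).2.1 := by
  induction L with
  | nil =>
    intro i
    fin_cases i <;> simp [tr3]
  | cons x L ih =>
    intro i
    have h0 := rowL x.1 (mT x.2 ξ) (aT x.2 ξ) (bT x.2 ξ) 0
    have h1 := rowL x.1 (mT x.2 ξ) (aT x.2 ξ) (bT x.2 ξ) 1
    have h2 := rowL x.1 (mT x.2 ξ) (aT x.2 ξ) (bT x.2 ξ) 2
    have h := ih i
    have e : tr3 ξ (x :: L) = tr3 ξ L * lt3 ξ x := rfl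
    rw [e]
    simp only [Prod.fst_mul, Prod.snd_mul, Matrix.mul_apply, Fin.sum_univ_three]
    rw [← h]
    have g : lt3 ξ x = rg x.1 (mT x.2 ξ) (aT x.2 ξ) (bT x.2 ξ) := rfl
    rw [g]
    linear_combination (tr3 ξ L).1 i 0 * h0 + (tr3 ξ L).1 i 1 * h1 + (tr3 ξ L).1 i 2 * h2

theorem dt (ξ : ℝ) (L : List Ltr) :
    (tr3 ξ L).1.det = (tr3 ξ L).2.1 ^ 2 * (tr3 ξ L).2.2 := by
  induction L with
  | nil => simp [tr3]
  | cons x L ih =>
    have e : tr3 ξ (x :: L) = tr3 ξ L * lt3 ξ x := rfl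
    have g : (lt3 ξ x).1.det = (lt3 ξ x).2.1 ^ 2 * (lt3 ξ x).2.2 :=
      detL x.1 (mT x.2 ξ) (aT x.2 ξ) (bT x.2 ξ)
    rw [e]
    simp only [Prod.fst_mul, Prod.snd_mul]
    rw [Matrix.det_mul, ih, g]
    ring

end TtAux

theorem tTt : S_Tt :=
  ⟨TtAux.app, TtAux.cyc, TtAux.row, TtAux.dt⟩

end Pool.Agent.HMS
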