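import Pool.Agent.HMS.Spec

/-!
# HMS, UnifP: the state at one end of a path is uniform iff the state at the other end is
-/

set_option autoImplicit false

namespace Pool.Agent.HMS

open Polynomial Matrix Pool.Agent.HMA Pool.Agent.HMT

namespace UnifPAux

/-- One step. -/
theorem step (hLt : S_Lt) (x : Ltr) (s s' : St) (h : Stp x s s') : Unif s ↔ Unif s' := by
  obtain ⟨h1, h2⟩ := hLt x s s' h
  cases hx : x.1 with
  | true =>
    obtain ⟨ha, hb⟩ := h1 hx
    by_cases he : s.1 = s.2.1
    · rw [(ha he).1]
    · rcases hb he with ⟨hs, _⟩ | ⟨hs, _⟩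
      · rw [hs]
        constructor
        · intro hu
          exact absurd hu.1 he
        · intro hu
          have h3 : s.2.1 = s.1 := by simpa [swp] using hu.1
          exact absurd h3.symm he
      · rw [hs]
  | false =>
    obtain ⟨ha, hb⟩ := h2 hx
    by_cases he : s.2.1 = s.2.2
    · rw [(ha he).1]
    · rcases hb he with ⟨hs, _⟩ | ⟨hs, _⟩
      · rw [hs]
        constructor
        · intro hu
          exact absurd hu.2 he
        · intro hu
          have h3 : s.2.2 = s.2.1 := by simpa [swp] using hu.2
          exact absurd h3.symm he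
      · rw [hs]

end UnifPAux

theorem tUnifP : S_Lt → S_UnifP := by
  intro hLt L
  induction L with
  | nil =>
    intro s s' h
    have h' : s = s' := h
    rw [h']
  | cons x L ih =>
    intro s s' h
    obtain ⟨s'', h1, h2⟩ := h
    exact (UnifPAux.step hLt x s s'' h1).trans (ih s'' s' h2)

end Pool.Agent.HMS
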