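import Pool.Agent.HMS.Spec

set_option autoImplicit false

namespace Pool.Agent.HMS

open Polynomial Matrix Pool.Agent.HMA Pool.Agent.HMT

namespace UntAux

lemma ell0 (s : St) (ξ : ℝ) : ell s ξ 0 = (if s.1 then 1 else -1) * (-(ξ ^ 2)) ^
    (if s.1 then (1 : ℤ) else 0) := rfl

lemma ell1 (s : St) (ξ : ℝ) : ell s ξ 1 = (if s.2.1 then 1 else -1) * (-(ξ ^ 2)) ^
    ((if s.1 then (1 : ℤ) else -1) + (if s.2.1 then 1 else 0)) := by
  simp [ell, dn, ex]

lemma ell2 (s : St) (ξ : ℝ) : ell s ξ 2 = (if s.2.2 then 1 else -1) * (-(ξ ^ 2)) ^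
    ((if s.1 then (1 : ℤ) else -1) + (if s.2.1 then 1 else -1) + (if s.2.2 then 1 else 0)) := by
  simp [ell, dn, ex]

lemma q1 (t : ℝ) : 0 < 1 + t + t ^ 2 := by nlinarith [sq_nonneg (t + 1 / 2)]

end UntAux

open UntAux

theorem tUnt : S_Unt := by
  rintro ⟨a, b, c⟩
  constructor
  · intro hU
    cases a <;> cases b <;> cases c <;> simp [Unif] at hU
    · refine ⟨-2, fun ξ hξ => ?_⟩
      have h0 := ell0 (false, false, true) ξ
      have h1 := ell1 (false, false, true) ξ
      have h2 := ell2 (false, false, true) ξ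
      have hx : ξ ≠ 0 := hξ.ne'
      norm_num at h0 h1 h2
      rw [h0, h1, h2]
      refine ⟨?_, ?_, ?_⟩
      · simp [hx]
      · field_simp; simp [hx]
      · field_simp; ring
    · refine ⟨0, fun ξ hξ => ?_⟩
      have h0 := ell0 (false, true, false) ξ
      have h1 := ell1 (false, true, false) ξ
      have h2 := ell2 (false, true, false) ξ
      norm_num at h0 h1 h2
      rw [h0, h1, h2]
      norm_num
    · refine ⟨-2, fun ξ hξ => ?_⟩
      have h0 := ell0 (false, true, true) ξ
      have h1 := ell1 (false, true, true) ξ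
      have h2 := ell2 (false, true, true) ξ
      have hx : ξ ≠ 0 := hξ.ne'
      norm_num at h0 h1 h2
      rw [h0, h1, h2]
      refine ⟨by norm_num, ?_, ?_⟩
      · simp [hx]
      · field_simp; ring
    · refine ⟨2, fun ξ hξ => ?_⟩
      have h0 := ell0 (true, false, false) ξ
      have h1 := ell1 (true, false, false) ξ
      have h2 := ell2 (true, false, false) ξ
      have hx : ξ ≠ 0 := hξ.ne'
      norm_num at h0 h1 h2
      rw [h0, h1, h2]
      refine ⟨?_, ?_, ?_⟩
      · simp [hx]
      · norm_num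
      · rw [show (ξ : ℝ) ^ (2 : ℤ) = ξ ^ 2 by norm_cast]; ring
    · refine ⟨0, fun ξ hξ => ?_⟩
      have h0 := ell0 (true, false, true) ξ
      have h1 := ell1 (true, false, true) ξ
      have h2 := ell2 (true, false, true) ξ
      have hx : ξ ≠ 0 := hξ.ne'
      norm_num at h0 h1 h2
      rw [h0, h1, h2]
      refine ⟨?_, ?_, ?_⟩
      · simp [hx]
      · ring_nf; simp [hx]
      · norm_num
    · refine ⟨2, fun ξ hξ => ?_⟩
      have h0 := ell0 (true, true, false) ξ
      have h1 := ell1 (true, true, false) ξ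
      have h2 := ell2 (true, true, false) ξ
      have hx : ξ ≠ 0 := hξ.ne'
      norm_num at h0 h1 h2
      rw [h0, h1, h2]
      refine ⟨?_, ?_, ?_⟩
      · norm_cast; simp [hx]
      · norm_cast; ring_nf; simp [hx]
      · norm_cast; ring
  · intro hU
    cases a <;> cases b <;> cases c <;> simp [Unif] at hU
    · intro ξ hξ
      have h0 := ell0 (false, false, false) ξ
      have h1 := ell1 (false, false, false) ξ
      have h2 := ell2 (false, false, false) ξ
      have hx : ξ ≠ 0 := hξ.ne'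
      have hq := q1 (-(ξ ^ 2))
      norm_num at h0 h1 h2
      rw [h0, h1, h2]
      refine ⟨?_, ?_, ?_⟩
      · simp [hx]
      · intro h
        have h4 : (-1 + (ξ ^ 2)⁻¹ + -((ξ ^ 2) ^ 2)⁻¹) * ξ ^ 4 = 0 := by rw [h, zero_mul]
        have h5 : (-1 + (ξ ^ 2)⁻¹ + -((ξ ^ 2) ^ 2)⁻¹) * ξ ^ 4 = -(1 + -(ξ ^ 2) + (-(ξ ^ 2)) ^ 2) := by
          field_simp; ring
        linarith
      · field_simp; ring
    · intro ξ hξ
      have h0 := ell0 (true, true, true) ξ
      have h1 := ell1 (true, true, true) ξ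
      have h2 := ell2 (true, true, true) ξ
      have hx : ξ ≠ 0 := hξ.ne'
      have hq := q1 (-(ξ ^ 2))
      norm_num at h0 h1 h2
      rw [h0, h1, h2]
      refine ⟨?_, ?_, ?_⟩
      · norm_cast; simp [hx]
      · norm_cast
        intro h
        have h4 : -(ξ ^ 2) * (1 + -(ξ ^ 2) + (-(ξ ^ 2)) ^ 2) = 0 := by
          linarith
        rcases mul_eq_zero.1 h4 with h5 | h5
        · exact hx (by simpa using h5)
        · exact absurd h5 hq.ne'
      · norm_cast; field_simp; ring

end Pool.Agent.HMS
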