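import Pool.Agent.HMT.Main
import Pool.Agent.HMS.RelU
import Pool.Agent.HMS.Dt
import Pool.Agent.HMS.Mab
import Pool.Agent.HMS.Lt
import Pool.Agent.HMS.CV
import Pool.Agent.HMS.FullAdd
import Pool.Agent.HMS.Tt
import Pool.Agent.HMS.Mrg
import Pool.Agent.HMS.Pp
import Pool.Agent.HMS.Cyc
import Pool.Agent.HMS.MrgP
import Pool.Agent.HMS.UnifP
import Pool.Agent.HMS.Sym1
import Pool.Agent.HMS.SymL
import Pool.Agent.HMS.CRem
import Pool.Agent.HMS.QO
import Pool.Agent.HMS.Qm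
import Pool.Agent.HMS.Ce
import Pool.Agent.HMS.CG
import Pool.Agent.HMS.Six
import Pool.Agent.HMS.TriP
import Pool.Agent.HMS.SixG
import Pool.Agent.HMS.Spl
import Pool.Agent.HMS.Par
import Pool.Agent.HMS.Nrm
import Pool.Agent.HMS.Alr
import Pool.Agent.HMS.GoodN
import Pool.Agent.HMS.GoodD
import Pool.Agent.HMS.TanG
import Pool.Agent.HMS.InvG
import Pool.Agent.HMS.AdjT
import Pool.Agent.HMS.DetSA
import Pool.Agent.HMS.DetSB
import Pool.Agent.HMS.HSA
import Pool.Agent.HMS.HSB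
import Pool.Agent.HMS.BaseS
import Pool.Agent.HMS.LinW
import Pool.Agent.HMS.ClsS
import Pool.Agent.HMS.Ell
import Pool.Agent.HMS.ClsG
import Pool.Agent.HMS.Unt
import Pool.Agent.HMS.LKS
import Pool.Agent.HMS.AdjP
import Pool.Agent.HMS.PW
import Pool.Agent.HMS.FinS
import Pool.Agent.HMS.Calm
import Pool.Agent.HMS.CalmNum
import Pool.Agent.HMS.GoodC
import Pool.Agent.HMS.FinC

/-! HMS, module `Main`: the assembly. -/

set_option autoImplicit false

namespace Pool.Agent.HMS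

open Pool.Agent.HMA Pool.Agent.HMT

theorem mDt : S_Dt := tDt mInd tRelU
theorem mMab : S_Mab := tMab mDt tPos mPos2
theorem mLt : S_Lt := tLt mDt
theorem mCV : S_CV := tCV mDt mCone2
theorem mFullAdd : S_FullAdd := tFullAdd tCheb mFullM
theorem mMrg : S_Mrg := tMrg tRelU mDt mMab mHor mVer
theorem mCyc : S_Cyc := tCyc tTt
theorem mMrgP : S_MrgP := tMrgP tTt mMrg tPp
theorem mUnifP : S_UnifP := tUnifP mLt
theorem mSym1 : S_Sym1 := tSym1 mLt
theorem mSymL : S_SymL := tSymL mSym1 tTt mUnifP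
theorem mCRem : S_CRem := tCRem tTt
theorem mQm : S_Qm := tQm tRelU mDt mMab mHor mVer tQO
theorem mCe : S_Ce := tCe mLt mCV tQO mQm
theorem mCG : S_CG := tCG mLt mFullAdd mFullM tPos mSymL mCRem mCe
theorem mSixG : S_SixG := tSixG tTt tSix tTriP mKTri mKF mGF
theorem mSpl : S_Spl := tSpl mLt
theorem mPar : S_Par := tPar mLt mCyc mSixG
theorem mGoodN : S_GoodN := tGoodN tPp mCyc mMrgP mUnifP mCG mSpl mPar tNrm tAlr
theorem mGoodD : S_GoodD := tGoodD mLt tTt tTriP mKTri mKF mGF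
theorem mTanG : S_TanG := tTanG mDt mMab tRow1
theorem mDetSA : S_DetSA := tDetSA tDet mMab tAdjT tInvG
theorem mDetSB : S_DetSB := tDetSB tDet mMab mTanG tAdjT tInvG
theorem mBaseS : S_BaseS := tBaseS mTanG
theorem mLinW : S_LinW := tLinW mMab mTanG tInvG mDetSA mDetSB tHSA tHSB mBaseS tTt
theorem mClsS : S_ClsS := tClsS tRk2 mRow1W
theorem mEll : S_Ell := tEll mLt
theorem mLKS : S_LKS := tLKS tBal mLK
theorem mAdjP : S_AdjP := tAdjP mRow1W mLKS
theorem mPW : S_PW := tPW tPp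
theorem mFinS : S_FinS :=
  tFinS mGoodN mGoodD mLinW mClsS tTt mEll tClsG tUnt mPW mAdjP tMapW mRead
theorem mGoodC : S_GoodC := tGoodC tPp mCyc mMrgP mUnifP mCG mSpl mPar tNrm tAlr
theorem mFinC : S_FinC :=
  tFinC mGoodC mGoodD mLinW mClsS tTt mEll tClsG tUnt mPW mAdjP tMapW mRead

/-- All strands in the same direction. -/
theorem mCalmUnif (W : Wd) (hO : Ori W) (hu : Unif (topS W)) : Calm W :=
  calm_unif mUnifP (fun W => (mPW W).1) W hO hu

/-- At most 11 tangles. -/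
theorem mCalmNum (W : Wd) (hO : Ori W) (hC : Clo3 W) (hn : num W ≤ 11) : Calm W :=
  calm_num mLt mUnifP mPW W hO hC hn

end Pool.Agent.HMS
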