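import Pool.Agent.HMS.Spec

/-!
# HMS, module Qm: the numbers of the tangle `Qo`
-/

set_option autoImplicit false

namespace Pool.Agent.HMS

open Polynomial Matrix Pool.Agent.HMA Pool.Agent.HMT

namespace QmAux

/-- The numbers of `ver S T` and `hor S T`. -/
theorem nums (hU : S_RelU) (hD : S_Dt) (hM : S_Mab) (hH : S_Hor) (hV : S_Ver) (S T : Tangle) (ξ : ℝ)
    (hξ : 0 < ξ) (hS : S.Oriented) (hT : T.Oriented) :
    (mT (.ver S T) ξ = mT S ξ * mT T ξ - (mT S ξ - bT S ξ) * aT T ξ ∧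
      aT (.ver S T) ξ = aT S ξ * mT T ξ - aT S ξ * aT T ξ + bT S ξ * aT T ξ ∧
      bT (.ver S T) ξ = bT S ξ * bT T ξ) ∧
    (mT (.hor S T) ξ = mT S ξ * mT T ξ - bT S ξ * (mT T ξ - aT T ξ) ∧
      aT (.hor S T) ξ = aT S ξ * aT T ξ ∧
      bT (.hor S T) ξ = mT S ξ * bT T ξ + bT S ξ * aT T ξ - bT S ξ * bT T ξ) := by
  have rS := (hD S hS).2 ξ hξ
  have rT := (hD T hT).2 ξ hξ
  obtain ⟨a1, a2, a3, a4⟩ := hM S ξ hS hξ
  obtain ⟨b1, b2, b3, b4⟩ := hM T ξ hT hξ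
  refine ⟨hU _ _ _ _ _ (hV S T ξ _ _ _ _ _ _ rS rT ?_), hU _ _ _ _ _ (hH S T ξ _ _ _ _ _ _ rS rT ?_)⟩
  · have e : mT S ξ * mT T ξ - (mT S ξ - bT S ξ) * aT T ξ
        = mT S ξ * (mT T ξ - aT T ξ) + bT S ξ * aT T ξ := by ring
    rw [e]
    have h1 : 0 < mT S ξ * (mT T ξ - aT T ξ) := mul_pos (by linarith) (by linarith)
    have h2 : 0 < bT S ξ * aT T ξ := mul_pos a3 b1
    linarith
  · have e : mT S ξ * mT T ξ - bT S ξ * (mT T ξ - aT T ξ)
        = (mT S ξ - bT S ξ) * (mT T ξ - aT T ξ) + mT S ξ * aT T ξ := by ring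
    rw [e]
    have h1 : 0 < (mT S ξ - bT S ξ) * (mT T ξ - aT T ξ) := mul_pos (by linarith) (by linarith)
    have h2 : 0 < mT S ξ * aT T ξ := mul_pos (by linarith) b1
    linarith

/-- First relation between a tangle and a triple. -/
def A1 (Q : Tangle) (ξ : ℝ) (t : T3) : Prop :=
  mT Q ξ = t.1 2 2 - t.1 0 2 ∧ aT Q ξ = t.2.1 - t.1 0 2 ∧ bT Q ξ = t.1 1 2 - t.1 0 2

/-- Second relation. -/
def A2 (Q : Tangle) (ξ : ℝ) (t : T3) : Prop :=
  mT Q ξ = t.1 0 0 - t.1 2 0 ∧ aT Q ξ = t.1 0 0 - t.2.1 ∧ bT Q ξ = t.1 0 0 - t.1 1 0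

/-- Entries of the product with a letter of the column `true`. -/
theorem entT (m a b : ℝ) (t : T3) (j : Fin 3) :
    (rg true m a b * t).1 0 j = m * t.1 0 j - a * t.1 1 j ∧
    (rg true m a b * t).1 1 j = (m - b) * t.1 0 j + (b - a) * t.1 1 j ∧
    (rg true m a b * t).1 2 j = (m - a) * t.1 2 j ∧
    (rg true m a b * t).2.1 = (m - a) * t.2.1 := by
  have e : (rg true m a b * t).1 = !![m, -a, 0; m - b, b - a, 0; 0, 0, m - a] * t.1 := rfl
  have e2 : (rg true m a b * t).2.1 = (m - a) * t.2.1 := rfl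
  refine ⟨?_, ?_, ?_, e2⟩
  · rw [e, Matrix.mul_apply, Fin.sum_univ_three]
    show m * t.1 0 j + -a * t.1 1 j + 0 * t.1 2 j = _
    ring
  · rw [e, Matrix.mul_apply, Fin.sum_univ_three]
    show (m - b) * t.1 0 j + (b - a) * t.1 1 j + 0 * t.1 2 j = _
    ring
  · rw [e, Matrix.mul_apply, Fin.sum_univ_three]
    show 0 * t.1 0 j + 0 * t.1 1 j + (m - a) * t.1 2 j = _
    ring

/-- Entries of the product with a letter of the column `false`. -/
theorem entF (m a b : ℝ) (t : T3) (j : Fin 3) :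
    (rg false m a b * t).1 0 j = a * t.1 0 j ∧
    (rg false m a b * t).1 1 j = (a - b) * t.1 1 j + b * t.1 2 j ∧
    (rg false m a b * t).1 2 j = (a - m) * t.1 1 j + m * t.1 2 j ∧
    (rg false m a b * t).2.1 = a * t.2.1 := by
  have e : (rg false m a b * t).1 = !![a, 0, 0; 0, a - b, b; 0, a - m, m] * t.1 := rfl
  have e2 : (rg false m a b * t).2.1 = a * t.2.1 := rfl
  refine ⟨?_, ?_, ?_, e2⟩
  · rw [e, Matrix.mul_apply, Fin.sum_univ_three]
    show a * t.1 0 j + 0 * t.1 1 j + 0 * t.1 2 j = _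
    ring
  · rw [e, Matrix.mul_apply, Fin.sum_univ_three]
    show 0 * t.1 0 j + (a - b) * t.1 1 j + b * t.1 2 j = _
    ring
  · rw [e, Matrix.mul_apply, Fin.sum_univ_three]
    show 0 * t.1 0 j + (a - m) * t.1 1 j + m * t.1 2 j = _
    ring

/-- One letter. -/
theorem step (hU : S_RelU) (hD : S_Dt) (hM : S_Mab) (hH : S_Hor) (hV : S_Ver) (Q : Tangle) (x : Ltr)
    (ξ : ℝ) (hξ : 0 < ξ) (hQ : Q.Oriented) (hx : x.2.Oriented) (t : T3) :
    (A1 Q ξ t → A1 (if x.1 then .ver Q x.2 else .hor Q x.2) ξ (lt3 ξ x * t)) ∧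
    (A2 Q ξ t → A2 (if x.1 then .ver Q x.2 else .hor Q x.2) ξ (lt3 ξ x * t)) := by
  obtain ⟨c, T⟩ := x
  obtain ⟨⟨v1, v2, v3⟩, h1, h2, h3⟩ := nums hU hD hM hH hV Q T ξ hξ hQ hx
  cases c
  · have el : lt3 ξ (false, T) = rg false (mT T ξ) (aT T ξ) (bT T ξ) := rfl
    have ei : (if ((false, T) : Ltr).1 then Tangle.ver Q ((false, T) : Ltr).2
        else .hor Q ((false, T) : Ltr).2) = .hor Q T := rfl
    rw [el, ei]
    unfold A1 A2
    constructor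
    · rintro ⟨p1, p2, p3⟩
      obtain ⟨q0, q1, q2, q3⟩ := entF (mT T ξ) (aT T ξ) (bT T ξ) t 2
      rw [q0, q1, q2, q3, h1, h2, h3, p1, p2, p3]
      refine ⟨by ring, by ring, by ring⟩
    · rintro ⟨p1, p2, p3⟩
      obtain ⟨q0, q1, q2, q3⟩ := entF (mT T ξ) (aT T ξ) (bT T ξ) t 0
      rw [q0, q1, q2, q3, h1, h2, h3, p1, p2, p3]
      refine ⟨by ring, by ring, by ring⟩
  · have el : lt3 ξ (true, T) = rg true (mT T ξ) (aT T ξ) (bT T ξ) := rfl
    have ei : (if ((true, T) : Ltr).1 then Tangle.ver Q ((true, T) : Ltr).2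
        else .hor Q ((true, T) : Ltr).2) = .ver Q T := rfl
    rw [el, ei]
    unfold A1 A2
    constructor
    · rintro ⟨p1, p2, p3⟩
      obtain ⟨q0, q1, q2, q3⟩ := entT (mT T ξ) (aT T ξ) (bT T ξ) t 2
      rw [q0, q1, q2, q3, v1, v2, v3, p1, p2, p3]
      refine ⟨by ring, by ring, by ring⟩
    · rintro ⟨p1, p2, p3⟩
      obtain ⟨q0, q1, q2, q3⟩ := entT (mT T ξ) (aT T ξ) (bT T ξ) t 0
      rw [q0, q1, q2, q3, v1, v2, v3, p1, p2, p3]
      refine ⟨by ring, by ring, by ring⟩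

/-- All letters. -/
theorem path (hU : S_RelU) (hD : S_Dt) (hM : S_Mab) (hH : S_Hor) (hV : S_Ver) (hO : S_QO)
    (ξ : ℝ) (hξ : 0 < ξ) (L : List Ltr) : ∀ (Q : Tangle) (r : Bool) (s s' : St) (t : T3),
    QOri Q r s → Pth L s s' →
    (A1 Q ξ t → A1 (Qo Q L) ξ (tr3 ξ L * t)) ∧ (A2 Q ξ t → A2 (Qo Q L) ξ (tr3 ξ L * t)) := by
  induction L with
  | nil =>
    intro Q r s s' t _ _
    have e : tr3 ξ [] * t = t := by
      show (1 : T3) * t = t
      exact one_mul t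
    rw [e]
    exact ⟨id, id⟩
  | cons x L ih =>
    intro Q r s s' t hQ hp
    obtain ⟨s'', hs, hL⟩ := hp
    have hp1 : Pth [x] s s'' := ⟨s'', hs, rfl⟩
    have hQ' : QOri (Qo Q [x]) r s'' := hO.1 [x] Q r s s'' hQ hp1
    have e1 : Qo Q [x] = (if x.1 then .ver Q x.2 else .hor Q x.2) := rfl
    rw [e1] at hQ'
    have e2 : Qo Q (x :: L) = Qo (if x.1 then .ver Q x.2 else .hor Q x.2) L := rfl
    have e3 : tr3 ξ (x :: L) * t = tr3 ξ L * (lt3 ξ x * t) := by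
      show tr3 ξ L * lt3 ξ x * t = _
      exact mul_assoc _ _ _
    rw [e2, e3]
    obtain ⟨i1, i2⟩ := ih _ r s'' s' (lt3 ξ x * t) hQ' hL
    obtain ⟨j1, j2⟩ := step hU hD hM hH hV Q x ξ hξ hQ.1 hs.1 t
    exact ⟨fun h => i1 (j1 h), fun h => i2 (j2 h)⟩

end QmAux

theorem tQm : S_RelU → S_Dt → S_Mab → S_Hor → S_Ver → S_QO → S_Qm := by
  intro hU hD hM hH hV hO T L s s' ξ hξ
  constructor
  · rintro ⟨r, hs, hL⟩ hne
    obtain ⟨ho, h1, h2, h3, h4, h5⟩ := hs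
    have hQ : QOri T s.2.2 r := by
      refine ⟨ho, h2.symm, ?_, h3.symm, h4.symm⟩
      have h1' : s.2.1 = T.und T.sw := h1
      have h5' : r.1 = s.1 := h5
      rw [← h1', h5']
      revert hne
      cases s.1 <;> cases s.2.1 <;> simp
    have hp := (QmAux.path hU hD hM hH hV hO ξ hξ L T s.2.2 r s' (lt3 ξ (false, T)) hQ hL).1 (by
      refine ⟨?_, ?_, ?_⟩
      · show mT T ξ = mT T ξ - 0
        ring
      · show aT T ξ = aT T ξ - 0
        ring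
      · show bT T ξ = bT T ξ - 0
        ring)
    exact ⟨hO.1 L T s.2.2 r s' hQ hL, hp.1, hp.2.1, hp.2.2⟩
  · rintro ⟨r, hs, hL⟩ hne
    obtain ⟨ho, h1, h2, h3, h4, h5⟩ := hs
    have hQ : QOri T s.1 r := by
      have h2' : s.2.1 = !T.und T.ne := h2
      have h3' : r.1 = !T.und T.sw := h3
      have h5' : r.2.2 = s.2.2 := h5
      refine ⟨ho, h1.symm, ?_, h4.symm, ?_⟩
      · rw [h3', Bool.not_not]
      · rw [h5']
        rw [h2'] at hne
        revert hne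
        cases s.2.2 <;> cases T.und T.ne <;> simp
    have hp := (QmAux.path hU hD hM hH hV hO ξ hξ L T s.1 r s' (lt3 ξ (true, T)) hQ hL).2 (by
      refine ⟨?_, ?_, ?_⟩
      · show mT T ξ = mT T ξ - 0
        ring
      · show aT T ξ = mT T ξ - (mT T ξ - aT T ξ)
        ring
      · show bT T ξ = mT T ξ - (mT T ξ - bT T ξ)
        ring)
    exact ⟨hO.1 L T s.1 r s' hQ hL, hp.1, hp.2.1, hp.2.2⟩

end Pool.Agent.HMS
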