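import Pool.Agent.HMS.Defs

/-!
# HMS, Spec: the statements of the modules

THEOREM. Let `W` be a word of at most 11 alternating algebraic tangles with any orientation. Every first
minor of the Fox matrix of the closure of `W` has the pattern with the signature `sigW W`.

PROOF. A letter (column, tangle) has the triple `lt3 ξ x = rg c m a b`, a word the product `tr3 ξ L`
(first letter at the top, the rightmost factor). The minor is a power of `ξ²` times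
`gg (tr3 ξ L)` (times `1 / (u² - 3)` if all strands are parallel), `u = ξ + ξ⁻¹`. `gg` does not change if
the word is rotated and if two neighbours in the same column are merged. If the columns alternate and a
letter is of pattern c (in and out alternate), then `gg` is `n` times `gg` of the word without this
letter plus `κ d` times a minor of the closure of a tangle (an algebraic link; `HMA`). If all letters are
parallel and not all strands point in the same direction, the word has `6 k` letters, and for 6 letters it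
is a word with all strands downwards by the symmetry of the octahedron (`S_Six`). All strands parallel:
`HMT`.

Every module proves one `S_..`; modules which use other statements take them as hypotheses (named in the
docstring, in this order; HMA and HMT statements are written with `HMA.`, `HMT.` in the docstring).
Notation: `κ = kap d ξ`, `kap d ξ⁻¹ = kap (!d) ξ = κ⁻¹`, `u - κ = κ⁻¹`.
-/

namespace Pool.Agent.HMS

open Polynomial Matrix Pool.Agent.HMA Pool.Agent.HMT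

/-! ## Part 1: tangles -/

/-- Module `RelU`. Multiply `fox *ᵥ h = single ne (- wNE)` by the adjugate: `det * h = ..`. -/
def S_RelU : Prop := ∀ (T : Tangle) (ξ m a b : ℝ), Rel T ξ m a b → mT T ξ = m ∧ aT T ξ = a ∧ bT T ξ = b

/-- Module `Dt` (uses `HMA.S_Ind`, `S_RelU`). The patterns a, b, c of HMA with `mT`, `aT`, `bT`. -/
def S_Dt : Prop := ∀ T : Tangle, T.Oriented →
  ((∃ d, T.ovr T.nw = d ∧ T.und T.ne = !d ∧ T.und T.sw = !d ∧ T.ovr T.se = d ∧ DB T d) ∨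
   (∃ d, T.ovr T.nw = d ∧ T.und T.ne = d ∧ T.und T.sw = d ∧ T.ovr T.se = d ∧ DA T d) ∨
   (∃ o, T.ovr T.nw = o ∧ T.und T.ne = o ∧ T.und T.sw = !o ∧ T.ovr T.se = !o ∧ DC T o)) ∧
  ∀ ξ : ℝ, 0 < ξ → Rel T ξ (mT T ξ) (aT T ξ) (bT T ξ)

/-- Module `Mab` (uses `S_Dt`, `HMA.S_Pos`, `HMT.S_Pos2`). E.g. pattern b: `a = c κ A`,
`m - a = c (κ⁻¹ A + B)`, `b = c (κ A + B)`, `m - b = c κ⁻¹ A`. -/
def S_Mab : Prop := ∀ (T : Tangle) (ξ : ℝ), T.Oriented → 0 < ξ →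
  0 < aT T ξ ∧ aT T ξ < mT T ξ ∧ 0 < bT T ξ ∧ bT T ξ < mT T ξ

/-- Module `Lt` (uses `S_Dt`): the letters of a path. -/
def S_Lt : Prop := ∀ (x : Ltr) (s s' : St), Stp x s s' →
  (x.1 = true → (s.1 = s.2.1 → s' = s ∧ DB x.2 s.1) ∧
    (s.1 ≠ s.2.1 → (s' = swp true s ∧ DA x.2 s.1) ∨ (s' = s ∧ DC x.2 s.1))) ∧
  (x.1 = false → (s.2.1 = s.2.2 → s' = s ∧ DA x.2 s.2.2) ∧
    (s.2.1 ≠ s.2.2 → (s' = swp false s ∧ DB x.2 s.2.2) ∨ (s' = s ∧ DC x.2 s.2.2)))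

/-- Module `CV` (uses `S_Dt`, `HMA.S_Cone2`): the closures of a tangle. Pattern a: `b = c κ A`, `A` is
full of type `(q, p)`, hence of type `(p, q)`. Pattern c: `b = c n`, `m - b = c κ d`. Pattern b:
`m - b = c κ⁻¹ A`. The other patterns do not close. -/
def S_CV : Prop := ∀ T : Tangle, T.Oriented →
  (T.ovr T.nw = T.und T.ne → T.und T.sw = T.ovr T.se →
    ∃ (F : ℤ[X]) (p q : ℕ) (K : ℤ), Full p q F ∧ (p : ℤ) - q = faces T - positive T + 1 ∧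
      ∀ ξ : ℝ, 0 < ξ → bT T ξ = ξ ^ K * ev ξ F) ∧
  (T.ovr T.nw = !T.und T.sw → T.ovr T.se = !T.und T.ne →
    ∃ (F : ℤ[X]) (p q : ℕ) (K : ℤ), Full p q F ∧ (p : ℤ) - q = faces T - positive T ∧
      ∀ ξ : ℝ, 0 < ξ → mT T ξ - bT T ξ = ξ ^ K * ev ξ F)

/-- Module `FullAdd` (uses `HMA.S_Cheb`, `HMA.S_FullM`). The smaller one is in `Uni` of the larger degree
(`p' + q' = p + q + 2 i`). -/
def S_FullAdd : Prop := ∀ (p q p' q' : ℕ) (F G : ℤ[X]), Full p q F → Full p' q' G →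
  (p : ℤ) - q = (p' : ℤ) - q' → ∃ p'' q'' : ℕ, Full p'' q'' (F + G) ∧ (p'' : ℤ) - q'' = (p : ℤ) - q

/-! ## Part 2: triples -/

/-- Module `Tt`. (1) induction; (2) `trace (M N) = trace (N M)`; (3) row sums: induction, the row sums of
`(rg c m a b).1` are `(rg c m a b).2.1`; (4) `det (rg c m a b).1 = n² n'`, induction. -/
def S_Tt : Prop :=
  (∀ (ξ : ℝ) (L L' : List Ltr), tr3 ξ (L ++ L') = tr3 ξ L' * tr3 ξ L) ∧
  (∀ t t' : T3, gg (t * t') = gg (t' * t)) ∧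
  (∀ (ξ : ℝ) (L : List Ltr) (i : Fin 3),
    (tr3 ξ L).1 i 0 + (tr3 ξ L).1 i 1 + (tr3 ξ L).1 i 2 = (tr3 ξ L).2.1) ∧
  (∀ (ξ : ℝ) (L : List Ltr), (tr3 ξ L).1.det = (tr3 ξ L).2.1 ^ 2 * (tr3 ξ L).2.2)

/-- Module `Mrg` (uses `S_RelU`, `S_Dt`, `S_Mab`, `HMA.S_Hor`, `HMA.S_Ver`): merging two letters. By
`S_Ver` and `S_RelU` the numbers of `ver S T` are `m₁ m₂ - (m₁ - b₁) a₂`, `a₁ m₂ - a₁ a₂ + b₁ a₂`, `b₁ b₂`
(`m₁ m₂ - (m₁ - b₁) a₂ ≥ m₁ (m₂ - a₂) > 0`), those of `hor S T` are `m₁ m₂ - b₁ (m₂ - a₂)`, `a₁ a₂`,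
`m₁ b₂ + b₁ a₂ - b₁ b₂`. Then compare the entries (`ring`). -/
def S_Mrg : Prop := ∀ (S T : Tangle) (ξ : ℝ), 0 < ξ → S.Oriented → T.Oriented →
  lt3 ξ (true, .ver S T) = lt3 ξ (true, T) * lt3 ξ (true, S) ∧
  lt3 ξ (false, .hor S T) = lt3 ξ (false, T) * lt3 ξ (false, S)

/-- Module `Pp`: paths. (1) induction on `L`; (2) from (1). -/
def S_Pp : Prop :=
  (∀ (L L' : List Ltr) (s s' : St), Pth (L ++ L') s s' ↔ ∃ r, Pth L s r ∧ Pth L' r s') ∧
  (∀ (L L' : List Ltr) (s : St), Pth (L ++ L') s s → ∃ r, Pth L s r ∧ Pth L' r s ∧ Pth (L' ++ L) r r)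

/-- Module `Cyc` (uses `S_Tt`). `sigL` does not change. -/
def S_Cyc : Prop := ∀ L L' : List Ltr, Good (L ++ L') → Good (L' ++ L)

/-- Module `MrgP` (uses `S_Tt`, `S_Mrg`, `S_Pp`): merging the last two letters, `U = ver S T` (`c = true`)
or `hor S T` (`c = false`). The gluing conditions of `U.Oriented` follow from the two steps. `sigL`:
`faces (ver S T) = faces S + faces T + 1`, `faces (hor S T) = faces S + faces T`. -/
def S_MrgP : Prop := ∀ (L : List Ltr) (c : Bool) (S T : Tangle) (s : St),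
  Pth (L ++ [(c, S), (c, T)]) s s →
  Pth (L ++ [(c, if c then .ver S T else .hor S T)]) s s ∧
  (Good (L ++ [(c, if c then .ver S T else .hor S T)]) → Good (L ++ [(c, S), (c, T)]))

/-- Module `UnifP` (uses `S_Lt`): induction. -/
def S_UnifP : Prop := ∀ (L : List Ltr) (s s' : St), Pth L s s' → (Unif s ↔ Unif s')

/-- Module `Sym1` (uses `S_Lt`). By `S_Lt` there are (up to the choice of the third direction) the cases:
`x.1 = true`: b (equal directions), a, c (different directions); `x.1 = false`: a (equal), b, c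
(different). Insert the data (`ev ξ⁻¹ F = ev ξ F`, `kap d ξ⁻¹ = kap (!d) ξ`); with the normalized numbers (without
`ξ ^ K`) the identity holds with `K = 0`, except for `x.1 = false`, pattern c, where `κ` has to be
factored out (`m = κ (κ⁻¹ n + d)`, `a = κ d`, `b = κ κ⁻¹ n`; `κ = ξ ^ (± 1)`). So the `K` of the claim is the `K` of
the data, for `x.1 = false` and pattern c it is `K + 1` (`o = true`) or `K - 1` (`o = false`). For example
`x.1 = true`, pattern a, `s = (d, !d, !d)`: `rho = !![κ⁻¹ A, κ⁻¹ A + B; 0, κ A]`,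
`hm s = !![1, 1 - κ²; 0, κ²]`, `hm s' = !![κ², 0; 0, 1]`. (Checked by computer for all cases.) All states are
finite: `rcases` on the Booleans, then `field_simp`, `ring`. -/
def S_Sym1 : Prop := ∀ (x : Ltr) (s s' : St), Stp x s s' → ¬ Unif s → ∃ K : ℤ, ∀ ξ : ℝ, 0 < ξ →
  ξ ^ (2 * K) • (rho (lt3 ξ⁻¹ x).1 * hm s ξ) = hm s' ξ * rho (lt3 ξ x).1 ∧
  ξ ^ (2 * K) * (lt3 ξ⁻¹ x).2.1 = (lt3 ξ x).2.2 ∧ ξ ^ (2 * K) * (lt3 ξ⁻¹ x).2.2 = (lt3 ξ x).2.1

/-- Module `SymL` (uses `S_Sym1`, `S_Tt`, `S_UnifP`). First for all paths the same statement as `S_Sym1` with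
`tr3 ξ L` in place of `lt3 ξ x` (induction; `rho (M N) = rho M * rho N` if all row sums of `M` are equal
and all row sums of `N` are equal; the exponents add). Then `s = s'`: `hm s ξ` is invertible and triangular
(upper if `s.1 ≠ s.2.1`, lower if `s.2.1 ≠ s.2.2`) with quotient `(hm 1 1) / (hm 0 0) = κ²`, `κ = kap s.1 ξ` in the
first case and `κ = kap s.2.2 ξ` in the second case. `gg t = trace (rho t.1) - n - n'` (row sums). -/
def S_SymL : Prop := ∀ (L : List Ltr) (s : St), Pth L s s → ¬ Unif s → ∃ K : ℤ, ∀ ξ : ℝ, 0 < ξ →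
  ξ ^ (2 * K) * gg (tr3 ξ⁻¹ L) = gg (tr3 ξ L) ∧
  (s.1 ≠ s.2.1 →
    ξ ^ (2 * K) * ((kap s.1 ξ)⁻¹ * rho (tr3 ξ⁻¹ L).1 1 0) = kap s.1 ξ * rho (tr3 ξ L).1 1 0) ∧
  (s.2.1 ≠ s.2.2 →
    ξ ^ (2 * K) * (kap s.2.2 ξ * rho (tr3 ξ⁻¹ L).1 0 1) = (kap s.2.2 ξ)⁻¹ * rho (tr3 ξ L).1 0 1)

/-- Module `CRem` (uses `S_Tt`): the triple of the last letter is `c` times
`n * 1 + e * (E, 0, 0)` with `E = !![1, -1, 0; 1, -1, 0; 0, 0, 0]`, and `trace (E M) = M 1 2 - M 0 2` by the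
row sums (column `true`), or `c` times `e * 1 + n * (E', 0, 0)`, `E' = !![0, 0, 0; 0, -1, 1; 0, -1, 1]`,
`trace (E' M) = M 1 0 - M 2 0` (column `false`). -/
def S_CRem : Prop := ∀ (L : List Ltr) (S : Tangle) (ξ c n e : ℝ),
  mT S ξ = c * (n + e) → aT S ξ = c * e → bT S ξ = c * n →
  gg (tr3 ξ (L ++ [(true, S)])) = c * (n * gg (tr3 ξ L) + e * rho (tr3 ξ L).1 1 0) ∧
  gg (tr3 ξ (L ++ [(false, S)])) = c * (e * gg (tr3 ξ L) + n * rho (tr3 ξ L).1 0 1)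

/-- Module `QO`: (1) induction on `L` (one letter: the gluing conditions of `ver`, `hor`); (2) induction
on `L`. -/
def S_QO : Prop :=
  (∀ (L : List Ltr) (Q : Tangle) (r : Bool) (s s' : St), QOri Q r s → Pth L s s' → QOri (Qo Q L) r s') ∧
  (∀ (L : List Ltr) (Q : Tangle),
    (faces (Qo Q L) : ℤ) - positive (Qo Q L) = (faces Q : ℤ) - positive Q + sigL L)

/-- Module `Qm` (uses `S_RelU`, `S_Dt`, `S_Mab`, `HMA.S_Hor`, `HMA.S_Ver`, `S_QO`): the tangle `Q` obtained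
from the letters of a word which begins with `(false, T)` (a cap joins the upper ends 1, 2) or `(true, T)`
(a cap joins the upper ends 2, 3). PROOF. More generally, if `QOri Q r s`, `Pth L s s'` and `t : T3` and
`mT Q ξ = t.1 2 2 - t.1 0 2`, `aT Q ξ = t.2.1 - t.1 0 2`, `bT Q ξ = t.1 1 2 - t.1 0 2`, then the same holds for
`Qo Q L` and `tr3 ξ L * t` (induction on `L`, `t` arbitrary; one letter: `S_Ver`, `S_Hor`, `S_RelU`, `ring`, see
`S_Mrg` for the numbers and their positivity; `Q` is oriented); and the same with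
`mT Q ξ = t.1 0 0 - t.1 2 0`, `aT Q ξ = t.1 0 0 - t.2.1`, `bT Q ξ = t.1 0 0 - t.1 1 0`. Start with `Q = T`,
`t = lt3 ξ (c, T)`; `QOri T s.2.2 r` (`T` in the columns 2, 3, `s.1 = !s.2.1`) or `QOri T s.1 r` (`T` in the
columns 1, 2, `s.2.2 = !s.2.1`), `r` the state after the first letter. -/
def S_Qm : Prop := ∀ (T : Tangle) (L : List Ltr) (s s' : St) (ξ : ℝ), 0 < ξ →
  (Pth ((false, T) :: L) s s' → s.1 ≠ s.2.1 → QOri (Qo T L) s.2.2 s' ∧
    mT (Qo T L) ξ = (tr3 ξ ((false, T) :: L)).1 2 2 - (tr3 ξ ((false, T) :: L)).1 0 2 ∧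
    aT (Qo T L) ξ = (tr3 ξ ((false, T) :: L)).2.1 - (tr3 ξ ((false, T) :: L)).1 0 2 ∧
    bT (Qo T L) ξ = (tr3 ξ ((false, T) :: L)).1 1 2 - (tr3 ξ ((false, T) :: L)).1 0 2) ∧
  (Pth ((true, T) :: L) s s' → s.2.1 ≠ s.2.2 → QOri (Qo T L) s.1 s' ∧
    mT (Qo T L) ξ = (tr3 ξ ((true, T) :: L)).1 0 0 - (tr3 ξ ((true, T) :: L)).1 2 0 ∧
    aT (Qo T L) ξ = (tr3 ξ ((true, T) :: L)).1 0 0 - (tr3 ξ ((true, T) :: L)).2.1 ∧
    bT (Qo T L) ξ = (tr3 ξ ((true, T) :: L)).1 0 0 - (tr3 ξ ((true, T) :: L)).1 1 0)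

/-- Module `Ce` (uses `S_Lt`, `S_CV`, `S_QO`, `S_Qm`): the second term of `S_CRem`. `x.1 = true` (so
`y.1 = false`): `rho .. 1 0 = M 1 2 - M 0 2 = bT Q`, `Q = Qo y.2 L'`, `Q` closes with `QOri Q s.2.2 s`
(`s.1 ≠ s.2.1`), `S_CV` (first part), `faces Q - positive Q = sigL L`. `x.1 = false` (`y.1 = true`):
`rho .. 0 1 = M 1 0 - M 2 0 = mT Q - bT Q`, `QOri Q s.1 s` (`s.2.1 ≠ s.2.2`), `S_CV` (second part),
`faces Q - positive Q = sigL L - 1`. -/
def S_Ce : Prop := ∀ (y : Ltr) (L' : List Ltr) (s : St), Pth (y :: L') s s →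
  (y.1 = false → s.1 ≠ s.2.1 → ∃ (F : ℤ[X]) (p q : ℕ) (K : ℤ), Full p q F ∧
    (p : ℤ) - q = sigL (y :: L') + 1 ∧
    ∀ ξ : ℝ, 0 < ξ → rho (tr3 ξ (y :: L')).1 1 0 = ξ ^ K * ev ξ F) ∧
  (y.1 = true → s.2.1 ≠ s.2.2 → ∃ (F : ℤ[X]) (p q : ℕ) (K : ℤ), Full p q F ∧
    (p : ℤ) - q = sigL (y :: L') - 1 ∧
    ∀ ξ : ℝ, 0 < ξ → rho (tr3 ξ (y :: L')).1 0 1 = ξ ^ K * ev ξ F)

/-- Module `CG` (uses `S_Lt`, `S_FullAdd`, `HMA.S_FullM`, `HMA.S_Pos`, `S_SymL`, `S_CRem`, `S_Ce`): a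
letter of pattern c at the end. `S_Lt` gives `DC x.2 o` with `o = s.1` (`x.1 = true`), `o = s.2.2`
(`x.1 = false`). `L = y :: L'`. Case `x.1 = true`: by `S_CRem`
`gg = ξ^K (n gg(L) + d (κ rho 1 0))`, `gg(L) = ξ^K₁ ev F₁`, `κ rho 1 0 = ξ^K₂ ev F₂` (`S_Ce`, `κ = ξ^(± 1)`). By `S_SymL`
(with its `K_L`) and `ev ξ⁻¹ F = ev ξ F > 0`: `K₁ = K_L`, `K₂ = K_L` (take `ξ = 2`; the function `f ξ = κ rho 1 0`
satisfies `f ξ⁻¹ = κ⁻¹ rho(ξ⁻¹) 1 0`). So `gg = ξ^(K + K_L) ev (n F₁ + d F₂)`, and `S_FullAdd` (both have the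
same difference `sigL L + faces - positive + 1`). If `L.length = 1` then `gg(L) = 0` (direct) and
`gg = ξ^(K + K₂) ev (d F₂)`. Case `x.1 = false`: `gg = ξ^K κ (d gg(L) + n (κ⁻¹ rho 0 1))`, in the same way. -/
def S_CG : Prop := ∀ (L : List Ltr) (x y : Ltr) (L' : List Ltr) (s : St), L = y :: L' →
  y.1 = !x.1 → Pth L s s → Stp x s s → Dif x.1 s → (L.length = 1 ∨ Good L) → Good (L ++ [x])

/-! ## Part 3: parallel letters -/

/-- Module `Six`: the symmetry of the octahedron. (Clear the denominators, `ring`.) -/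
def S_Six : Prop := ∀ (ξ : ℝ) (A B : Fin 6 → ℝ), 0 < ξ →
  ((ξ + ξ⁻¹) ^ 2 - 3) * gg (pb false true ξ (A 5) (B 5) * (pa true false ξ (A 4) (B 4) *
    (pa false true ξ (A 3) (B 3) * (pa true true ξ (A 2) (B 2) * (pb false false ξ (A 1) (B 1) *
      pb true true ξ (A 0) (B 0)))))) =
  gg (pa false true ξ (A 4) (B 4) * (pb true true ξ (A 5) (B 5) * (pa false true ξ (A 3) (B 3) *
    (pb true true ξ (A 1) (B 1) * (pa false true ξ (A 2) (B 2) * pb true true ξ (A 0) (B 0))))))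

/-- Module `TriP`. -/
def S_TriP : Prop :=
  (∀ (x : ℤ[X] × ℤ[X]) (ξ : {ξ : ℝ // 0 < ξ}),
    tri true x ξ = pb true true ξ.1 (ev ξ.1 x.1) (ev ξ.1 x.2) ∧
    tri false x ξ = pa false true ξ.1 (ev ξ.1 x.1) (ev ξ.1 x.2)) ∧
  (∀ (c d : Bool) (ξ A B : ℝ), 0 < ξ → pb c d ξ⁻¹ A B = pb c (!d) ξ A B ∧
    pa c d ξ⁻¹ A B = pa c (!d) ξ A B) ∧
  (∀ (ξ : ℝ) (F : ℤ[X]), ev ξ⁻¹ F = ev ξ F) ∧
  (∀ (c : Bool) (k m a b : ℝ), rg c (k * m) (k * a) (k * b) = k • rg c m a b) ∧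
  (∀ (k : ℝ) (t t' : T3), gg (k • t) = k * gg t ∧ (k • t) * t' = k • (t * t') ∧
    t * (k • t') = k • (t * t'))

/-- Module `SixG` (uses `S_Tt`, `S_Six`, `S_TriP`, `HMT.S_KTri`, `HMT.S_KF`, `HMT.S_GF`). Let `x i` be the
data of `y i`. `tr3 ξ [..]` is `ξ^(∑ K_i)` times the product of `S_Six` (`d = true`), the triples being
`pb true d`, `pb false (!d)`, `pa true d`, `pa false d`, `pa true (!d)`, `pb false d`. The right side of `S_Six` is `Gf` of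
`tri false (x 4) * (tri true (x 5) * (tri false (x 3) * (tri true (x 1) * (tri false (x 2) * tri true (x 0)))))`,
which is in `KFull` (`S_KTri`, `S_KF`), and `S_GF` gives `(u² - 3) ev F`; cancel `u² - 3 > 0`. For `d = false`
use `S_Six` and `S_GF` at `ξ⁻¹` (`S_TriP`). Types: `p = ∑ p_i + 3`, `q = ∑ q_i + 3`. -/
def S_SixG : Prop := ∀ (y : Fin 6 → Tangle) (d : Bool), DB (y 0) d → DB (y 1) (!d) → DA (y 2) d →
  DA (y 3) d → DA (y 4) (!d) → DB (y 5) d →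
  Good [(true, y 0), (false, y 1), (true, y 2), (false, y 3), (true, y 4), (false, y 5)]

/-- Module `Spl` (uses `S_Lt`): induction on `L`; a step which is not to `swp x.1 s` is of pattern c with
different directions and does not change the state (if the directions are equal, `swp x.1 s = s`). -/
def S_Spl : Prop := ∀ (L : List Ltr) (s s' : St), Pth L s s' → PPth L s s' ∨
  ∃ (l₁ : List Ltr) (x : Ltr) (l₂ : List Ltr) (r : St),
    L = l₁ ++ x :: l₂ ∧ Pth l₁ s r ∧ Stp x r r ∧ Dif x.1 r ∧ Pth l₂ r s'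

/-- Module `Par` (uses `S_Lt`, `S_Cyc`, `S_SixG`). `L` has length 2, 4, 6, 8, 10 and alternates; the state
at the end is `(swp false ∘ swp true)^(length / 2) s`, a rotation of the three directions to the power
`length / 2`, so `length = 6` (all states: `decide`). `L = [x0, .., x5]`. If `s = (d, d, !d)`: the states are
`(d, d, !d)`, `(d, d, !d)`, `(d, !d, d)`, `(!d, d, d)`, `(!d, d, d)`, `(d, !d, d)`, and `S_Lt` gives the data for `S_SixG`. If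
`s = (d, !d, d)`: the states of the word without its first four letters `[x4, x5, x0, x1, x2, x3]` begin with `(d', d', !d')`;
if `s = (!d, d, d)`: those of `[x2, .., x5, x0, x1]` or `[x4, ..]` (compute); `S_Cyc`. -/
def S_Par : Prop := ∀ (L : List Ltr) (s : St), altB true L → Even L.length → L ≠ [] →
  L.length ≤ 11 → PPth L s s → ¬ Unif s → Good L

/-- Module `Nrm`: lists. Rotate such that the first letter is `true` and the last one `false`; then either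
the columns alternate (and the length is even), or there are two neighbours in the same column; rotate
such that they are the last two letters. -/
def S_Nrm : Prop := ∀ L : List Ltr, Both L →
  (∃ (l₁ l₂ L' : List Ltr) (c : Bool) (S T : Tangle),
    L = l₁ ++ l₂ ∧ l₂ ++ l₁ = L' ++ [(c, S), (c, T)]) ∨
  ∃ l₁ l₂ : List Ltr, L = l₁ ++ l₂ ∧ altB true (l₂ ++ l₁) ∧ Even (l₂ ++ l₁).length

/-- Module `Alr`: lists. If `l₁ ++ x :: l₂` alternates and has even length, then `l₂ ++ l₁` alternates,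
beginning with `!x.1`, and has odd length. The second claim: an alternating word of length `≥ 2` has both
columns. -/
def S_Alr : Prop :=
  (∀ (l₁ : List Ltr) (x : Ltr) (l₂ : List Ltr), altB true (l₁ ++ x :: l₂) →
    Even (l₁ ++ x :: l₂).length → altB (!x.1) (l₂ ++ l₁) ∧ Odd (l₂ ++ l₁).length) ∧
  (∀ (c : Bool) (L : List Ltr), altB c L → 2 ≤ L.length → Both L)

/-- Module `GoodN` (uses `S_Pp`, `S_Cyc`, `S_MrgP`, `S_UnifP`, `S_CG`, `S_Spl`, `S_Par`, `S_Nrm`, `S_Alr`). Strong induction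
on the length. `S_Nrm`. Case 1: rotate (`S_Pp`, `S_Cyc`, `S_UnifP`), merge (`S_MrgP`; the merged word still has
both columns and is shorter). Case 2: rotate such that the word `M` alternates, `S_Spl` for `M`. Parallel:
`S_Par`. Otherwise `M = l₁ ++ x :: l₂`, rotate to `l₂ ++ l₁ ++ [x]`; by `S_Alr` the word `l₂ ++ l₁` has odd length
and begins with a letter in the other column; its length is 1 or it is Good by induction (`S_Alr` (2));
`S_CG`. -/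
def S_GoodN : Prop := ∀ (L : List Ltr) (s : St), Pth L s s → ¬ Unif s → Both L → L.length ≤ 11 → Good L

/-- Module `GoodD` (uses `S_Lt`, `S_Tt`, `S_TriP`, `HMT.S_KTri`, `HMT.S_KF`, `HMT.S_GF`). All strands have the direction `d`. By
`S_Lt` all letters `(true, T)` are of pattern b, the letters `(false, T)` of pattern a, with the flag `d`. By
induction on `L`: there are `T : TT`, `p q K` with `KFull p q s r T`, `p - q = sigL L`, and
`tr3 ξ L = ξ^K • T ξ` (`d = true`) or `ξ^K • T ξ⁻¹` (`d = false`), `s = 1` if `true` occurs, else `0`, `r = 1` if `false`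
occurs (`L = []`: `T = 1`, `KFull 0 0 0 0 1`; `KFull` is monotone in `s`, `r`). Then `S_GF`. -/
def S_GoodD : Prop := ∀ (L : List Ltr) (s : St), Pth L s s → Unif s → Both L →
  ∃ (F : ℤ[X]) (p q : ℕ) (K : ℤ), Full p q F ∧ (p : ℤ) - q = sigL L ∧
    ∀ ξ : ℝ, 0 < ξ → gg (tr3 ξ L) = ((ξ + ξ⁻¹) ^ 2 - 3) * (ξ ^ K * ev ξ F)

/-! ## Part 4: linear algebra of the words -/

/-- Module `TanG` (uses `S_Dt`, `S_Mab`, `HMA.S_Row1`). Let `h₁` be the solution of `Rel` (`h₁ nw = a / m`,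
`h₁ se = b / m`). First claim: `fox *ᵥ (1 - h₁) = single sw (- wSW)` (`S_Row1`), multiply by the adjugate.
`ColAm`: `h = α h₁ + β 1`, `β = m y₁ - a y₂`, `α = (m - a) y₂ - β`. `ColBm`: `β = a y₂`,
`α = m (y₃ - y₂)`. (See `Pool/Agent/HMT/TanA.lean`, `TanB.lean`.) -/
def S_TanG : Prop := ∀ (T : Tangle) (ξ : ℝ), T.Oriented → 0 < ξ →
  (fox (-(ξ ^ 2)) T).adjugate T.nw T.sw * -(wSW (-(ξ ^ 2)) (T.ovr T.sw)) = mT T ξ - aT T ξ ∧
  ColAm T ξ (mT T ξ) (aT T ξ) (bT T ξ) ∧ ColBm T ξ (mT T ξ) (aT T ξ) (bT T ξ)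

/-- Module `InvG`. The minors of the product: `c = true`: `Dl' = (m - a) (m Dl - a m21)`,
`m21' = (m - a) ((m - b) Dl + (b - a) m21)`, `m23' = (m - a) b m23`; `c = false`:
`Dl' = a (m Dl - (m - a) m23)`, `m21' = a (m - b) m21`, `m23' = a (b Dl + (a - b) m23)`. Positivity:
`m Dl - a m21 ≥ (m - a) Dl`, `(m - b) Dl + (b - a) m21 = (m - b) (Dl - m21) + (m - a) m21`, and the new
`Dl - m21 - m23` is `(m - a) b` times (`c = true`) or `a (m - b)` times (`c = false`) the old one. -/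
def S_InvG : Prop :=
  (Inv3 1 1) ∧
  (∀ (m a b : ℝ) (M : Matrix (Fin 3) (Fin 3) ℝ),
    (Dl ((rg true m a b).1 * M) = (m - a) * (m * Dl M - a * m21 M)) ∧
    (Dl ((rg false m a b).1 * M) = a * (m * Dl M - (m - a) * m23 M))) ∧
  ∀ (c : Bool) (m a b : ℝ), 0 < a → a < m → 0 < b → b < m →
    ∀ (M : Matrix (Fin 3) (Fin 3) ℝ) (n : ℝ), Inv3 M n →
      Inv3 ((rg c m a b).1 * M) ((rg c m a b).2.1 * n)

/-- Module `AdjT`: as `HMT.S_AdjV` (`Pool/Agent/HMT/AdjV.lean`). `Col` for `x = ![M 2 2, 0, -M 2 0]`: `M x` has the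
components `Dl M`, `m21 M`, `0`; `x = ![-M 0 2, 0, M 0 0]`: `0`, `m23 M`, `Dl M`. -/
def S_AdjT : Prop := ∀ (W : Wd) (ξ : ℝ) (M : Matrix (Fin 3) (Fin 3) ℝ) (n : ℝ),
  Inv3 M n → RelS W ξ M n →
  n * ((fox3 (-(ξ ^ 2)) W).adjugate W.b2 W.b1 * -(wSW (-(ξ ^ 2)) (W.ovr W.b1))) = m21 M ∧
  n * ((fox3 (-(ξ ^ 2)) W).adjugate W.b2 W.b3 * -(wNE (-(ξ ^ 2)) (W.ovr W.b3))) = m23 M

/-- Module `DetSA` (uses `HMA.S_Det`, `S_Mab`, `S_AdjT`, `S_InvG`): `n * det = Dl * m - m21 * a` (`S_Det`,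
`l = W.b2`, `i = W.b1`, `j = T.nw`, `k = T.ne`; `aT` is the entry of the adjugate by definition). See
`Pool/Agent/HMT/DetA.lean`. -/
def S_DetSA : Prop := ∀ (W : Wd) (T : Tangle) (ξ : ℝ) (M : Matrix (Fin 3) (Fin 3) ℝ) (n : ℝ),
  0 < ξ → T.Oriented → Inv3 M n → RelS W ξ M n →
  (mT T ξ - aT T ξ) * n * (fox3 (-(ξ ^ 2)) (.addA W T)).det =
    Dl ((rg true (mT T ξ) (aT T ξ) (bT T ξ)).1 * M)

/-- Module `DetSB` (uses `HMA.S_Det`, `S_Mab`, `S_TanG`, `S_AdjT`, `S_InvG`):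
`n * det = Dl * m - m23 * (m - a)` (`S_Det`, `l = W.b2`, `i = W.b3`, `j = T.nw`, `k = T.sw`). See
`Pool/Agent/HMT/DetB.lean`. -/
def S_DetSB : Prop := ∀ (W : Wd) (T : Tangle) (ξ : ℝ) (M : Matrix (Fin 3) (Fin 3) ℝ) (n : ℝ),
  0 < ξ → T.Oriented → Inv3 M n → RelS W ξ M n →
  aT T ξ * n * (fox3 (-(ξ ^ 2)) (.addB W T)).det = Dl ((rg false (mT T ξ) (aT T ξ) (bT T ξ)).1 * M)

/-- Module `HSA`: as `HMT.S_HA` (`Pool/Agent/HMT/HA.lean`), `ν = m - a`, `z = M x`: on `W` the colouring for `ν x`, on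
`T` the colouring for `y₁ = z 0`, `y₂ = z 1`. -/
def S_HSA : Prop := ∀ (W : Wd) (T : Tangle) (ξ : ℝ) (M : Matrix (Fin 3) (Fin 3) ℝ) (n m a b : ℝ),
  Col W ξ M n → ColAm T ξ m a b → Col (.addA W T) ξ ((rg true m a b).1 * M) ((m - a) * n)

/-- Module `HSB`: as `HMT.S_HB` (`Pool/Agent/HMT/HB.lean`), `ν = a`: on `W` the colouring for `ν x`, on `T` the
colouring for `y₂ = z 1`, `y₃ = z 2`. -/
def S_HSB : Prop := ∀ (W : Wd) (T : Tangle) (ξ : ℝ) (M : Matrix (Fin 3) (Fin 3) ℝ) (n m a b : ℝ),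
  Col W ξ M n → ColBm T ξ m a b → Col (.addB W T) ξ ((rg false m a b).1 * M) (a * n)

/-- Module `BaseS` (uses `S_TanG`): as `HMT.S_Base` (`Pool/Agent/HMT/Base.lean`). `det = det S * det T`
(`det_fromBlocks_zero₁₂`), `Dl = a' (m - a) m m'`. Colouring: on `S` for `y₁ = a' x 0`, `y₂ = a' x 1`, on `T`
for `y₂ = (m - b) x 0 + (b - a) x 1`, `y₃ = (m - a) x 2`. -/
def S_BaseS : Prop := ∀ (S T : Tangle) (ξ : ℝ), 0 < ξ → S.Oriented → T.Oriented →
  RelS (.base S T) ξ ((rg false (mT T ξ) (aT T ξ) (bT T ξ)).1 * (rg true (mT S ξ) (aT S ξ) (bT S ξ)).1)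
    (aT T ξ * (mT S ξ - aT S ξ))

/-- Module `LinW` (uses `S_Mab`, `S_TanG`, `S_InvG`, `S_DetSA`, `S_DetSB`, `S_HSA`, `S_HSB`, `S_BaseS`, `S_Tt`): induction
on `W`. -/
def S_LinW : Prop := ∀ W : Wd, Ori W → ∀ ξ : ℝ, 0 < ξ →
  Inv3 (tr3 ξ (lst W)).1 (tr3 ξ (lst W)).2.1 ∧ RelS W ξ (tr3 ξ (lst W)).1 (tr3 ξ (lst W)).2.1

/-- Module `ClsS` (uses `HMT.S_Rk2`, `HMT.S_Row1W`): as `HMT.S_ClsD` (`Pool/Agent/HMT/ClsD.lean`, whose proof uses only
these properties of `Inv`), `c = 1`. -/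
def S_ClsS : Prop := ∀ (W : Wd) (ξ : ℝ) (M : Matrix (Fin 3) (Fin 3) ℝ) (n : ℝ),
  Inv3 M n → RelS W ξ M n →
  (foxW (-(ξ ^ 2)) W).adjugate W.b2 W.t2 * -(wNE (-(ξ ^ 2)) (W.ovr W.t2)) =
    Dl M / n - M 0 0 - M 2 2 + n

/-- Module `Ell` (uses `S_Lt`): the left eigenvector; `t = -ξ²`. Induction on `L`; one letter: by `S_Lt` and
the data, e.g. `x.1 = true`, pattern b, `d = true`: `t m + t² (m - b) = (m - a) t`. In general
`ell s' *ᵥ (rg ..).1 = (rg ..).2.1 * ell s`; all cases by `rcases` on the Booleans, `field_simp`, `ring` (checked by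
computer). The third component for `x.1 = true` (first component for `x.1 = false`): the exponent does not
change, because the two directions are the same or exchanged. -/
def S_Ell : Prop := ∀ (L : List Ltr) (s s' : St) (ξ : ℝ), 0 < ξ → Pth L s s' → ∀ j : Fin 3,
  ∑ i, ell s' ξ i * (tr3 ξ L).1 i j = (tr3 ξ L).2.1 * ell s ξ j

/-- Module `ClsG`: linear algebra. `M - n` kills `1` and is killed by `ℓ`, so its adjugate is `s 1 ℓ`; its trace
is `- n (trace M - 2 n - n')`, its middle entry `n` times the bracket. Direct proof as `HMT.S_ClsF`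
(`Pool/Agent/HMT/ClsF.lean`): solve for the entries, `ℓ 1 ≠ 0`. -/
def S_ClsG : Prop := ∀ (M : Matrix (Fin 3) (Fin 3) ℝ) (n n' : ℝ) (ℓ : Fin 3 → ℝ), n ≠ 0 → ℓ 1 ≠ 0 →
  (∀ i, M i 0 + M i 1 + M i 2 = n) → (∀ j, ∑ i, ℓ i * M i j = n * ℓ j) → M.det = n ^ 2 * n' →
  (Dl M / n - M 0 0 - M 2 2 + n) * (ℓ 0 + ℓ 1 + ℓ 2) = -(ℓ 1) * (M.trace - 2 * n - n')

/-- Module `Unt`: the eight states. Not uniform: `ℓ 0 + ℓ 1 + ℓ 2` is `t` (two strands downwards) or `-1` (two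
strands upwards), `t = -ξ²`. -/
def S_Unt : Prop := ∀ s : St,
  (¬ Unif s → ∃ e : ℤ, ∀ ξ : ℝ, 0 < ξ → ell s ξ 1 ≠ 0 ∧ ell s ξ 0 + ell s ξ 1 + ell s ξ 2 ≠ 0 ∧
    -(ell s ξ 1) = ξ ^ e * (ell s ξ 0 + ell s ξ 1 + ell s ξ 2)) ∧
  (Unif s → ∀ ξ : ℝ, 0 < ξ → ell s ξ 1 ≠ 0 ∧ ell s ξ 0 + ell s ξ 1 + ell s ξ 2 ≠ 0 ∧
    -(ell s ξ 1) * ((ξ + ξ⁻¹) ^ 2 - 3) = ell s ξ 0 + ell s ξ 1 + ell s ξ 2)

/-- Module `LKS` (uses `HMA.S_Bal`, `HMA.S_LK`): the left kernel. Induction on `W`, `z = Sum.elim z₁ z₂`. For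
tangles in the columns 1, 2 use `S_LK` with `ν = 1` if the upper end 1 is directed downwards (`ovr nw = true`),
else `ν = -1`; for tangles in the columns 2, 3 with `ν` the number of the outer right region,
`ex s 2 + (if s.2.2 then 0 else -1)` for the state `s` above (or below: `S_Bal`) the tangle. -/
def S_LKS : Prop := ∀ W : Wd, Ori W → ∃ z : W.Cr → ℤ, ∀ y : ℝ, 0 < y →
  (∀ j, ∑ i, y ^ (z i) * fox3 (-y) W i j =
    (if j = W.t1 then y ^ ex (topS W) 0 else 0) + (if j = W.b2 then y ^ ex (botS W) 1 else 0) +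
      (if j = W.t3 then y ^ ex (topS W) 2 else 0)) ∧
  -(wSW (-y) (W.ovr W.b1)) * y ^ (z W.b1) = y ^ ex (botS W) 0 ∧
  -(wNE (-y) (W.ovr W.t2)) * y ^ (z W.t2) = y ^ ex (topS W) 1 ∧
  -(wNE (-y) (W.ovr W.b3)) * y ^ (z W.b3) = y ^ ex (botS W) 2

/-- Module `AdjP` (uses `HMT.S_Row1W`, `S_LKS`): as `HMT.S_AdjW` (`Pool/Agent/HMT/AdjW.lean`); `topS W = botS W` by
`Clo3`. -/
def S_AdjP : Prop := ∀ W : Wd, Ori W → Clo3 W → ∃ z : W.Cr → ℤ, ∀ y : ℝ, 0 < y → ∀ i j i',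
  (foxW (-y) W).adjugate i j = y ^ (z j) * (foxW (-y) W).adjugate i' W.t2

/-- Module `PW` (uses `S_Pp`): words as lists. Induction on `W`. -/
def S_PW : Prop := ∀ W : Wd,
  (Ori W → Pth (lst W) (topS W) (botS W)) ∧ (Clo3 W → topS W = botS W) ∧ sigL (lst W) = sigW W ∧
    (lst W).length = num W ∧ Both (lst W)

/-- Module `FinS` (uses `S_GoodN`, `S_GoodD`, `S_LinW`, `S_ClsS`, `S_Tt`, `S_Ell`, `S_ClsG`, `S_Unt`, `S_PW`,
`S_AdjP`, `HMT.S_MapW`, `HMA.S_Read`): the main theorem. `(foxW ..).adjugate b2 t2 * (- wNE) = ξ ^ K * ev ξ F`: by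
`S_ClsS`, `S_ClsG` it is `- ℓ 1 / (ℓ 0 + ℓ 1 + ℓ 2) * gg (tr3 ξ (lst W))`, `S_Unt`, `S_GoodN` or `S_GoodD`. Then as
`Pool/Agent/HMT/FinW.lean`. -/
def S_FinS : Prop := ∀ W : Wd, Ori W → Clo3 W → num W ≤ 11 → ∀ i j : W.Cr,
  Pattern ((foxW (X : ℤ[X]) W).adjugate i j) (sigW W)

end Pool.Agent.HMS
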